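import Mathlib
import Pool.Agent.Lib.H55K.FB6B

/-! # H55Z, part P: the value of the L-function over a number field in which p may be ramified -/

open NumberField IsDedekindDomain WeierstrassCurve

namespace H55Z

open H55P (IQ embF eF LF Per IsHecke Pt ac Inert Dec Nm UnitP)
open H35P (WAB Ker tt GoodW IntW)
open H55K.MG (VC Crd)
open H55K H55K.TQ

variable {F : Type} [Field F] [NumberField F] [IQ F] {W : WeierstrassCurve ℤ} {Om : ℂ}
    {m : Ideal (𝓞 F)} {ψ : Ideal (𝓞 F) →*₀ 𝓞 F} {p : ℕ}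

/-- The value of the square root of the discriminant. -/
noncomputable def sD (V : ValuationSubring ℂ) (K : Type) [Field K] [NumberField K] : V.ValueGroup :=
  V.valuation ((Real.sqrt |(NumberField.discr K : ℝ)| : ℝ) : ℂ)

theorem sD_sq (V : ValuationSubring ℂ) (K : Type) [Field K] [NumberField K] :
    sD V K ^ 2 = V.valuation (((NumberField.discr K).natAbs : ℕ) : ℂ) := by
  obtain ⟨D, hD⟩ : ∃ D, D = NumberField.discr K := ⟨_, rfl⟩
  unfold sD
  rw [← hD, ← map_pow]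
  congr 1
  rw [← Complex.ofReal_pow, Real.sq_sqrt (abs_nonneg _), ← Int.cast_abs, Int.abs_eq_natAbs]
  simp only [Int.cast_natCast, Complex.ofReal_natCast]

theorem lG_valD (K : Type) [Field K] [NumberField K] {L : PeriodPair} (hper : PerW F W Om) (hL : PerZ W L) (hp : p.Prime) (h5 : 5 ≤ p)
    (hF : H55P.UnrP p F) (hΔ : ¬ (p : ℤ) ∣ W.Δ) (hj : ∃ j₀ : ℤ, W.c₄ ^ 3 = j₀ * W.Δ) (L1 : ℂ)
    (V : ValuationSubring ℂ) (hV : V.valuation (p : ℂ) < 1) :
    V.valuation (lG K W L L1) = V.valuation (L1 / Om ^ Module.finrank ℚ K) * sD V K := by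
  have hOm : Om ≠ 0 := hper.ne
  have hVO : V.valuation Om ≠ 0 := (Valuation.ne_zero_iff _).2 hOm
  have h2 := prod_W (W := W) K hp h5 hΔ hj V hV
  have h3 : V.valuation (OmP W L : ℂ) = V.valuation Om := by
    have h := omr_unit hper hL hp h5 hF V hV
    rw [map_div₀] at h
    exact (div_eq_one_iff_eq hVO).1 h
  have h4 : V.valuation (H55C.Om L : ℂ) = V.valuation Om ^ 2 := by
    have h := (om_unit hper hL hp hF).2 V hV
    rw [map_div₀, map_pow] at h
    exact (div_eq_one_iff_eq (pow_ne_zero 2 hVO)).1 h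
  have h5' := NumberField.InfinitePlace.card_add_two_mul_card_eq_rank K
  rw [lG, map_div₀, map_mul, map_mul, map_mul, map_pow, map_pow, h2, h3, h4,
    mul_one, map_div₀, map_pow, ← h5', ← pow_mul, ← pow_add]
  show _ * sD V K / _ = _
  rw [div_mul_eq_mul_div]

/-- V(lG) for all K: the discriminant appears through sD. -/
theorem lG_relD (hH : BaseH F (W⁄(𝓞 F)) Om m ψ) (hp : PrimeH F (W⁄(𝓞 F)) p) (K : Type) [Field K] [NumberField K]
    (K' : IntermediateField F (AlgebraicClosure F)) [NumberField K'] (hR : LRel W ψ K K')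
    {Φ : ℂ → ℂ} (hΦa : AnalyticOnNhd ℂ Φ {s | 1 / 2 < s.re})
    (hΦ : ∀ s : ℂ, 3 / 2 < s.re → HasSum (H55N.tm (H55P.PsiP K' ψ) s) (Φ s)) :
    ∃ Λ : ℂ → ℂ, AnalyticOnNhd ℂ Λ {s | 1 / 2 < s.re} ∧
      (∀ s : ℂ, 3 / 2 < s.re → LSeriesSummable (fun n => (((W⁄K).LFunction n : ℤ) : ℂ)) s ∧ Λ s = (W⁄K).LSeries s) ∧
      (Φ 1 ≠ 0 → Λ 1 ≠ 0) ∧
      ∀ V : ValuationSubring ℂ, V.valuation (p : ℂ) < 1 → ∀ L : PeriodPair, PerZ W L →
        (Module.finrank ℚ K = 2 * Module.finrank F K' ∧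
          V.valuation (lG K W L (Λ 1)) = V.valuation (Φ 1 / Om ^ Module.finrank F K') *
            V.valuation ((starRingEnd ℂ) (Φ 1 / Om ^ Module.finrank F K')) * sD V K) ∨
        (Module.finrank ℚ K = Module.finrank F K' ∧
          V.valuation (lG K W L (Λ 1)) = V.valuation (Φ 1 / Om ^ Module.finrank F K') * sD V K) := by
  classical
  have hper := perW_of hH
  have hj := jint_Z hH
  have hΔ := fb6b_ndvd hp
  have hOm : Om ≠ 0 := hper.ne
  rcases hR with ⟨hd, hR⟩ | ⟨hd, hR⟩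
  · have hser := hR Φ hΦ
    refine ⟨fun z => Φ z * (starRingEnd ℂ) (Φ ((starRingEnd ℂ) z)), hΦa.mul (H55B.I4_conj hΦa),
      fun s hs => ⟨(hser s hs).LSeriesSummable, (hser s hs).LSeries_eq.symm⟩, fun h0 => ?_, fun V hV L hL => Or.inl ⟨hd, ?_⟩⟩
    · simp only [map_one]
      exact mul_ne_zero h0 ((map_ne_zero _).2 h0)
    · rw [lG_valD K hper hL hp.prime hp.five hp.unr hΔ hj _ V hV, hd, fb6b_conj hper V, ← map_mul]
      congr 2
      simp only [map_one]
      rw [two_mul, pow_add, mul_div_mul_comm]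
  · have hser := hR Φ hΦ
    refine ⟨Φ, hΦa, fun s hs => ⟨(hser s hs).LSeriesSummable, (hser s hs).LSeries_eq.symm⟩, fun h0 => h0,
      fun V hV L hL => Or.inr ⟨hd, ?_⟩⟩
    rw [lG_valD K hper hL hp.prime hp.five hp.unr hΔ hj _ V hV, hd]

end H55Z
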