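import Mathlib

/-! # H55Z, part P: the discriminant of the layers of the cyclotomic tower over the rationals -/

open NumberField IsDedekindDomain Polynomial

namespace H55Z

/-- The exponent of p in the discriminant of the n-th layer. -/
def En (p n : ℕ) : ℕ := ∑ k ∈ Finset.range n, (k + 2) * (p ^ (k + 1) - p ^ k)

theorem En_eq {p : ℕ} (hp : 2 ≤ p) (n : ℕ) : En p n * (p - 1) + (p - 2) = p ^ n * ((p - 1) * (n + 1) - 1) := by
  obtain ⟨q, rfl⟩ : ∃ q, p = q + 2 := ⟨p - 2, by omega⟩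
  have e1 : q + 2 - 1 = q + 1 := by omega
  have e2 : q + 2 - 2 = q := by omega
  rw [e1, e2]
  have h1 : ∀ n : ℕ, (q + 1) * (n + 1) - 1 = (q + 1) * n + q := by
    intro n
    rw [mul_add, mul_one]
    omega
  rw [h1]
  induction n with
  | zero => simp [En]
  | succ n ih =>
    have h2 : En (q + 2) (n + 1) = En (q + 2) n + (n + 2) * ((q + 2) ^ (n + 1) - (q + 2) ^ n) := by
      unfold En
      rw [Finset.sum_range_succ]
    have h3 : (q + 2) ^ (n + 1) - (q + 2) ^ n = (q + 2) ^ n * (q + 1) := by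
      rw [pow_succ, ← Nat.mul_sub_one]
      congr 1
    rw [h2, h3]
    calc (En (q + 2) n + (n + 2) * ((q + 2) ^ n * (q + 1))) * (q + 1) + q
        = (En (q + 2) n * (q + 1) + q) + (n + 2) * ((q + 2) ^ n * (q + 1)) * (q + 1) := by ring
      _ = (q + 2) ^ (n + 1) * ((q + 1) * (n + 1) + q) := by
          rw [ih]
          ring

section

variable {p : ℕ} [hp : Fact p.Prime] {n : ℕ} {L : Type} [Field L] [NumberField L] [IsCyclotomicExtension {p ^ (n + 1)} ℚ L]
  {Q : Type} [Field Q] [NumberField Q] [Algebra Q L]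

theorem P2_gal (p : ℕ) [Fact p.Prime] (n : ℕ) (L : Type) [Field L] [NumberField L] [IsCyclotomicExtension {p ^ (n + 1)} ℚ L]
    (Q : Type) [Field Q] [NumberField Q] [Algebra Q L] : IsGalois Q L := by
  have h1 : IsGalois ℚ L := IsCyclotomicExtension.isGalois {p ^ (n + 1)} ℚ L
  exact IsGalois.tower_top_of_isGalois ℚ Q L

/-- The norm of 1 - ζ', ζ' another primitive root: p, up to sign. -/
theorem P2_norm (h2 : p ≠ 2) {ξ : L} (hξ : IsPrimitiveRoot ξ (p ^ (n + 1))) :
    Algebra.norm ℚ (ξ - 1) = p :=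
  hξ.norm_sub_one_of_prime_ne_two (cyclotomic.irreducible_rat (NeZero.pos _)) h2

/-- The conjugates of ζ over Q, different from ζ. -/
theorem P2_conj (hQ : Module.finrank ℚ Q = p ^ n) {ζ : L} (hζ : IsPrimitiveRoot ζ (p ^ (n + 1))) (σ : L ≃ₐ[Q] L)
    (hσ : σ ζ ≠ ζ) : ∃ ξ : L, IsPrimitiveRoot ξ (p ^ (n + 1)) ∧ σ ζ = ζ * ξ := by
  have hG : IsGalois Q L := P2_gal p n L Q
  have hpos : 0 < p ^ (n + 1) := pow_pos hp.out.pos _
  have := NeZero.mk hpos.ne'
  have hζ0 : ζ ≠ 0 := hζ.ne_zero hpos.ne'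
  have hσ1 : (σ ζ) ^ p ^ (n + 1) = 1 := by
    rw [← map_pow, hζ.pow_eq_one, map_one]
  obtain ⟨a, -, ha⟩ := hζ.eq_pow_of_pow_eq_one hσ1
  have hcardL : Module.finrank ℚ L = p ^ n * (p - 1) := by
    rw [IsCyclotomicExtension.finrank (n := p ^ (n + 1)) L (cyclotomic.irreducible_rat (NeZero.pos _)),
      Nat.totient_prime_pow hp.out n.succ_pos]
    rfl
  have hcard : Nat.card (L ≃ₐ[Q] L) = p - 1 := by
    rw [IsGalois.card_aut_eq_finrank]
    have h1 := Module.finrank_mul_finrank ℚ Q L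
    rw [hQ, hcardL] at h1
    exact mul_left_cancel₀ (pow_pos hp.out.pos _).ne' h1
  -- the iterates
  have hit : ∀ k : ℕ, (σ ^ k) ζ = ζ ^ a ^ k := by
    intro k
    induction k with
    | zero => simp
    | succ k ih =>
      rw [pow_succ' σ]
      show σ ((σ ^ k) ζ) = _
      rw [ih, map_pow, ← ha, ← pow_mul, pow_succ']
  have hone : σ ^ (p - 1) = 1 := by
    rw [← hcard]
    exact pow_card_eq_one'
  -- a is not 1 modulo p
  have hap : ¬ (p : ℤ) ∣ (a : ℤ) - 1 := by
    intro hd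
    have h3 : ∀ m : ℕ, (p : ℤ) ^ (m + 1) ∣ (a : ℤ) ^ p ^ m - 1 := by
      intro m
      have h4 := dvd_sub_pow_of_dvd_sub (R := ℤ) hd m
      rwa [one_pow] at h4
    have h4 := h3 n
    have h5 : a ^ p ^ n ≡ 1 [MOD p ^ (n + 1)] := by
      rw [← Int.natCast_modEq_iff]
      apply Int.ModEq.symm
      rw [Int.modEq_iff_dvd]
      push_cast
      exact h4
    have h6 : (σ ^ p ^ n) ζ = ζ := by
      rw [hit]
      have h7 : ζ ^ a ^ p ^ n = ζ ^ 1 := pow_eq_pow_of_modEq h5 hζ.pow_eq_one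
      rw [h7, pow_one]
    -- σ ζ = ζ since p^n and p - 1 are coprime
    have hcop : Nat.Coprime (p ^ n) (p - 1) := by
      apply Nat.Coprime.pow_left
      have h8 := (Nat.coprime_self_add_left (m := p - 1) (n := 1)).2 (Nat.coprime_one_left _)
      rwa [Nat.sub_add_cancel hp.out.one_le] at h8
    apply hσ
    have h8 : ∀ i : ℤ, (σ ^ (i * (p ^ n : ℕ))) ζ = ζ := by
      have h9 : σ ^ p ^ n ∈ MulAction.stabilizer (L ≃ₐ[Q] L) ζ := h6
      intro i
      have h10 := Subgroup.zpow_mem _ h9 i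
      have h11 : (σ ^ p ^ n) ^ i = σ ^ (i * (p ^ n : ℕ)) := by
        rw [← zpow_natCast, ← zpow_mul, mul_comm]
      rw [h11] at h10
      exact h10
    have h12 : (p ^ n : ℕ) * Nat.gcdA (p ^ n) (p - 1) + (p - 1 : ℕ) * Nat.gcdB (p ^ n) (p - 1) = (1 : ℤ) := by
      have h13 := Nat.gcd_eq_gcd_ab (p ^ n) (p - 1)
      rw [Nat.Coprime.gcd_eq_one hcop] at h13
      exact_mod_cast h13.symm
    have h14 : σ = σ ^ (Nat.gcdA (p ^ n) (p - 1) * (p ^ n : ℕ)) := by
      have h15 : σ ^ (1 : ℤ) = σ ^ (Nat.gcdA (p ^ n) (p - 1) * (p ^ n : ℕ)) := by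
        rw [← h12, zpow_add, zpow_mul σ ((p - 1 : ℕ) : ℤ), zpow_natCast σ (p - 1), hone, one_zpow, mul_one, mul_comm]
      rwa [zpow_one] at h15
    rw [h14]
    exact h8 _
  have ha1 : 1 ≤ a := by
    by_contra h0
    have h1 : a = 0 := by omega
    rw [h1, pow_zero] at ha
    have h3 : ζ = 1 := by
      apply σ.injective
      rw [← ha, map_one]
    apply hσ
    rw [h3, map_one]
  refine ⟨ζ ^ (a - 1), ?_, ?_⟩
  · apply hζ.pow_of_coprime
    apply Nat.Coprime.pow_right
    rw [Nat.coprime_comm, Nat.Prime.coprime_iff_not_dvd hp.out]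
    intro hd
    apply hap
    have h1 : ((a - 1 : ℕ) : ℤ) = (a : ℤ) - 1 := by
      rw [Nat.cast_sub ha1, Nat.cast_one]
    rw [← h1]
    exact_mod_cast hd
  · rw [← pow_succ', Nat.sub_add_cancel ha1, ha]

/-- The norm of f'(ζ), f the minimal polynomial of ζ over Q. -/
theorem P2_der (h2 : p ≠ 2) (hQ : Module.finrank ℚ Q = p ^ n) {ζ : L} (hζ : IsPrimitiveRoot ζ (p ^ (n + 1))) :
    ∃ z : ℤ, IsUnit z ∧ Algebra.norm ℚ (aeval ζ (derivative (minpoly Q ζ))) = z * p ^ (p - 2) := by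
  classical
  have hG : IsGalois Q L := P2_gal p n L Q
  have hpos : 0 < p ^ (n + 1) := pow_pos hp.out.pos _
  have := NeZero.mk hpos.ne'
  have hint : IsIntegral Q ζ := Algebra.IsIntegral.isIntegral ζ
  have hsp : ((minpoly Q ζ).map (algebraMap Q L)).Splits := hG.to_normal.splits ζ
  have hmon : ((minpoly Q ζ).map (algebraMap Q L)).Monic := (minpoly.monic hint).map _
  have hroot : ζ ∈ ((minpoly Q ζ).map (algebraMap Q L)).roots := by
    rw [mem_roots hmon.ne_zero, IsRoot.def, eval_map_algebraMap, minpoly.aeval]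
  have h1 : aeval ζ (derivative (minpoly Q ζ)) =
      ((((minpoly Q ζ).map (algebraMap Q L)).roots.erase ζ).map (ζ - ·)).prod := by
    rw [← hsp.eval_root_derivative hmon hroot, derivative_map, eval_map_algebraMap]
  have hsep : ((minpoly Q ζ).map (algebraMap Q L)).Separable := Polynomial.Separable.map (Algebra.IsSeparable.isSeparable Q ζ)
  have hnd : ((minpoly Q ζ).map (algebraMap Q L)).roots.Nodup := nodup_roots hsep
  have htop : IntermediateField.adjoin Q {ζ} = ⊤ := by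
    have h3 := IsCyclotomicExtension.adjoin_primitive_root_eq_top (A := ℚ) (B := L) hζ
    rw [eq_top_iff]
    intro x _
    have h4 : x ∈ Algebra.adjoin ℚ {ζ} := h3 ▸ Algebra.mem_top
    have h5 : Algebra.adjoin ℚ {ζ} ≤ (IntermediateField.adjoin Q {ζ}).toSubalgebra.restrictScalars ℚ := by
      rw [Algebra.adjoin_le_iff]
      rintro _ rfl
      exact IntermediateField.mem_adjoin_simple_self Q _
    exact h5 h4
  have hdeg : (minpoly Q ζ).natDegree = p - 1 := by
    have h3 := IntermediateField.adjoin.finrank hint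
    rw [htop, IntermediateField.finrank_top'] at h3
    rw [← h3]
    have h4 := Module.finrank_mul_finrank ℚ Q L
    have hcardL : Module.finrank ℚ L = p ^ n * (p - 1) := by
      rw [IsCyclotomicExtension.finrank (n := p ^ (n + 1)) L (cyclotomic.irreducible_rat (NeZero.pos _)),
        Nat.totient_prime_pow hp.out n.succ_pos]
      rfl
    rw [hQ, hcardL] at h4
    exact mul_left_cancel₀ (pow_pos hp.out.pos _).ne' h4
  have hcard : Multiset.card ((((minpoly Q ζ).map (algebraMap Q L)).roots.erase ζ)) = p - 2 := by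
    rw [Multiset.card_erase_of_mem hroot, ← hsp.natDegree_eq_card_roots, natDegree_map, hdeg]
    rfl
  have hterm : ∀ r ∈ ((minpoly Q ζ).map (algebraMap Q L)).roots.erase ζ,
      ∃ z : ℤ, IsUnit z ∧ Algebra.norm ℚ (ζ - r) = z * p := by
    intro r hr
    rw [hnd.mem_erase_iff] at hr
    obtain ⟨hne, hr⟩ := hr
    rw [mem_roots hmon.ne_zero, IsRoot.def, eval_map_algebraMap] at hr
    have hcj : IsConjRoot Q ζ r := minpoly.eq_of_irreducible_of_monic (minpoly.irreducible hint) hr (minpoly.monic hint)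
    obtain ⟨σ, hσ⟩ := hcj.exists_algEquiv
    have hr' : σ⁻¹ ζ = r := by
      rw [← hσ]
      exact σ.symm_apply_apply r
    obtain ⟨ξ, hξ, hξ2⟩ := P2_conj (Q := Q) hQ hζ σ⁻¹ (by rw [hr']; exact hne)
    have h3 : ζ - r = (-1) * ζ * (ξ - 1) := by
      rw [← hr', hξ2]
      ring
    have h4 : Algebra.norm ℚ ζ = 1 := hζ.norm_eq_one (by
      intro h
      have h5 := (Nat.prime_dvd_prime_iff_eq hp.out Nat.prime_two).1 (h ▸ dvd_pow_self p n.succ_ne_zero)
      exact h2 h5) (cyclotomic.irreducible_rat (NeZero.pos _))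
    have h5 : Algebra.norm ℚ (-1 : L) = ((-1 : ℤ) ^ Module.finrank ℚ L : ℤ) := by
      have h6 := Algebra.norm_algebraMap (S := L) (-1 : ℚ)
      rw [map_neg, map_one] at h6
      rw [h6]
      push_cast
      rfl
    refine ⟨(-1) ^ Module.finrank ℚ L, isUnit_neg_one.pow _, ?_⟩
    rw [h3, map_mul, map_mul, h4, h5, mul_one, P2_norm h2 hξ]
  rw [h1, map_multiset_prod, Multiset.map_map, ← hcard]
  generalize ((minpoly Q ζ).map (algebraMap Q L)).roots.erase ζ = M at hterm
  induction M using Multiset.induction_on with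
  | empty => exact ⟨1, isUnit_one, by simp⟩
  | cons a M ih =>
    obtain ⟨z, hz, hz2⟩ := ih (fun r hr => hterm r (Multiset.mem_cons_of_mem hr))
    obtain ⟨y, hy, hy2⟩ := hterm a (Multiset.mem_cons_self a M)
    refine ⟨y * z, hy.mul hz, ?_⟩
    rw [Multiset.map_cons, Multiset.prod_cons, Multiset.card_cons, pow_succ, hz2]
    show Algebra.norm ℚ (ζ - a) * _ = _
    rw [hy2]
    push_cast
    ring

theorem P2_int {a j q E T : ℕ} (hq : 2 ≤ q) (h1 : a * (q - 1) + j = T) (hj : j ≤ q - 2)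
    (h2 : E * (q - 1) + (q - 2) = T) : a = E := by
  have h3 : a * (q - 1) + j = E * (q - 1) + (q - 2) := h1.trans h2.symm
  rcases lt_trichotomy a E with h | h | h
  · exfalso
    have h4 : (a + 1) * (q - 1) ≤ E * (q - 1) := Nat.mul_le_mul_right _ h
    rw [add_mul, one_mul] at h4
    omega
  · exact h
  · exfalso
    have h4 : (E + 1) * (q - 1) ≤ a * (q - 1) := Nat.mul_le_mul_right _ h
    rw [add_mul, one_mul] at h4
    omega

end

/-- The discriminant of the n-th layer. -/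
theorem discQ {p : ℕ} [hp : Fact p.Prime] {n : ℕ} (L : Type) [Field L] [NumberField L] [IsCyclotomicExtension {p ^ (n + 1)} ℚ L]
    {Q : Type} [Field Q] [NumberField Q] [Algebra Q L] (h2 : p ≠ 2) (hQ : Module.finrank ℚ Q = p ^ n) : (NumberField.discr Q).natAbs = p ^ En p n := by
  classical
  have hG : IsGalois Q L := P2_gal p n L Q
  have hζ := IsCyclotomicExtension.zeta_spec (p ^ (n + 1)) ℚ L
  set ζ := IsCyclotomicExtension.zeta (p ^ (n + 1)) ℚ L with hζdef
  have hpos : 0 < p ^ (n + 1) := pow_pos hp.out.pos _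
  have hne := NeZero.mk hpos.ne'
  let θ : 𝓞 L := hζ.toInteger
  have hθ : algebraMap (𝓞 L) L θ = ζ := rfl
  have hadj : Algebra.adjoin Q {algebraMap (𝓞 L) L θ} = ⊤ := by
    have h3 := IsCyclotomicExtension.adjoin_primitive_root_eq_top (A := ℚ) (B := L) hζ
    rw [eq_top_iff]
    intro x _
    have h4 : x ∈ Algebra.adjoin ℚ {ζ} := h3 ▸ Algebra.mem_top
    have h5 : Algebra.adjoin ℚ {ζ} ≤ (Algebra.adjoin Q {algebraMap (𝓞 L) L θ}).restrictScalars ℚ := by
      rw [Algebra.adjoin_le_iff]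
      rintro _ rfl
      exact Algebra.subset_adjoin rfl
    exact h5 h4
  have hmem := aeval_derivative_mem_differentIdeal (𝓞 Q) Q L θ hadj
  have h6 : Ideal.absNorm (differentIdeal (𝓞 Q) (𝓞 L)) ∣ p ^ (p - 2) := by
    have h7 := Ideal.absNorm_dvd_absNorm_of_le ((Ideal.span_singleton_le_iff_mem _).2 hmem)
    refine h7.trans ?_
    rw [Ideal.absNorm_span_singleton]
    obtain ⟨z, hz, hz2⟩ := P2_der (Q := Q) h2 hQ hζ
    have h8 : Algebra.norm ℤ (aeval θ (derivative (minpoly (𝓞 Q) θ))) = z * p ^ (p - 2) := by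
      apply (algebraMap ℤ ℚ).injective_int
      have h9 : aeval ζ (derivative (minpoly Q ζ)) =
          algebraMap (𝓞 L) L (aeval θ (derivative (minpoly (𝓞 Q) θ))) := by
        have h10 : minpoly Q ζ = (minpoly (𝓞 Q) θ).map (algebraMap (𝓞 Q) Q) :=
          minpoly.isIntegrallyClosed_eq_field_fractions Q L (Algebra.IsIntegral.isIntegral θ)
        rw [h10, derivative_map, aeval_map_algebraMap, ← hθ, aeval_algebraMap_apply]
      rw [h9] at hz2
      rw [show (algebraMap ℤ ℚ) (Algebra.norm ℤ (aeval θ (derivative (minpoly (𝓞 Q) θ)))) =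
        Algebra.norm ℚ (algebraMap (𝓞 L) L (aeval θ (derivative (minpoly (𝓞 Q) θ)))) from
          Algebra.coe_norm_int _, hz2]
      push_cast
      rfl
    rw [h8, Int.natAbs_mul, Int.natAbs_of_isUnit hz, one_mul, Int.natAbs_pow, Int.natAbs_natCast]
  obtain ⟨j, hj, hj2⟩ := (Nat.dvd_prime_pow hp.out).1 h6
  have h9 := natAbs_discr_eq_absNorm_differentIdeal_mul_natAbs_discr_pow Q (𝓞 Q) L (𝓞 L)
  rw [hj2] at h9
  have h10 : (NumberField.discr L).natAbs = p ^ (p ^ n * ((p - 1) * (n + 1) - 1)) := by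
    have h11 := IsCyclotomicExtension.Rat.discr_prime_pow_succ p n L
    rw [h11, Int.natAbs_mul, Int.natAbs_pow, Int.natAbs_neg, Int.natAbs_one, one_pow, one_mul, Int.natAbs_pow,
      Int.natAbs_natCast]
  have hcardL : Module.finrank ℚ L = p ^ n * (p - 1) := by
    rw [IsCyclotomicExtension.finrank (n := p ^ (n + 1)) L (cyclotomic.irreducible_rat (NeZero.pos _)),
      Nat.totient_prime_pow hp.out n.succ_pos]
    rfl
  have hrk : Module.finrank Q L = p - 1 := by
    have h4 := Module.finrank_mul_finrank ℚ Q L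
    rw [hQ, hcardL] at h4
    exact mul_left_cancel₀ (pow_pos hp.out.pos _).ne' h4
  rw [h10, hrk] at h9
  have h11 : (NumberField.discr Q).natAbs ^ (p - 1) ∣ p ^ (p ^ n * ((p - 1) * (n + 1) - 1)) := Dvd.intro_left _ h9.symm
  have hp1 : p - 1 ≠ 0 := by
    have := hp.out.two_le
    omega
  have h12 : (NumberField.discr Q).natAbs ∣ p ^ (p ^ n * ((p - 1) * (n + 1) - 1)) := (dvd_pow_self _ hp1).trans h11
  obtain ⟨a, -, ha⟩ := (Nat.dvd_prime_pow hp.out).1 h12
  rw [ha, ← pow_mul, ← pow_add] at h9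
  have h13 := Nat.pow_right_injective hp.out.two_le h9
  rw [ha]
  congr 1
  exact P2_int hp.out.two_le (by rw [add_comm]; exact h13.symm) hj (En_eq hp.out.two_le n)

end H55Z
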