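import Mathlib
import Pool.Agent.Lib.H55Z.P1
import Pool.Agent.Lib.H55Z.P2

/-! # H55Z, part P: the layers of the cyclotomic tower over a number field -/

open NumberField IsDedekindDomain

namespace H55Z

/-- N is the field generated over K by the n-th layer of the cyclotomic extension of the rationals: the subfield of degree p^n of the
field of p^(n+1)-th roots of unity. -/
def Layer (p n : ℕ) (K N : Type) [Field K] [Field N] [CharZero N] [Algebra K N] : Prop :=
  ∃ Q : IntermediateField ℚ N, Module.finrank ℚ Q = p ^ n ∧ Nonempty (Q →ₐ[ℚ] CyclotomicField (p ^ (n + 1)) ℚ) ∧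
    Algebra.adjoin K (Q : Set N) = ⊤

theorem p3_ne {p : ℕ} [hp : Fact p.Prime] (n : ℕ) : NeZero (p ^ (n + 1)) := ⟨(pow_pos hp.out.pos _).ne'⟩

theorem p3_cyc {p : ℕ} [hp : Fact p.Prime] (n : ℕ) :
    IsCyclotomicExtension {p ^ (n + 1)} ℚ (CyclotomicField (p ^ (n + 1)) ℚ) := by
  have : NeZero ((p ^ (n + 1) : ℕ) : ℚ) := ⟨Nat.cast_ne_zero.2 (pow_pos hp.out.pos _).ne'⟩
  exact CyclotomicField.isCyclotomicExtension _ _

theorem p3_gal {p : ℕ} [hp : Fact p.Prime] {n : ℕ} {Q : Type} [Field Q] [NumberField Q]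
    (f : Q →ₐ[ℚ] CyclotomicField (p ^ (n + 1)) ℚ) : IsAbelianGalois ℚ Q := by
  have := p3_ne (p := p) n
  have := p3_cyc (p := p) n
  have h3 : IsAbelianGalois ℚ (CyclotomicField (p ^ (n + 1)) ℚ) := IsCyclotomicExtension.isAbelianGalois {p ^ (n + 1)} ℚ _
  exact IsAbelianGalois.of_algHom f

theorem p3_disc {p : ℕ} [hp : Fact p.Prime] (h2 : p ≠ 2) {n : ℕ} {Q : Type} [Field Q] [NumberField Q]
    (f : Q →ₐ[ℚ] CyclotomicField (p ^ (n + 1)) ℚ) (hQ : Module.finrank ℚ Q = p ^ n) :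
    (NumberField.discr Q).natAbs = p ^ En p n := by
  have := p3_ne (p := p) n
  have := p3_cyc (p := p) n
  let _ : Algebra Q (CyclotomicField (p ^ (n + 1)) ℚ) := f.toRingHom.toAlgebra
  exact discQ (CyclotomicField (p ^ (n + 1)) ℚ) h2 hQ

variable {p : ℕ} [hp : Fact p.Prime] {n : ℕ} {K N : Type} [Field K] [NumberField K] [Field N] [NumberField N] [Algebra K N]

/-- The degree and the discriminant of a layer. -/
theorem layer_disc (h2 : p ≠ 2) (hU : ¬ (p : ℤ) ∣ NumberField.discr K) (h : Layer p n K N) :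
    Module.finrank K N = p ^ n ∧
      (NumberField.discr N).natAbs = (NumberField.discr K).natAbs ^ p ^ n * (p ^ En p n) ^ Module.finrank ℚ K := by
  classical
  obtain ⟨Q, hQ, ⟨f⟩, htop⟩ := h
  let φ : K →ₐ[ℚ] N := (algebraMap K N).toRatAlgHom
  let K₁ : IntermediateField ℚ N := φ.fieldRange
  let e : K ≃ₐ[ℚ] K₁ := AlgEquiv.ofInjectiveField φ
  have hd : NumberField.discr K₁ = NumberField.discr K := (NumberField.discr_eq_discr_of_algEquiv K e).symm
  have hfr : Module.finrank ℚ K₁ = Module.finrank ℚ K := e.toLinearEquiv.finrank_eq.symm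
  have hdQ := p3_disc h2 f hQ
  have hcop : IsCoprime (NumberField.discr Q) (NumberField.discr K₁) := by
    rw [hd, Int.isCoprime_iff_gcd_eq_one, Int.gcd_eq_natAbs, hdQ]
    apply Nat.Coprime.pow_left
    rw [Nat.Prime.coprime_iff_not_dvd hp.out]
    intro hdv
    exact hU (Int.natCast_dvd.2 hdv)
  have hab := p3_gal f
  have hgal : IsGalois ℚ Q := hab.toIsGalois
  have hlin : Q.LinearDisjoint K₁ := NumberField.linearDisjoint_of_isGalois_isCoprime_discr N Q K₁ hcop
  have hsup : Q ⊔ K₁ = ⊤ := by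
    rw [eq_top_iff]
    intro x _
    have h4 : x ∈ Algebra.adjoin K (Q : Set N) := htop ▸ Algebra.mem_top
    refine Algebra.adjoin_induction (p := fun x _ => x ∈ Q ⊔ K₁) ?_ ?_ ?_ ?_ h4
    · intro y hy
      exact (le_sup_left : Q ≤ Q ⊔ K₁) hy
    · intro r
      exact (le_sup_right : K₁ ≤ Q ⊔ K₁) ⟨r, rfl⟩
    · intro a b _ _ ha hb
      exact add_mem ha hb
    · intro a b _ _ ha hb
      exact mul_mem ha hb
  have hcd := NumberField.isCoprime_differentIdeal_of_isCoprime_discr N (K₁ := Q) (K₂ := K₁) hcop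
  have hmain := NumberField.natAbs_discr_eq_natAbs_discr_pow_mul_natAbs_discr_pow N Q K₁ hlin hsup hcd
  rw [hdQ, hd, hfr, hQ] at hmain
  refine ⟨?_, by rw [hmain, mul_comm]⟩
  have h5 : Module.finrank ℚ N = Module.finrank ℚ Q * Module.finrank ℚ K₁ := by
    have h6 := hlin.finrank_sup
    rw [hsup, IntermediateField.finrank_top'] at h6
    exact h6
  have h7 := Module.finrank_mul_finrank ℚ K N
  rw [h5, hQ, hfr, mul_comm (p ^ n)] at h7
  exact mul_left_cancel₀ (Module.finrank_pos (R := ℚ) (M := K)).ne' h7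

/-- The value of the discriminant of a layer. -/
theorem layer_sD (h2 : p ≠ 2) (hU : ¬ (p : ℤ) ∣ NumberField.discr K) (h : Layer p n K N) (V : ValuationSubring ℂ)
    (hV : V.valuation (p : ℂ) < 1) : sD V N ^ 2 = V.valuation (p : ℂ) ^ (En p n * Module.finrank ℚ K) := by
  rw [sD_sq, (layer_disc h2 hU h).2]
  push_cast
  rw [map_mul, map_pow, map_pow, map_pow, ← pow_mul]
  have h3 : V.valuation (((NumberField.discr K).natAbs : ℕ) : ℂ) = 1 :=
    H55P.val_nat p hp.out V hV _ fun hd => hU (Int.natCast_dvd.2 hd)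
  rw [h3, one_pow, one_mul]

end H55Z
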