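import Mathlib
import Pool.Agent.Lib.H55Z.P3

/-! # H55Z, part Q: the layer inside the field of roots of unity -/

open NumberField IsDedekindDomain

namespace H55Z

variable {p : ℕ} [hp : Fact p.Prime] {n : ℕ} {K N L : Type} [Field K] [NumberField K] [Field N] [NumberField N] [Algebra K N]
  [Field L] [NumberField L] [Algebra N L] [Algebra K L] [IsScalarTower K N L]

/-- The subfield Q of N lies in the field of roots of unity. -/
theorem q1_mem {Q : IntermediateField ℚ N} (f : Q →ₐ[ℚ] CyclotomicField (p ^ (n + 1)) ℚ) {ζ : L}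
    (hζ : IsPrimitiveRoot ζ (p ^ (n + 1))) (x : Q) : algebraMap N L (x : N) ∈ Algebra.adjoin ℚ {ζ} := by
  have := p3_ne (p := p) n
  have := p3_cyc (p := p) n
  have hab := p3_gal f
  let C := CyclotomicField (p ^ (n + 1)) ℚ
  have hζC : IsPrimitiveRoot (IsCyclotomicExtension.zeta (p ^ (n + 1)) ℚ C) (p ^ (n + 1)) :=
    IsCyclotomicExtension.zeta_spec _ _ _
  have hroot : Polynomial.aeval ζ (minpoly ℚ (IsCyclotomicExtension.zeta (p ^ (n + 1)) ℚ C)) = 0 := by
    rw [← Polynomial.cyclotomic_eq_minpoly_rat hζC (NeZero.pos _)]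
    rw [Polynomial.aeval_def, ← Polynomial.eval_map, Polynomial.map_cyclotomic]
    exact hζ.isRoot_cyclotomic (NeZero.pos _)
  let g : C →ₐ[ℚ] L := (hζC.powerBasis ℚ).lift ζ hroot
  have hg : g.range = Algebra.adjoin ℚ {ζ} := by
    have h1 : (⊤ : Subalgebra ℚ C) = Algebra.adjoin ℚ {IsCyclotomicExtension.zeta (p ^ (n + 1)) ℚ C} :=
      (IsCyclotomicExtension.adjoin_primitive_root_eq_top hζC).symm
    rw [← Algebra.map_top, h1, AlgHom.map_adjoin, Set.image_singleton]
    congr 2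
    exact (hζC.powerBasis ℚ).lift_gen ζ hroot
  let i : Q →ₐ[ℚ] L := ((algebraMap N L).toRatAlgHom).comp Q.val
  let E : IntermediateField ℚ L := i.fieldRange
  let e : Q ≃ₐ[ℚ] E := AlgEquiv.ofInjectiveField i
  have hN : Normal ℚ E := Normal.of_algEquiv (h := (IsGalois.to_normal : Normal ℚ Q)) e
  have h2 : ((g.comp f).comp (e.symm : E →ₐ[ℚ] Q)).fieldRange = E :=
    @AlgHom.fieldRange_of_normal ℚ L _ _ _ E hN ((g.comp f).comp (e.symm : E →ₐ[ℚ] Q))
  have h3 : algebraMap N L (x : N) ∈ E := ⟨x, rfl⟩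
  rw [← h2] at h3
  obtain ⟨y, hy⟩ := h3
  rw [← hg]
  exact ⟨f (e.symm y), hy⟩

/-- If L is generated by a primitive root of unity over the layer N then also over K. -/
theorem q1_top (h : Layer p n K N) {ζ : L} (hζ : IsPrimitiveRoot ζ (p ^ (n + 1)))
    (hL : Algebra.adjoin N {ζ} = ⊤) : Algebra.adjoin K {ζ} = ⊤ := by
  obtain ⟨Q, -, ⟨f⟩, htop⟩ := h
  have h1 : ∀ x : N, algebraMap N L x ∈ Algebra.adjoin K {ζ} := by
    intro x
    have h4 : x ∈ Algebra.adjoin K (Q : Set N) := htop ▸ Algebra.mem_top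
    refine Algebra.adjoin_induction (p := fun x _ => algebraMap N L x ∈ Algebra.adjoin K {ζ}) ?_ ?_ ?_ ?_ h4
    · intro y hy
      have h5 := q1_mem f hζ ⟨y, hy⟩
      have h6 : Algebra.adjoin ℚ {ζ} ≤ (Algebra.adjoin K {ζ}).restrictScalars ℚ := by
        rw [Algebra.adjoin_le_iff]
        rintro _ rfl
        exact Algebra.subset_adjoin rfl
      exact h6 h5
    · intro r
      show algebraMap N L (algebraMap K N r) ∈ _
      rw [← IsScalarTower.algebraMap_apply K N L]
      exact Subalgebra.algebraMap_mem _ _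
    · intro a b _ _ ha hb
      rw [map_add]
      exact add_mem ha hb
    · intro a b _ _ ha hb
      rw [map_mul]
      exact mul_mem ha hb
  rw [eq_top_iff]
  intro y _
  have h4 : y ∈ Algebra.adjoin N {ζ} := hL ▸ Algebra.mem_top
  refine Algebra.adjoin_induction (p := fun x _ => x ∈ Algebra.adjoin K {ζ}) ?_ ?_ ?_ ?_ h4
  · intro y hy
    exact Algebra.subset_adjoin hy
  · intro r
    exact h1 r
  · intro a b _ _ ha hb
    exact add_mem ha hb
  · intro a b _ _ ha hb
    exact mul_mem ha hb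

theorem q1_cyc (h : Layer p n K N) [hc : IsCyclotomicExtension {p ^ (n + 1)} N L] :
    IsCyclotomicExtension {p ^ (n + 1)} K L := by
  have := p3_ne (p := p) n
  have hζ := IsCyclotomicExtension.zeta_spec (p ^ (n + 1)) N L
  have h1 := IsCyclotomicExtension.adjoin_primitive_root_eq_top (A := N) (B := L) hζ
  have h2 := q1_top h hζ h1
  rw [IsCyclotomicExtension.iff_singleton]
  refine ⟨⟨_, hζ⟩, fun x => ?_⟩
  have h3 : x ∈ Algebra.adjoin K {IsCyclotomicExtension.zeta (p ^ (n + 1)) N L} := h2 ▸ Algebra.mem_top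
  refine Algebra.adjoin_mono ?_ h3
  rintro _ rfl
  exact hζ.pow_eq_one

end H55Z
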