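import Mathlib
import Pool.Agent.Lib.H55R.X7
import Pool.Agent.Lib.H55Z.Q1

/-! # H55Z, part Q: Frobenius elements of a layer -/

open NumberField IsDedekindDomain
open scoped Pointwise

namespace H55Z

open H55R

variable {p : ℕ} [hp : Fact p.Prime] {n : ℕ} {K N : Type} [Field K] [NumberField K] [Field N] [NumberField N] [Algebra K N]

theorem q2_ab (h : Layer p n K N) : IsAbelianGalois K N := by
  have := p3_ne (p := p) n
  have h1 : IsCyclotomicExtension {p ^ (n + 1)} K (CyclotomicField (p ^ (n + 1)) N) := q1_cyc h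
  have h2 : IsAbelianGalois K (CyclotomicField (p ^ (n + 1)) N) :=
    IsCyclotomicExtension.isAbelianGalois {p ^ (n + 1)} K _
  exact IsAbelianGalois.tower_bot K N (CyclotomicField (p ^ (n + 1)) N)

theorem q2_comm (h : Layer p n K N) (g g' : Gal(N/K)) : g * g' = g' * g := by
  have := q2_ab h
  exact IsMulCommutative.is_comm.comm g g'

section

variable {L : Type} [Field L] [NumberField L] [Algebra N L] [Algebra K L] [IsScalarTower K N L]

theorem q2_pow {ζ : L} (σ : Gal(L/K)) {q : ℕ} (hσ : σ ζ = ζ ^ q) (k : ℕ) : (σ ^ k) ζ = ζ ^ q ^ k := by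
  induction k with
  | zero => simp
  | succ k ih =>
    rw [pow_succ' σ]
    show σ ((σ ^ k) ζ) = _
    rw [ih, map_pow, hσ, ← pow_mul, pow_succ']

theorem q2_one {m : ℕ} [NeZero m] {ζ : L} (hζ : IsPrimitiveRoot ζ m) (hL : Algebra.adjoin K {ζ} = ⊤) (σ : Gal(L/K)) {q : ℕ}
    (hσ : σ ζ = ζ ^ q) (k : ℕ) : σ ^ k = 1 ↔ ((q : ℕ) : ZMod m) ^ k = 1 := by
  have h1 : σ ^ k = 1 ↔ (σ ^ k) ζ = ζ := by
    constructor
    · intro h
      rw [h]
      rfl
    · intro h
      have h2 : ((σ ^ k : Gal(L/K)) : L →ₐ[K] L) = ((1 : Gal(L/K)) : L →ₐ[K] L) := by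
        apply AlgHom.ext_of_adjoin_eq_top hL
        rintro _ rfl
        exact h
      apply AlgEquiv.ext
      intro x
      exact DFunLike.congr_fun h2 x
  rw [h1, q2_pow σ hσ, ← Nat.cast_pow]
  have h3 : ((q ^ k : ℕ) : ZMod m) = 1 ↔ q ^ k ≡ 1 [MOD m] := by
    rw [← ZMod.natCast_eq_natCast_iff, Nat.cast_one]
  rw [h3]
  constructor
  · intro h
    have h4 : ζ ^ q ^ k = ζ ^ 1 := by rw [h, pow_one]
    have h5 : IsOfFinOrder ζ := isOfFinOrder_iff_pow_eq_one.2 ⟨m, Nat.pos_of_neZero m, hζ.pow_eq_one⟩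
    rw [h5.pow_eq_pow_iff_modEq, ← hζ.eq_orderOf] at h4
    exact h4
  · intro h
    have h4 : ζ ^ q ^ k = ζ ^ 1 := pow_eq_pow_of_modEq h hζ.pow_eq_one
    rw [h4, pow_one]

theorem q2_deg (hn : Module.finrank K N = p ^ n) [hc : IsCyclotomicExtension {p ^ (n + 1)} K L] :
    Nat.card (Gal(L/N)) ∣ p - 1 := by
  have := p3_ne (p := p) n
  have hG : IsGalois K L := IsCyclotomicExtension.isGalois {p ^ (n + 1)} K L
  have hG' : IsGalois N L := IsGalois.tower_top_of_isGalois K N L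
  have hζ := IsCyclotomicExtension.zeta_spec (p ^ (n + 1)) K L
  have h1 : Nat.card (Gal(L/K)) ∣ Nat.card (ZMod (p ^ (n + 1)))ˣ :=
    Subgroup.card_dvd_of_injective (hζ.autToPow K) (IsPrimitiveRoot.autToPow_injective K hζ)
  have h2 : Nat.card (ZMod (p ^ (n + 1)))ˣ = p ^ n * (p - 1) := by
    rw [Nat.card_eq_fintype_card, ZMod.card_units_eq_totient, Nat.totient_prime_pow hp.out n.succ_pos]
    rfl
  rw [h2, IsGalois.card_aut_eq_finrank, ← Module.finrank_mul_finrank K N L, hn] at h1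
  rw [IsGalois.card_aut_eq_finrank]
  exact Nat.dvd_of_mul_dvd_mul_left (pow_pos hp.out.pos n) h1

theorem q2_order (hn : Module.finrank K N = p ^ n) [hc : IsCyclotomicExtension {p ^ (n + 1)} K L] (hG : IsGalois K N)
    {ζ : L} (hζ : IsPrimitiveRoot ζ (p ^ (n + 1))) (σ : Gal(L/K)) {q : ℕ}
    (hσ : σ ζ = ζ ^ q) (k : ℕ) :
    (AlgEquiv.restrictNormalHom N σ) ^ k = 1 ↔ ((q : ℕ) : ZMod (p ^ (n + 1))) ^ (k * (p - 1)) = 1 := by
  have := p3_ne (p := p) n
  have hL := IsCyclotomicExtension.adjoin_primitive_root_eq_top (A := K) (B := L) hζ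
  have hGL : IsGalois K L := IsCyclotomicExtension.isGalois {p ^ (n + 1)} K L
  have hG' : IsGalois N L := IsGalois.tower_top_of_isGalois K N L
  rw [← q2_one hζ hL σ hσ]
  constructor
  · intro h
    have h1 : ∀ x : N, (σ ^ k) (algebraMap N L x) = algebraMap N L x := by
      intro x
      rw [← map_pow] at h
      have h2 := AlgEquiv.restrictNormal_commutes (σ ^ k) N x
      rw [← h2]
      have h3 : (σ ^ k).restrictNormal N = 1 := h
      rw [h3]
      rfl
    let τ : Gal(L/N) := AlgEquiv.ofRingEquiv (f := ((σ ^ k : Gal(L/K)) : L ≃+* L)) h1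
    have h4 : τ ^ (p - 1) = 1 := by
      obtain ⟨d, hd⟩ := q2_deg (K := K) (N := N) (L := L) hn
      rw [hd, pow_mul, pow_card_eq_one', one_pow]
    apply AlgEquiv.ext
    intro x
    have h5 : ∀ j : ℕ, (τ ^ j) x = ((σ ^ k) ^ j) x := by
      intro j
      induction j with
      | zero => rfl
      | succ j ih =>
        rw [pow_succ', pow_succ']
        show τ ((τ ^ j) x) = (σ ^ k) (((σ ^ k) ^ j) x)
        rw [ih]
        rfl
    rw [pow_mul, ← h5, h4]
    rfl
  · intro h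
    have h1 : ((AlgEquiv.restrictNormalHom N σ) ^ k) ^ (p - 1) = 1 := by
      rw [← pow_mul, ← map_pow, h, map_one]
    have h2 : ((AlgEquiv.restrictNormalHom N σ) ^ k) ^ p ^ n = 1 := by
      have h3 : Nat.card (Gal(N/K)) = p ^ n := by
        rw [IsGalois.card_aut_eq_finrank, hn]
      rw [← h3]
      exact pow_card_eq_one'
    have hcop : Nat.Coprime (p ^ n) (p - 1) := by
      apply Nat.Coprime.pow_left
      have h8 := (Nat.coprime_self_add_left (m := p - 1) (n := 1)).2 (Nat.coprime_one_left _)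
      rwa [Nat.sub_add_cancel hp.out.one_le] at h8
    have h4 := Nat.dvd_gcd (orderOf_dvd_of_pow_eq_one h2) (orderOf_dvd_of_pow_eq_one h1)
    rw [Nat.Coprime.gcd_eq_one hcop] at h4
    exact orderOf_eq_one_iff.1 (Nat.dvd_one.1 h4)

end

/-- The Frobenius element of a layer. -/
theorem q2_frob (h : Layer p n K N) (hn : Module.finrank K N = p ^ n) (w : Pl K) (hw : (p : 𝓞 K) ∉ w.asIdeal)
    (W : Pl N) (hW : W.under (𝓞 K) = w) :
    ∃ (_ : SMulCommClass Gal(N/K) (𝓞 K) (𝓞 N)) (g : Gal(N/K)), IsArithFrobAt (𝓞 K) g W.asIdeal ∧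
      ∀ k : ℕ, g ^ k = 1 ↔ ((Ideal.absNorm w.asIdeal : ℕ) : ZMod (p ^ (n + 1))) ^ (k * (p - 1)) = 1 := by
  have := p3_ne (p := p) n
  have hc : IsCyclotomicExtension {p ^ (n + 1)} K (CyclotomicField (p ^ (n + 1)) N) := q1_cyc h
  obtain ⟨L, i1, i2, i3, i4, i5, hcK⟩ : ∃ (L : Type) (_ : Field L) (_ : NumberField L) (_ : Algebra N L) (_ : Algebra K L)
      (_ : IsScalarTower K N L), IsCyclotomicExtension {p ^ (n + 1)} K L :=
    ⟨CyclotomicField (p ^ (n + 1)) N, inferInstance, inferInstance, inferInstance, inferInstance, inferInstance, hc⟩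
  have hab := q2_ab h
  have hG : IsGalois K N := hab.toIsGalois
  have hGL : IsGalois K L := IsCyclotomicExtension.isGalois {p ^ (n + 1)} K L
  have hζ := IsCyclotomicExtension.zeta_spec (p ^ (n + 1)) K L
  have hcL := BF1_comm (K := K) (L := L)
  have hcN := BF1_comm (K := K) (L := N)
  obtain ⟨WL, hWL⟩ := under_exists (L := L) W
  have hWLp := WL.isPrime
  have hfin : Finite (𝓞 L ⧸ WL.asIdeal) := Ideal.finiteQuotientOfFreeOfNeBot _ WL.ne_bot
  obtain ⟨σ, hσ⟩ := IsArithFrobAt.exists_of_isInvariant (𝓞 K) Gal(L/K) WL.asIdeal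
  have hu : WL.asIdeal.under (𝓞 N) = W.asIdeal := congrArg HeightOneSpectrum.asIdeal hWL
  have hu2 : WL.asIdeal.under (𝓞 K) = w.asIdeal := by
    rw [← Ideal.under_under (B := 𝓞 N), hu]
    exact congrArg HeightOneSpectrum.asIdeal hW
  refine ⟨hcN, AlgEquiv.restrictNormalHom N σ, ?_, fun k => ?_⟩
  · intro x
    rw [← hu]
    show algebraMap (𝓞 N) (𝓞 L) _ ∈ WL.asIdeal
    have h1 := hσ (algebraMap (𝓞 N) (𝓞 L) x)
    have h2 : (MulSemiringAction.toAlgHom (𝓞 K) (𝓞 L) σ) (algebraMap (𝓞 N) (𝓞 L) x) =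
        algebraMap (𝓞 N) (𝓞 L) ((MulSemiringAction.toAlgHom (𝓞 K) (𝓞 N) (AlgEquiv.restrictNormalHom N σ)) x) := by
      apply RingOfIntegers.ext
      exact (AlgEquiv.restrictNormal_commutes σ N (x : N)).symm
    rw [map_sub, map_pow, ← h2]
    rw [hu, show (W.asIdeal.under (𝓞 K)) = WL.asIdeal.under (𝓞 K) by
      rw [hu2]
      exact congrArg HeightOneSpectrum.asIdeal hW]
    exact h1
  · refine q2_order hn hG hζ σ ?_ k
    have hpW : ((p ^ (n + 1) : ℕ) : 𝓞 L) ∉ WL.asIdeal := by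
      intro hh
      apply hw
      rw [← hu2, Ideal.under, Ideal.mem_comap, map_natCast]
      rw [Nat.cast_pow] at hh
      exact hWLp.mem_of_pow_mem _ hh
    have hz1 : hζ.toInteger ^ p ^ (n + 1) = 1 := by
      apply RingOfIntegers.coe_injective
      rw [map_pow, map_one]
      exact hζ.pow_eq_one
    have h1 := AlgHom.IsArithFrobAt.apply_of_pow_eq_one hσ hz1 hpW
    have h2 : σ • hζ.toInteger = hζ.toInteger ^ Ideal.absNorm w.asIdeal := by
      rw [Ideal.absNorm_apply, Submodule.cardQuot_apply, ← hu2]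
      exact h1
    have h3 : ((σ • hζ.toInteger : 𝓞 L) : L) = ((hζ.toInteger ^ Ideal.absNorm w.asIdeal : 𝓞 L) : L) := by rw [h2]
    rw [BF1_coe] at h3
    exact h3

/-- The residue degree is the order of the Frobenius element. -/
theorem q2_card (h : Layer p n K N) (hn : Module.finrank K N = p ^ n) (w : Pl K) (hw : (p : 𝓞 K) ∉ w.asIdeal)
    (hes : es K N w = 1) :
    fs K N w ∣ p ^ n ∧ ∀ k : ℕ, fs K N w ∣ k ↔
      ((Ideal.absNorm w.asIdeal : ℕ) : ZMod (p ^ (n + 1))) ^ (k * (p - 1)) = 1 := by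
  have hab := q2_ab h
  have hG : IsGalois K N := hab.toIsGalois
  obtain ⟨W, hW⟩ := under_exists (L := N) w
  obtain ⟨hcN, g, hg, hk⟩ := q2_frob h hn w hw W hW
  have hl : W.asIdeal.LiesOver w.asIdeal := (BF2_mem w W hW).2
  have hWp := W.isPrime
  have h1 := card_stab W w hW
  rw [hes, one_mul] at h1
  have h2 : orderOf g = fs K N w := by
    rw [← h1, ← Nat.card_zpowers]
    apply Nat.card_congr
    refine Equiv.subtypeEquivRight fun σ => ⟨?_, ?_⟩
    · rintro ⟨i, rfl⟩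
      have h3 : g ∈ MulAction.stabilizer Gal(N/K) W.asIdeal := hg.mem_stabilizer
      have h4 := Subgroup.zpow_mem _ h3 i
      apply HeightOneSpectrum.ext
      exact h4
    · intro hσ
      obtain ⟨m, hm⟩ := X7_pow w hes W g hg σ (congrArg HeightOneSpectrum.asIdeal hσ)
      rw [hm]
      exact Subgroup.npow_mem_zpowers g m
  refine ⟨?_, fun k => ?_⟩
  · rw [← h2, ← hn, ← IsGalois.card_aut_eq_finrank]
    exact orderOf_dvd_natCard g
  · rw [← h2, orderOf_dvd_iff_pow_eq_one, hk]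

end H55Z
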