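import Mathlib
import Pool.Agent.Lib.H55R.HC6
import Pool.Agent.Lib.H55Z.Q2

/-! # H55Z, part Q: ramification in a layer -/

open NumberField IsDedekindDomain
open scoped Pointwise

namespace H55Z

open H55R

variable {p : ℕ} [hp : Fact p.Prime] {n : ℕ} {K N : Type} [Field K] [NumberField K] [Field N] [NumberField N] [Algebra K N]

/-- A layer is unramified outside p. -/
theorem q3_unr (h2 : p ≠ 2) (hU : ¬ (p : ℤ) ∣ NumberField.discr K) (h : Layer p n K N) (w : Pl K)
    (hw : (p : 𝓞 K) ∉ w.asIdeal) : es K N w = 1 := by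
  have hab := q2_ab h
  have hG : IsGalois K N := hab.toIsGalois
  by_contra hne
  obtain ⟨hn, hd⟩ := layer_disc h2 hU h
  obtain ⟨P, hP1, hP2⟩ : ∃ P : Ideal (𝓞 N), P.IsPrime ∧ P.LiesOver w.asIdeal := by
    obtain ⟨⟨P, h3, h4⟩⟩ := w.asIdeal.nonempty_primesOver (S := 𝓞 N)
    exact ⟨P, h3, h4⟩
  have h3 : es K N w = P.ramificationIdx (𝓞 K) :=
    Ideal.ramificationIdxIn_eq_ramificationIdx w.asIdeal P Gal(N/K)
  have h4 : P ∣ differentIdeal (𝓞 K) (𝓞 N) := by
    by_contra h4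
    rw [not_dvd_differentIdeal_iff] at h4
    apply hne
    rw [h3]
    exact Ideal.ramificationIdx_eq_one P (𝓞 K)
  have h5 := natAbs_discr_eq_absNorm_differentIdeal_mul_natAbs_discr_pow K (𝓞 K) N (𝓞 N)
  rw [hd, hn, mul_comm] at h5
  have h6 : 0 < (NumberField.discr K).natAbs ^ p ^ n :=
    pow_pos (Int.natAbs_pos.2 (NumberField.discr_ne_zero K)) _
  have h7 := Nat.eq_of_mul_eq_mul_right h6 h5
  have h8 := Ideal.absNorm_mem (differentIdeal (𝓞 K) (𝓞 N))
  rw [← h7] at h8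
  have h9 : (((p ^ En p n) ^ Module.finrank ℚ K : ℕ) : 𝓞 N) ∈ P := Ideal.dvd_iff_le.1 h4 h8
  rw [Nat.cast_pow, Nat.cast_pow] at h9
  have h10 := hP1.mem_of_pow_mem _ (hP1.mem_of_pow_mem _ h9)
  apply hw
  rw [hP2.over, Ideal.under, Ideal.mem_comap, map_natCast]
  exact h10

/-- The primes above p are unramified over the integers. -/
theorem q3_one (hU : ¬ (p : ℤ) ∣ NumberField.discr K) (w : Pl K) (hw : (p : 𝓞 K) ∈ w.asIdeal) :
    w.asIdeal.ramificationIdx ℤ = 1 := by
  have hpp : Prime (p : ℤ) := Nat.prime_iff_prime_int.1 hp.out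
  rw [NumberField.not_dvd_discr_iff_forall_mem K (𝓞 K) hpp] at hU
  have hP := w.isPrime
  have h1 := hU w.asIdeal hP (by exact_mod_cast hw)
  exact Ideal.ramificationIdx_eq_one w.asIdeal ℤ

theorem q3_cyc {L : Type} [Field L] [NumberField L] {ζ : L} (hζ : IsPrimitiveRoot ζ (p ^ (n + 1))) (P : Pl L)
    (hP : (p : 𝓞 L) ∈ P.asIdeal) : p ^ n * (p - 1) ∣ P.asIdeal.ramificationIdx ℤ := by
  have := p3_ne (p := p) n
  let C := IntermediateField.adjoin ℚ {ζ}
  have hC : IsCyclotomicExtension {p ^ (n + 1)} ℚ C := hζ.intermediateField_adjoin_isCyclotomicExtension ℚ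
  have hPp := P.isPrime
  have h1 : ((P.asIdeal.under (𝓞 C))).IsPrime := inferInstance
  have h2 : (P.asIdeal.under (𝓞 C)).LiesOver (Ideal.span {(p : ℤ)}) := by
    have hpp : Prime (p : ℤ) := Nat.prime_iff_prime_int.1 hp.out
    rw [Ideal.liesOver_span_iff h1.ne_top hpp]
    rw [Ideal.under, Ideal.mem_comap]
    simpa using hP
  have h3 := IsCyclotomicExtension.Rat.ramificationIdx_eq_of_prime_pow p n C (P.asIdeal.under (𝓞 C))
  rw [← h3]
  have h4 : P.asIdeal.LiesOver (P.asIdeal.under (𝓞 C)) := ⟨rfl⟩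
  exact Ideal.ramificationIdx_below_dvd (P.asIdeal.under (𝓞 C)) P.asIdeal

/-- The primes above p are totally ramified in a layer. -/
theorem q3_ram (h2 : p ≠ 2) (hU : ¬ (p : ℤ) ∣ NumberField.discr K) (h : Layer p n K N) (w : Pl K)
    (hw : (p : 𝓞 K) ∈ w.asIdeal) : es K N w = p ^ n := by
  have := p3_ne (p := p) n
  have hn := (layer_disc h2 hU h).1
  have hc : IsCyclotomicExtension {p ^ (n + 1)} K (CyclotomicField (p ^ (n + 1)) N) := q1_cyc h
  obtain ⟨L, i1, i2, i3, i4, i5, hcK⟩ : ∃ (L : Type) (_ : Field L) (_ : NumberField L) (_ : Algebra N L) (_ : Algebra K L)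
      (_ : IsScalarTower K N L), IsCyclotomicExtension {p ^ (n + 1)} K L :=
    ⟨CyclotomicField (p ^ (n + 1)) N, inferInstance, inferInstance, inferInstance, inferInstance, inferInstance, hc⟩
  have hab := q2_ab h
  have hG : IsGalois K N := hab.toIsGalois
  have hGL : IsGalois K L := IsCyclotomicExtension.isGalois {p ^ (n + 1)} K L
  have hGNL : IsGalois N L := IsGalois.tower_top_of_isGalois K N L
  have hζ := IsCyclotomicExtension.zeta_spec (p ^ (n + 1)) K L
  obtain ⟨W, hW⟩ := under_exists (L := N) w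
  obtain ⟨WL, hWL⟩ := under_exists (L := L) W
  have hl1 : W.asIdeal.LiesOver w.asIdeal := (BF2_mem w W hW).2
  have hl2 : WL.asIdeal.LiesOver W.asIdeal := (BF2_mem W WL hWL).2
  have hwp := w.isPrime
  have hWp := W.isPrime
  have hWLp := WL.isPrime
  have hpL : (p : 𝓞 L) ∈ WL.asIdeal := by
    have h3 : (p : 𝓞 N) ∈ W.asIdeal := by
      rw [hl1.over, Ideal.under, Ideal.mem_comap, map_natCast] at hw
      exact hw
    rw [hl2.over, Ideal.under, Ideal.mem_comap, map_natCast] at h3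
    exact h3
  have h3 := q3_cyc hζ WL hpL
  have e1 : W.asIdeal.ramificationIdx ℤ = w.asIdeal.ramificationIdx ℤ * W.asIdeal.ramificationIdx (𝓞 K) :=
    Ideal.ramificationIdx_tower w.asIdeal W.asIdeal
  have e2 : WL.asIdeal.ramificationIdx ℤ = W.asIdeal.ramificationIdx ℤ * WL.asIdeal.ramificationIdx (𝓞 N) :=
    Ideal.ramificationIdx_tower W.asIdeal WL.asIdeal
  have e3 : es K N w = W.asIdeal.ramificationIdx (𝓞 K) :=
    Ideal.ramificationIdxIn_eq_ramificationIdx w.asIdeal W.asIdeal Gal(N/K)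
  have e4 : es N L W = WL.asIdeal.ramificationIdx (𝓞 N) :=
    Ideal.ramificationIdxIn_eq_ramificationIdx W.asIdeal WL.asIdeal Gal(L/N)
  rw [e2, e1, q3_one hU w hw, one_mul, ← e3, ← e4] at h3
  have h4 : es N L W ∣ p - 1 := by
    refine (HC6_dvd W).1.trans ?_
    rw [← IsGalois.card_aut_eq_finrank]
    exact q2_deg (K := K) hn
  have h5 : es K N w ∣ p ^ n := hn ▸ (HC6_dvd w).1
  have hp1 : 0 < p - 1 := by
    have := hp.out.two_le
    omega
  apply Nat.dvd_antisymm h5
  have h6 : p ^ n ∣ es K N w * es N L W := (Dvd.intro _ rfl).trans h3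
  have hcop : Nat.Coprime (p ^ n) (es N L W) := by
    apply Nat.Coprime.coprime_dvd_right h4
    apply Nat.Coprime.pow_left
    have h8 := (Nat.coprime_self_add_left (m := p - 1) (n := 1)).2 (Nat.coprime_one_left _)
    rwa [Nat.sub_add_cancel hp.out.one_le] at h8
  exact hcop.dvd_of_dvd_mul_right h6

end H55Z
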