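import Mathlib
import Pool.Agent.Lib.H55Z.P3

/-! # H55Z, part Q: Dirichlet characters of order a power of p and modulus a power of p -/

open NumberField

namespace H55Z

variable {p : ℕ} [hp : Fact p.Prime] {n : ℕ}

instance q4_finite (p : ℕ) [hp : Fact p.Prime] (n : ℕ) : Finite (DirichletCharacter ℂ (p ^ (n + 1))) := by
  have := p3_ne (p := p) n
  infer_instance

theorem q4_cyc (h2 : p ≠ 2) (n : ℕ) : IsCyclic (DirichletCharacter ℂ (p ^ (n + 1))) := by
  have := p3_ne (p := p) n
  obtain ⟨e⟩ := MulChar.mulEquiv_units (ZMod (p ^ (n + 1))) ℂ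
  have h1 := ZMod.isCyclic_units_of_prime_pow p hp.out h2 (n + 1)
  exact isCyclic_of_surjective e.symm e.symm.surjective

theorem q4_card (p : ℕ) [hp : Fact p.Prime] (n : ℕ) : Nat.card (DirichletCharacter ℂ (p ^ (n + 1))) = p ^ n * (p - 1) := by
  have := p3_ne (p := p) n
  obtain ⟨e⟩ := MulChar.mulEquiv_units (ZMod (p ^ (n + 1))) ℂ
  rw [Nat.card_congr e.toEquiv, Nat.card_eq_fintype_card, ZMod.card_units_eq_totient, Nat.totient_prime_pow hp.out n.succ_pos]
  rfl

/-- The characters modulo p^(n+1) whose order divides p^k. -/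
noncomputable def XS (p : ℕ) [hp : Fact p.Prime] (n k : ℕ) : Finset (DirichletCharacter ℂ (p ^ (n + 1))) :=
  (Set.toFinite {χ : DirichletCharacter ℂ (p ^ (n + 1)) | χ ^ p ^ k = 1}).toFinset

theorem mem_XS {k : ℕ} {χ : DirichletCharacter ℂ (p ^ (n + 1))} : χ ∈ XS p n k ↔ χ ^ p ^ k = 1 := by
  unfold XS
  rw [Set.Finite.mem_toFinset]
  rfl

/-- The subgroup of characters of order dividing p^k. -/
noncomputable def HS (p : ℕ) [hp : Fact p.Prime] (n k : ℕ) : Subgroup (DirichletCharacter ℂ (p ^ (n + 1))) :=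
  (powMonoidHom (p ^ k) : DirichletCharacter ℂ (p ^ (n + 1)) →* DirichletCharacter ℂ (p ^ (n + 1))).ker

theorem mem_HS {k : ℕ} {χ : DirichletCharacter ℂ (p ^ (n + 1))} : χ ∈ HS p n k ↔ χ ^ p ^ k = 1 := Iff.rfl

theorem card_HS (h2 : p ≠ 2) {k : ℕ} (hk : k ≤ n) : Nat.card (HS p n k) = p ^ k := by
  have := q4_cyc h2 n
  have h1 := IsCyclic.card_powMonoidHom_ker (G := DirichletCharacter ℂ (p ^ (n + 1))) (p ^ k)
  rw [q4_card, Nat.gcd_eq_right ((pow_dvd_pow p hk).trans (Dvd.intro _ rfl))] at h1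
  exact h1

theorem card_XS (h2 : p ≠ 2) {k : ℕ} (hk : k ≤ n) : (XS p n k).card = p ^ k := by
  rw [← card_HS h2 hk, ← Fintype.card_coe, ← Nat.card_eq_fintype_card]
  apply Nat.card_congr
  exact Equiv.subtypeEquivRight fun χ => mem_XS

/-- Counting the values of a homomorphism to the roots of unity. -/
theorem q4_fib {H : Type} [CommGroup H] [Fintype H] (φ : H →* ℂˣ) {f m : ℕ} (hf : 0 < f) (hm : Nat.card H = f * m)
    (hk : ∀ k : ℕ, (∀ h, φ h ^ k = 1) ↔ f ∣ k) {z : ℂ} (hz : IsPrimitiveRoot z f) {B : Type} [CommMonoid B] (g : ℂ → B) :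
    ∏ h : H, g (φ h) = (∏ j ∈ Finset.range f, g (z ^ j)) ^ m := by
  classical
  -- the order of the image
  have hcyc : IsCyclic φ.range := inferInstance
  have hcard : Nat.card φ.range = f := by
    rw [← IsCyclic.exponent_eq_card]
    have h1 : ∀ k, Monoid.exponent φ.range ∣ k ↔ f ∣ k := by
      intro k
      rw [Monoid.exponent_dvd_iff_forall_pow_eq_one, ← hk]
      constructor
      · intro h x
        have h2 := h ⟨φ x, x, rfl⟩
        exact congrArg Subtype.val h2
      · rintro h ⟨_, x, rfl⟩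
        exact Subtype.ext (h x)
    exact Nat.dvd_antisymm ((h1 f).2 dvd_rfl) ((h1 _).1 dvd_rfl)
  have himg : (Finset.univ.image fun h => (φ h : ℂ)) = (Finset.range f).image fun j => z ^ j := by
    apply Finset.eq_of_subset_of_card_le
    · intro x hx
      obtain ⟨h, -, rfl⟩ := Finset.mem_image.1 hx
      have h1 : (φ h : ℂ) ^ f = 1 := by
        rw [← Units.val_pow_eq_pow_val, (hk f).2 dvd_rfl h, Units.val_one]
      have := NeZero.mk hf.ne'
      obtain ⟨i, hi, hi2⟩ := hz.eq_pow_of_pow_eq_one h1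
      exact Finset.mem_image.2 ⟨i, Finset.mem_range.2 hi, hi2⟩
    · refine Finset.card_image_le.trans ?_
      rw [Finset.card_range]
      have h1 : (Finset.univ.image fun h => (φ h : ℂ)).card = (Finset.univ.image φ).card := by
        have h2 : (Finset.univ.image fun h => (φ h : ℂ)) = (Finset.univ.image φ).image Units.val := by
          rw [Finset.image_image]
          rfl
        rw [h2, Finset.card_image_of_injective _ Units.val_injective]
      rw [h1]
      have h3 : (Finset.univ.image φ).card = Nat.card φ.range := by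
        rw [← Set.ncard_coe_finset, Finset.coe_image, Finset.coe_univ, Set.image_univ]
        rfl
      rw [h3, hcard]
  have hfib : ∀ h : H, ((Finset.univ : Finset H).filter fun a => (φ a : ℂ) = φ h).card = m := by
    have h1 : ∀ h h' : H, ((Finset.univ : Finset H).filter fun a => (φ a : ℂ) = φ h).card =
        ((Finset.univ : Finset H).filter fun a => (φ a : ℂ) = φ h').card := by
      intro h h'
      have h2 := MonoidHom.card_fiber_eq_of_mem_range φ (x := φ h) (y := φ h') ⟨h, rfl⟩ ⟨h', rfl⟩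
      simpa only [Units.val_inj] using h2
    have h2 := Finset.card_eq_sum_card_image (fun h => (φ h : ℂ)) (Finset.univ : Finset H)
    intro h
    rw [Finset.sum_congr rfl (g := fun _ => ((Finset.univ : Finset H).filter fun a => (φ a : ℂ) = φ h).card)] at h2
    · rw [Finset.sum_const, himg, Finset.card_image_of_injOn, Finset.card_range, Finset.card_univ,
        ← Nat.card_eq_fintype_card, hm, smul_eq_mul] at h2
      · exact (Nat.eq_of_mul_eq_mul_left hf h2).symm
      · intro i hi j hj hij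
        exact hz.pow_inj (Finset.mem_range.1 (Finset.mem_coe.1 hi)) (Finset.mem_range.1 (Finset.mem_coe.1 hj)) hij
    · intro x hx
      obtain ⟨h', -, rfl⟩ := Finset.mem_image.1 hx
      exact h1 h' h
  rw [Finset.prod_comp g (fun h => (φ h : ℂ)), ← Finset.prod_pow]
  have h3 : ∏ b ∈ Finset.univ.image (fun h => (φ h : ℂ)),
      g b ^ ((Finset.univ : Finset H).filter fun a => (φ a : ℂ) = b).card =
      ∏ b ∈ Finset.univ.image (fun h => (φ h : ℂ)), g b ^ m := by
    refine Finset.prod_congr rfl fun b hb => ?_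
    obtain ⟨h', -, rfl⟩ := Finset.mem_image.1 hb
    rw [hfib]
  rw [h3, himg, Finset.prod_image]
  intro i hi j hj hij
  exact hz.pow_inj (Finset.mem_range.1 hi) (Finset.mem_range.1 hj) hij

/-- The character values at a unit. -/
noncomputable def evU {m : ℕ} (u : (ZMod m)ˣ) : DirichletCharacter ℂ m →* ℂˣ :=
  (MonoidHom.eval u).comp (MulChar.mulEquivToUnitHom : DirichletCharacter ℂ m ≃* ((ZMod m)ˣ →* ℂˣ)).toMonoidHom

theorem evU_coe {m : ℕ} (u : (ZMod m)ˣ) (χ : DirichletCharacter ℂ m) : ((evU u χ : ℂˣ) : ℂ) = χ (u : ZMod m) := rfl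

theorem q4_exp (n : ℕ) (u : (ZMod (p ^ (n + 1)))ˣ) (k : ℕ) :
    (∀ h : HS p n n, evU u (h : DirichletCharacter ℂ (p ^ (n + 1))) ^ k = 1) ↔ u ^ (k * (p - 1)) = 1 := by
  have := p3_ne (p := p) n
  have hcop : Nat.Coprime (p ^ n) (p - 1) := by
    apply Nat.Coprime.pow_left
    have h8 := (Nat.coprime_self_add_left (m := p - 1) (n := 1)).2 (Nat.coprime_one_left _)
    rwa [Nat.sub_add_cancel hp.out.one_le] at h8
  have hev : ∀ (χ : DirichletCharacter ℂ (p ^ (n + 1))) (j : ℕ), evU (u ^ j) χ = evU u χ ^ j := by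
    intro χ j
    exact map_pow (MulChar.mulEquivToUnitHom χ) u j
  constructor
  · intro h
    by_contra hne
    have hne' : ((u ^ (k * (p - 1)) : (ZMod (p ^ (n + 1)))ˣ) : ZMod (p ^ (n + 1))) ≠ 1 := fun h1 =>
      hne (Units.ext h1)
    obtain ⟨χ, hχ⟩ := MulChar.exists_apply_ne_one_of_hasEnoughRootsOfUnity (ZMod (p ^ (n + 1))) ℂ hne'
    apply hχ
    have h1 : χ ^ (p - 1) ∈ HS p n n := by
      rw [mem_HS, ← pow_mul, mul_comm, ← q4_card]
      exact pow_card_eq_one'
    have h2 := h ⟨χ ^ (p - 1), h1⟩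
    rw [← evU_coe, hev]
    have h3 : evU u (χ ^ (p - 1)) ^ k = 1 := h2
    rw [map_pow, ← pow_mul, mul_comm] at h3
    rw [h3, Units.val_one]
  · rintro h ⟨χ, hχ⟩
    have h1 : (evU u χ ^ k) ^ (p - 1) = 1 := by
      rw [← pow_mul, ← hev, h]
      exact map_one (MulChar.mulEquivToUnitHom χ)
    have h2 : (evU u χ ^ k) ^ p ^ n = 1 := by
      rw [← pow_mul, mul_comm, pow_mul, ← map_pow, mem_HS.1 hχ, map_one, one_pow]
    have h4 := Nat.dvd_gcd (orderOf_dvd_of_pow_eq_one h2) (orderOf_dvd_of_pow_eq_one h1)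
    rw [Nat.Coprime.gcd_eq_one hcop] at h4
    exact orderOf_eq_one_iff.1 (Nat.dvd_one.1 h4)

/-- The product over the characters of order dividing p^n. -/
theorem q4_prod (h2 : p ≠ 2) (n : ℕ) {r f : ℕ} (hr : r.Coprime p) (hf : f ∣ p ^ n)
    (hk : ∀ k : ℕ, f ∣ k ↔ ((r : ℕ) : ZMod (p ^ (n + 1))) ^ (k * (p - 1)) = 1) {z : ℂ} (hz : IsPrimitiveRoot z f)
    {B : Type} [CommMonoid B] (g : ℂ → B) :
    ∏ χ ∈ XS p n n, g (χ (r : ZMod (p ^ (n + 1)))) = (∏ j ∈ Finset.range f, g (z ^ j)) ^ (p ^ n / f) := by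
  classical
  have := p3_ne (p := p) n
  have := Fintype.ofFinite (HS p n n)
  have hrc : r.Coprime (p ^ (n + 1)) := hr.pow_right _
  let u : (ZMod (p ^ (n + 1)))ˣ := ZMod.unitOfCoprime r hrc
  have hu : (u : ZMod (p ^ (n + 1))) = (r : ZMod (p ^ (n + 1))) := ZMod.coe_unitOfCoprime r hrc
  have hf0 : 0 < f := Nat.pos_of_dvd_of_pos hf (pow_pos hp.out.pos _)
  have hm : Nat.card (HS p n n) = f * (p ^ n / f) := by
    rw [card_HS h2 le_rfl, Nat.mul_div_cancel' hf]
  have hk' : ∀ k : ℕ, (∀ h : HS p n n, ((evU u).comp (HS p n n).subtype) h ^ k = 1) ↔ f ∣ k := by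
    intro k
    rw [hk]
    refine (q4_exp n u k).trans ?_
    rw [← hu, ← Units.val_pow_eq_pow_val, Units.val_eq_one]
  have h1 := q4_fib ((evU u).comp (HS p n n).subtype) hf0 hm hk' hz g
  rw [← h1]
  have h3 : ∀ χ : DirichletCharacter ℂ (p ^ (n + 1)), χ ∈ XS p n n ↔ χ ∈ HS p n n := by
    intro χ
    rw [mem_XS, mem_HS]
  rw [Finset.prod_subtype (XS p n n) h3 (fun χ => g (χ (r : ZMod (p ^ (n + 1)))))]
  refine Finset.prod_congr rfl fun χ _ => ?_
  congr 1

theorem q4_mem {k : ℕ} (χ : DirichletCharacter ℂ (p ^ (n + 1))) : χ ∈ XS p n k ↔ orderOf χ ∣ p ^ k := by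
  rw [mem_XS, orderOf_dvd_iff_pow_eq_one]

/-- A product over the characters of order dividing p^n by their orders. -/
theorem q4_ord (h2 : p ≠ 2) (n : ℕ) {B : Type} [CommMonoid B] (F : DirichletCharacter ℂ (p ^ (n + 1)) → B) (c : ℕ → B)
    (hF : ∀ k, k < n → ∀ χ : DirichletCharacter ℂ (p ^ (n + 1)), orderOf χ = p ^ (k + 1) → F χ = c k) :
    ∏ χ ∈ (XS p n n).erase 1, F χ = ∏ k ∈ Finset.range n, c k ^ (p ^ (k + 1) - p ^ k) := by
  classical
  have hm : ∀ m, m ≤ n → ∏ χ ∈ (XS p n m).erase 1, F χ = ∏ k ∈ Finset.range m, c k ^ (p ^ (k + 1) - p ^ k) := by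
    intro m
    induction m with
    | zero =>
      intro _
      rw [Finset.prod_range_zero]
      apply Finset.prod_eq_one
      intro χ hχ
      exfalso
      obtain ⟨h1, h3⟩ := Finset.mem_erase.1 hχ
      rw [mem_XS, pow_zero, pow_one] at h3
      exact h1 h3
    | succ m ih =>
      intro hmn
      have hsub : XS p n m ⊆ XS p n (m + 1) := by
        intro χ hχ
        rw [q4_mem] at hχ ⊢
        exact hχ.trans (pow_dvd_pow p (Nat.le_succ m))
      have h1 : (XS p n (m + 1)).erase 1 = (XS p n m).erase 1 ∪ (XS p n (m + 1) \ XS p n m) := by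
        ext χ
        simp only [Finset.mem_erase, Finset.mem_union, Finset.mem_sdiff]
        constructor
        · rintro ⟨h3, h4⟩
          by_cases h5 : χ ∈ XS p n m
          · exact Or.inl ⟨h3, h5⟩
          · exact Or.inr ⟨h4, h5⟩
        · rintro (⟨h3, h4⟩ | ⟨h3, h4⟩)
          · exact ⟨h3, hsub h4⟩
          · refine ⟨?_, h3⟩
            rintro rfl
            exact h4 (mem_XS.2 (one_pow _))
      have h3 : Disjoint ((XS p n m).erase 1) (XS p n (m + 1) \ XS p n m) := by
        rw [Finset.disjoint_left]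
        intro χ h4 h5
        exact (Finset.mem_sdiff.1 h5).2 (Finset.mem_of_mem_erase h4)
      rw [h1, Finset.prod_union h3, ih (by omega), Finset.prod_range_succ]
      congr 1
      rw [Finset.prod_congr rfl (g := fun _ => c m), Finset.prod_const]
      · congr 1
        rw [Finset.card_sdiff_of_subset hsub, card_XS h2 hmn, card_XS h2 (by omega)]
      · intro χ hχ
        obtain ⟨h4, h5⟩ := Finset.mem_sdiff.1 hχ
        rw [q4_mem] at h4 h5
        apply hF m (by omega)
        obtain ⟨j, hj, hj2⟩ := (Nat.dvd_prime_pow hp.out).1 h4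
        rw [hj2] at h5 ⊢
        congr 1
        by_contra hne
        exact h5 (pow_dvd_pow p (by omega))
  exact hm n le_rfl

/-- A character of order p^k comes from a character modulo p^(k+1). -/
theorem q4_level (h2 : p ≠ 2) {n k : ℕ} (hk : k ≤ n) (χ : DirichletCharacter ℂ (p ^ (n + 1))) (hχ : orderOf χ = p ^ k) :
    ∃ χ' : DirichletCharacter ℂ (p ^ (k + 1)), orderOf χ' = p ^ k ∧
      ∀ a : ℕ, χ (a : ZMod (p ^ (n + 1))) = χ' (a : ZMod (p ^ (k + 1))) := by
  classical
  have := p3_ne (p := p) n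
  have := p3_ne (p := p) k
  have hd : p ^ (k + 1) ∣ p ^ (n + 1) := pow_dvd_pow p (by omega)
  have hinj := DirichletCharacter.changeLevel_injective (R := ℂ) hd
  have himg : (XS p k k).image (DirichletCharacter.changeLevel hd) = XS p n k := by
    apply Finset.eq_of_subset_of_card_le
    · intro x hx
      obtain ⟨y, hy, rfl⟩ := Finset.mem_image.1 hx
      rw [mem_XS] at hy ⊢
      rw [← map_pow, hy, map_one]
    · rw [Finset.card_image_of_injective _ hinj, card_XS h2 le_rfl, card_XS h2 hk]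
  have h3 : χ ∈ XS p n k := by
    rw [q4_mem, hχ]
  rw [← himg] at h3
  obtain ⟨χ', -, h4⟩ := Finset.mem_image.1 h3
  refine ⟨χ', ?_, fun a => ?_⟩
  · rw [← hχ, ← h4]
    exact (orderOf_injective (DirichletCharacter.changeLevel hd) hinj χ').symm
  · by_cases ha : a.Coprime p
    · have h5 := DirichletCharacter.changeLevel_eq_cast_of_dvd' χ' hd (a := (a : ℤ))
        (by
          rw [Nat.isCoprime_iff_coprime]
          exact ha.pow_right _)
      rw [h4] at h5
      simpa using h5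
    · have h6 : ∀ m : ℕ, ¬ IsUnit ((a : ℕ) : ZMod (p ^ (m + 1))) := by
        intro m hu
        apply ha
        rw [ZMod.isUnit_iff_coprime] at hu
        exact Nat.Coprime.coprime_dvd_right (dvd_pow_self p m.succ_ne_zero) hu
      rw [χ.map_nonunit (h6 n), χ'.map_nonunit (h6 k)]

end H55Z
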