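import Mathlib
import Pool.Agent.Lib.H55P.T4
import Pool.Agent.Lib.H55P.T10
import Pool.Agent.Lib.H55Z.Q3
import Pool.Agent.Lib.H55Z.Q4

/-! # H55Z, part Q: the Euler product of a layer -/

open NumberField IsDedekindDomain

namespace H55Z

open H55P H55N

/-- A Dirichlet character modulo a power of p on the ideals of K. -/
noncomputable def chN (K : Type) [Field K] [NumberField K] {p : ℕ} [hp : Fact p.Prime] {k : ℕ}
    (χ : DirichletCharacter ℂ (p ^ (k + 1))) : Ideal (𝓞 K) →*₀ ℂ where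
  toFun a := χ ((Ideal.absNorm a : ℕ) : ZMod (p ^ (k + 1)))
  map_zero' := by
    have h1 : ((Ideal.absNorm (0 : Ideal (𝓞 K)) : ℕ) : ZMod (p ^ (k + 1))) = ((0 : ℕ) : ZMod (p ^ (k + 1))) := by
      congr 1
      exact map_zero Ideal.absNorm
    rw [h1]
    apply χ.map_nonunit
    rw [ZMod.isUnit_iff_coprime, Nat.coprime_zero_left]
    exact (Nat.one_lt_pow k.succ_ne_zero hp.out.one_lt).ne'
  map_one' := by
    rw [map_one, Nat.cast_one, map_one]
  map_mul' a b := by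
    rw [map_mul, Nat.cast_mul, map_mul]

theorem chN_apply (K : Type) [Field K] [NumberField K] {p : ℕ} [hp : Fact p.Prime] {k : ℕ}
    (χ : DirichletCharacter ℂ (p ^ (k + 1))) (a : Ideal (𝓞 K)) :
    chN K χ a = χ ((Ideal.absNorm a : ℕ) : ZMod (p ^ (k + 1))) := rfl

theorem chN_norm (K : Type) [Field K] [NumberField K] {p : ℕ} [hp : Fact p.Prime] {k : ℕ}
    (χ : DirichletCharacter ℂ (p ^ (k + 1))) (a : Ideal (𝓞 K)) : ‖chN K χ a‖ ≤ 1 := by
  rw [chN_apply]
  exact χ.norm_le_one _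

variable {F : Type} [Field F] [NumberField F] [IQ F]

section

variable {p : ℕ} [hp : Fact p.Prime] {n : ℕ} (K N : Type) [Field K] [NumberField K] [Field N] [NumberField N] [Algebra K N]

theorem q5_cop (w : H55R.Pl K) : (p : 𝓞 K) ∈ w.asIdeal ↔ ¬ (Ideal.absNorm w.asIdeal).Coprime p := by
  have hw := w.isPrime
  have hm := w.isMaximal
  constructor
  · intro h hc
    have h1 := Ideal.absNorm_mem w.asIdeal
    have h2 : (1 : 𝓞 K) ∈ w.asIdeal := by
      have h3 : ((Ideal.absNorm w.asIdeal : ℤ)) * Nat.gcdA (Ideal.absNorm w.asIdeal) p +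
          (p : ℤ) * Nat.gcdB (Ideal.absNorm w.asIdeal) p = 1 := by
        have h4 := Nat.gcd_eq_gcd_ab (Ideal.absNorm w.asIdeal) p
        rw [Nat.Coprime.gcd_eq_one hc] at h4
        exact_mod_cast h4.symm
      have h5 : (((Ideal.absNorm w.asIdeal : ℕ) : 𝓞 K)) * ((Nat.gcdA (Ideal.absNorm w.asIdeal) p : ℤ) : 𝓞 K) +
          (p : 𝓞 K) * ((Nat.gcdB (Ideal.absNorm w.asIdeal) p : ℤ) : 𝓞 K) = 1 := by
        exact_mod_cast congrArg (Int.cast : ℤ → 𝓞 K) h3
      rw [← h5]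
      exact add_mem (Ideal.mul_mem_right _ _ h1) (Ideal.mul_mem_right _ _ h)
    exact hw.ne_top ((Ideal.eq_top_iff_one _).2 h2)
  · intro h
    by_contra hn
    apply h
    rw [Nat.coprime_comm, Nat.Prime.coprime_iff_not_dvd hp.out]
    intro hd
    apply hn
    obtain ⟨q, hq⟩ : ∃ q : ℕ, q = Ideal.absNorm w.asIdeal := ⟨_, rfl⟩
    -- the residue field has characteristic p
    have hfin : Finite (𝓞 K ⧸ w.asIdeal) := Ideal.finiteQuotientOfFreeOfNeBot _ w.ne_bot
    have h1 : p ∣ Nat.card (𝓞 K ⧸ w.asIdeal) := by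
      rw [← Submodule.cardQuot_apply, ← Ideal.absNorm_apply]
      exact hd
    obtain ⟨x, hx⟩ := exists_prime_addOrderOf_dvd_card' p h1
    have h2 : (p : 𝓞 K ⧸ w.asIdeal) * x = 0 := by
      rw [← nsmul_eq_mul, ← hx, addOrderOf_nsmul_eq_zero]
    have hx0 : x ≠ 0 := by
      rintro rfl
      rw [addOrderOf_zero] at hx
      exact hp.out.one_lt.ne hx
    rcases mul_eq_zero.1 h2 with h3 | h3
    · rw [← map_natCast (Ideal.Quotient.mk w.asIdeal)] at h3
      exact Ideal.Quotient.eq_zero_iff_mem.1 h3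
    · exact absurd h3 hx0

variable [Algebra F K] [Algebra F N] [IsScalarTower F K N]

theorem q5_loc (ψ : Ideal (𝓞 F) →*₀ 𝓞 F) (h2 : p ≠ 2) (hU : ¬ (p : ℤ) ∣ NumberField.discr K) (h : Layer p n K N)
    (w : HeightOneSpectrum (𝓞 K)) :
    ∃ A : Finset (HeightOneSpectrum (𝓞 N)), (∀ W, W ∈ A ↔ W.asIdeal.under (𝓞 K) = w.asIdeal) ∧
      ∏ W ∈ A, H9_EF (PsiP N ψ) W = H9_EF (PsiP K ψ) w *
        ∏ χ ∈ (XS p n n).erase 1, H9_EF (PsiP K ψ * chN K χ : Ideal (𝓞 K) →*₀ ℂ) w := by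
  classical
  have hab := q2_ab h
  have hG : IsGalois K N := hab.toIsGalois
  have hn := (layer_disc h2 hU h).1
  obtain ⟨T, hT, hc⟩ := pt10_card (K' := N) w
  rw [hn] at hc
  have hnorm : ∀ W ∈ T, Ideal.relNorm (𝓞 K) W.asIdeal = w.asIdeal ^ H55R.fs K N w :=
    fun W hW => H55R.CH2_norm w W ((hT W).1 hW)
  have hmul : ∀ χ : DirichletCharacter ℂ (p ^ (n + 1)), (PsiP K ψ * chN K χ : Ideal (𝓞 K) →*₀ ℂ) w.asIdeal =
      PsiP K ψ w.asIdeal * χ ((Ideal.absNorm w.asIdeal : ℕ) : ZMod (p ^ (n + 1))) := fun χ => rfl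
  refine ⟨T, hT, ?_⟩
  by_cases hw : (p : 𝓞 K) ∈ w.asIdeal
  · have he := q3_ram h2 hU h w hw
    rw [he] at hc
    have hc1 : T.card * H55R.fs K N w = 1 := by
      have h3 : p ^ n * (T.card * H55R.fs K N w) = p ^ n * 1 := by
        rw [mul_one]
        conv_rhs => rw [← hc]
        ring
      exact Nat.eq_of_mul_eq_mul_left (pow_pos hp.out.pos _) h3
    have hcT : T.card = 1 := Nat.eq_one_of_mul_eq_one_right hc1
    have hf1 : H55R.fs K N w = 1 := Nat.eq_one_of_mul_eq_one_left hc1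
    obtain ⟨W, rfl⟩ := Finset.card_eq_one.1 hcT
    have hW := hnorm W (Finset.mem_singleton_self _)
    rw [hf1, pow_one] at hW
    rw [Finset.prod_singleton]
    have e1 : H9_EF (PsiP N ψ) W = H9_EF (PsiP K ψ) w := by
      unfold H9_EF
      rw [PsiP_top (K := K) ψ N, pt4_norm K N, hW]
    rw [e1, Finset.prod_eq_one, mul_one]
    intro χ _
    unfold H9_EF
    have h3 : χ ((Ideal.absNorm w.asIdeal : ℕ) : ZMod (p ^ (n + 1))) = 0 := by
      apply χ.map_nonunit
      rw [ZMod.isUnit_iff_coprime]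
      intro h4
      exact (q5_cop K w).1 hw (Nat.Coprime.coprime_dvd_right (dvd_pow_self p n.succ_ne_zero) h4)
    rw [hmul, h3, mul_zero, map_zero, zero_mul, sub_zero]
    have h4 : ((1 : PowerSeries ℂ)⁻¹) = 1 := by simp
    rw [h4, map_one]
  · have he := q3_unr h2 hU h w hw
    obtain ⟨hf, hk⟩ := q2_card h hn w hw he
    rw [he, one_mul] at hc
    have hcop : (Ideal.absNorm w.asIdeal).Coprime p := by
      by_contra h3
      exact hw ((q5_cop K w).2 h3)
    have hf0 : 0 < H55R.fs K N w := H55R.fs_pos w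
    have hz := Complex.isPrimitiveRoot_exp (H55R.fs K N w) hf0.ne'
    set z := Complex.exp (2 * Real.pi * Complex.I / (H55R.fs K N w : ℕ)) with hzd
    have hcT : T.card = p ^ n / H55R.fs K N w := by
      rw [← hc, Nat.mul_div_cancel _ hf0]
    have e1 : ∀ W ∈ T, H9_EF (PsiP N ψ) W = ∏ j ∈ Finset.range (H55R.fs K N w),
        ArithmeticFunction.ofPowerSeries (Ideal.absNorm w.asIdeal)
          ((1 - PowerSeries.C (PsiP K ψ w.asIdeal * z ^ j) * PowerSeries.X)⁻¹ : PowerSeries ℂ) := by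
      intro W hW
      unfold H9_EF
      rw [PsiP_top (K := K) ψ N, pt4_norm K N, hnorm W hW, map_pow, map_pow]
      exact pt4_cu _ _ _ _ hf0 hz
    have e2 := q4_prod h2 n hcop hf hk hz (B := ArithmeticFunction ℂ)
      (fun x => ArithmeticFunction.ofPowerSeries (Ideal.absNorm w.asIdeal)
          ((1 - PowerSeries.C (PsiP K ψ w.asIdeal * x) * PowerSeries.X)⁻¹ : PowerSeries ℂ))
    rw [Finset.prod_congr rfl e1, Finset.prod_const, hcT, ← e2]
    have h1 : (1 : DirichletCharacter ℂ (p ^ (n + 1))) ∈ XS p n n := mem_XS.2 (one_pow _)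
    rw [← Finset.mul_prod_erase _ _ h1]
    congr 1
    have h3 : IsUnit ((Ideal.absNorm w.asIdeal : ℕ) : ZMod (p ^ (n + 1))) := by
      rw [ZMod.isUnit_iff_coprime]
      exact hcop.pow_right _
    rw [MulChar.one_apply h3, mul_one]
    rfl

/-- The L-series of a layer. -/
theorem q5_AI (ψ : Ideal (𝓞 F) →*₀ 𝓞 F) (h2 : p ≠ 2) (hU : ¬ (p : ℤ) ∣ NumberField.discr K) (h : Layer p n K N) :
    AI (PsiP N ψ) = AI (PsiP K ψ) *
      ∏ χ ∈ (XS p n n).erase 1, AI (PsiP K ψ * chN K χ : Ideal (𝓞 K) →*₀ ℂ) := by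
  classical
  choose A hA hprod using q5_loc (F := F) K N ψ h2 hU h
  ext m
  have e1 : ∀ᶠ S : Finset (HeightOneSpectrum (𝓞 K)) in Filter.atTop,
      (∏ W ∈ S.biUnion A, H9_EF (PsiP N ψ) W) m = AI (PsiP N ψ) m := by
    have h1 := AI_euler (PsiP N ψ) m
    have h2 : Filter.Tendsto (fun S : Finset (HeightOneSpectrum (𝓞 K)) => S.biUnion A)
        Filter.atTop Filter.atTop := by
      rw [Filter.tendsto_atTop]
      intro T
      filter_upwards [Filter.eventually_ge_atTop (T.image (HeightOneSpectrum.under (𝓞 K)))] with S hS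
      intro W hW
      rw [Finset.mem_biUnion]
      refine ⟨HeightOneSpectrum.under (𝓞 K) W, hS (Finset.mem_image_of_mem _ hW), ?_⟩
      rw [hA]
      rfl
    exact h2.eventually h1
  have e2 : ∀ h : Ideal (𝓞 K) →*₀ ℂ, ∀ᶠ S : Finset (HeightOneSpectrum (𝓞 K)) in Filter.atTop,
      ∀ j ∈ Finset.range (m + 1), (∏ w ∈ S, H9_EF h w) j = AI h j := by
    intro h
    rw [Filter.eventually_all_finset]
    intro j _
    exact AI_euler h j
  have e3 : ∀ᶠ S : Finset (HeightOneSpectrum (𝓞 K)) in Filter.atTop,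
      ∀ χ ∈ (XS p n n).erase 1, ∀ j ∈ Finset.range (m + 1),
        (∏ w ∈ S, H9_EF (PsiP K ψ * chN K χ : Ideal (𝓞 K) →*₀ ℂ) w) j =
          AI (PsiP K ψ * chN K χ : Ideal (𝓞 K) →*₀ ℂ) j := by
    rw [Filter.eventually_all_finset]
    intro χ _
    exact e2 _
  obtain ⟨S, h1, h3, h4⟩ := (e1.and ((e2 (PsiP K ψ)).and e3)).exists
  rw [← h1, Finset.prod_biUnion, Finset.prod_congr rfl fun w _ => hprod w,
    Finset.prod_mul_distrib, Finset.prod_comm]
  · exact H55B.I2_mul_congr (fun j hj => h3 j (Finset.mem_range.2 (by omega)))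
      (H55B.I2_prod_congr _ _ _ fun χ hχ j hj => h4 χ hχ j (Finset.mem_range.2 (by omega))) m le_rfl
  · intro w _ w' _ hne
    rw [Function.onFun, Finset.disjoint_left]
    intro W hW hW'
    rw [hA] at hW hW'
    exact hne (HeightOneSpectrum.ext (hW.symm.trans hW'))

end

end H55Z
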