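import Mathlib
import Pool.Agent.Lib.H35K.Defs
import Pool.Agent.Lib.H55Z.Q5

/-! # H55Z, part Q: the value of the L-function of a layer -/

open NumberField IsDedekindDomain

namespace H55Z

open H55P H55N

section

variable {p : ℕ} [hp : Fact p.Prime]

theorem q6_le {V : ValuationSubring ℂ} {z : ℂ} (hz : V.valuation z = 1) (a : ℕ) :
    V.valuation (z ^ a - 1) ≤ V.valuation (z - 1) := by
  have h1 : (∑ i ∈ Finset.range a, z ^ i) * (z - 1) = z ^ a - 1 := geom_sum_mul z a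
  rw [← h1, map_mul]
  refine mul_le_of_le_one_left' ?_
  refine V.valuation.map_sum_le (fun i _ => ?_)
  rw [map_pow, hz, one_pow]

/-- The value of 1 - z for a primitive root of unity z of order a power of p. -/
theorem q6_root (V : ValuationSubring ℂ) {k : ℕ} {z : ℂ} (hz : IsPrimitiveRoot z (p ^ (k + 1))) :
    V.valuation (z - 1) ^ (p ^ (k + 1) - p ^ k) = V.valuation (p : ℂ) := by
  classical
  have hpos : 0 < p ^ (k + 1) := pow_pos hp.out.pos _
  have hne := NeZero.mk hpos.ne'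
  have hv1 : ∀ μ : ℂ, IsPrimitiveRoot μ (p ^ (k + 1)) → V.valuation μ = 1 := by
    intro μ hμ
    apply pt6_le hpos.ne'
    rw [← map_pow, hμ.pow_eq_one, map_one]
  have hle : ∀ μ ν : ℂ, IsPrimitiveRoot μ (p ^ (k + 1)) → IsPrimitiveRoot ν (p ^ (k + 1)) →
      V.valuation (ν - 1) ≤ V.valuation (μ - 1) := by
    intro μ ν hμ hν
    obtain ⟨a, -, ha⟩ := hμ.eq_pow_of_pow_eq_one hν.pow_eq_one
    rw [← ha]
    exact q6_le (hv1 μ hμ) a
  have h1 := Polynomial.cyclotomic_eq_prod_X_sub_primitiveRoots hz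
  have h2 := congrArg (Polynomial.eval 1) h1
  rw [Polynomial.eval_one_cyclotomic_prime_pow, Polynomial.eval_prod] at h2
  rw [h2, map_prod, Finset.prod_congr rfl (g := fun _ => V.valuation (z - 1)), Finset.prod_const,
    Complex.card_primitiveRoots, Nat.totient_prime_pow hp.out k.succ_pos]
  · congr 1
    show _ = p ^ k * (p - 1)
    rw [pow_succ, Nat.mul_sub_one]
  · intro μ hμ
    have hμ' : IsPrimitiveRoot μ (p ^ (k + 1)) := (mem_primitiveRoots hpos).1 hμ
    rw [Polynomial.eval_sub, Polynomial.eval_X, Polynomial.eval_C, Valuation.map_sub_swap]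
    exact le_antisymm (hle z μ hz hμ') (hle μ z hμ' hz)

end

theorem q6_prod {ι : Type} {s : ℂ} (S : Finset ι) (f : ι → ArithmeticFunction ℂ) (a : ι → ℂ)
    (h : ∀ i ∈ S, LSeriesHasSum (fun k => f i k) s (a i)) :
    LSeriesHasSum (fun k => (∏ i ∈ S, f i) k) s (∏ i ∈ S, a i) := by
  classical
  induction S using Finset.induction_on with
  | empty =>
    have h1 := pt5_prod (s := s) 0 (fun _ => 1) (fun _ => 1) (fun j hj => absurd hj (Nat.not_lt_zero j))
    exact h1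
  | insert i S hi ih =>
    rw [Finset.prod_insert hi, Finset.prod_insert hi]
    exact ArithmeticFunction.LSeriesHasSum_mul (h i (Finset.mem_insert_self i S))
      (ih fun j hj => h j (Finset.mem_insert_of_mem hj))

variable {F : Type} [Field F] [NumberField F] [IQ F]

/-- The L-series of the function h on the ideals converges for Re s > 3/2, its sum continues to Re s > 1/2, with value v at 1. -/
def HasL {K : Type} [Field K] [NumberField K] (h : Ideal (𝓞 K) → ℂ) (v : ℂ) : Prop :=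
  ∃ Λ : ℂ → ℂ, AnalyticOnNhd ℂ Λ {s | 1 / 2 < s.re} ∧ (∀ s : ℂ, 3 / 2 < s.re → HasSum (tm h s) (Λ s)) ∧ Λ 1 = v

/-- The exact valuation of the value at 1 of the L-function of ψ over K and a Dirichlet character of order p^k, divided by the power of
the period: z is a primitive p^k-th root of unity. -/
def ValK (F : Type) [Field F] [NumberField F] [IQ F] (K : Type) [Field K] [NumberField K] [Algebra F K] (p : ℕ) [Fact p.Prime] (Om : ℂ)
    (ψ : Ideal (𝓞 F) →*₀ 𝓞 F) (k : ℕ) (χ : DirichletCharacter ℂ (p ^ (k + 1))) : Prop :=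
  ∃ v : ℂ, HasL (PsiP K ψ * chN K χ : Ideal (𝓞 K) →*₀ ℂ) v ∧ v ≠ 0 ∧ ∃ z : ℂ, IsPrimitiveRoot z (p ^ k) ∧
    ∀ V : ValuationSubring ℂ, V.valuation (p : ℂ) < 1 →
      V.valuation (v / Om ^ Module.finrank F K) ^ 2 * V.valuation (p : ℂ) ^ (Module.finrank F K * (k + 1)) =
        V.valuation (z - 1) ^ (2 * Module.finrank F K * H35K.J p k)

section

variable {p : ℕ} [hp : Fact p.Prime] {n : ℕ} (K N : Type) [Field K] [NumberField K] [Field N] [NumberField N] [Algebra K N]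
  [Algebra F K] [Algebra F N] [IsScalarTower F K N]

theorem q6_level {ψ : Ideal (𝓞 F) →*₀ 𝓞 F} (h2 : p ≠ 2) {Om : ℂ}
    (hE : ∀ k, 1 ≤ k → k ≤ n → ∀ χ : DirichletCharacter ℂ (p ^ (k + 1)), orderOf χ = p ^ k → ValK F K p Om ψ k χ)
    (χ : DirichletCharacter ℂ (p ^ (n + 1))) (hχ : χ ∈ (XS p n n).erase 1) :
    ∃ k v, k < n ∧ orderOf χ = p ^ (k + 1) ∧ HasL (PsiP K ψ * chN K χ : Ideal (𝓞 K) →*₀ ℂ) v ∧ v ≠ 0 ∧
      ∃ z : ℂ, IsPrimitiveRoot z (p ^ (k + 1)) ∧
      ∀ V : ValuationSubring ℂ, V.valuation (p : ℂ) < 1 →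
        V.valuation (v / Om ^ Module.finrank F K) ^ 2 * V.valuation (p : ℂ) ^ (Module.finrank F K * (k + 2)) =
          V.valuation (z - 1) ^ (2 * Module.finrank F K * H35K.J p (k + 1)) := by
  obtain ⟨h1, h3⟩ := Finset.mem_erase.1 hχ
  rw [q4_mem] at h3
  obtain ⟨j, hj, hj2⟩ := (Nat.dvd_prime_pow hp.out).1 h3
  obtain ⟨k, rfl⟩ : ∃ k, j = k + 1 := by
    rcases j with _ | k
    · exfalso
      rw [pow_zero] at hj2
      exact h1 (orderOf_eq_one_iff.1 hj2)
    · exact ⟨k, rfl⟩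
  obtain ⟨χ', h4, h5⟩ := q4_level h2 hj χ hj2
  obtain ⟨v, h6, h7, z, hz, hV⟩ := hE (k + 1) (by omega) hj χ' h4
  refine ⟨k, v, by omega, hj2, ?_, h7, z, hz, fun V hV1 => hV V hV1⟩
  have h8 : chN K χ = chN K χ' := by
    apply MonoidWithZeroHom.ext
    intro a
    exact h5 (Ideal.absNorm a)
  rw [h8]
  exact h6

/-- The value of the L-function of a layer. -/
theorem q6_val {M : Ideal (𝓞 F)} {ψ : Ideal (𝓞 F) →*₀ 𝓞 F} (hψ : IsHecke M ψ) (h2 : p ≠ 2) (hU : ¬ (p : ℤ) ∣ NumberField.discr K)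
    (h : Layer p n K N) {Om : ℂ} {v₀ : ℂ} (h0 : HasL (PsiP K ψ) v₀) (h0' : v₀ ≠ 0)
    (h1 : ∀ V : ValuationSubring ℂ, V.valuation (p : ℂ) < 1 → V.valuation (v₀ / Om ^ Module.finrank F K) = 1)
    (hE : ∀ k, 1 ≤ k → k ≤ n → ∀ χ : DirichletCharacter ℂ (p ^ (k + 1)), orderOf χ = p ^ k → ValK F K p Om ψ k χ) :
    ∃ v : ℂ, HasL (PsiP N ψ) v ∧ v ≠ 0 ∧ ∀ V : ValuationSubring ℂ, V.valuation (p : ℂ) < 1 →
      V.valuation (v / Om ^ Module.finrank F N) ^ 2 * V.valuation (p : ℂ) ^ (Module.finrank F K * En p n) =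
        V.valuation (p : ℂ) ^ (2 * Module.finrank F K * ∑ k ∈ Finset.range n, H35K.J p (k + 1)) := by
  classical
  have hn := (layer_disc h2 hU h).1
  have hlev := q6_level K (n := n) h2 hE
  have hcard : (XS p n n).card = p ^ n := card_XS h2 le_rfl
  have hmem1 : (1 : DirichletCharacter ℂ (p ^ (n + 1))) ∈ XS p n n := mem_XS.2 (one_pow _)
  obtain ⟨Λ₀, ha0, hs0, hv0⟩ := h0
  have hall : ∀ χ : DirichletCharacter ℂ (p ^ (n + 1)), ∃ (Λ : ℂ → ℂ), χ ∈ (XS p n n).erase 1 →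
      AnalyticOnNhd ℂ Λ {s | 1 / 2 < s.re} ∧
      (∀ s : ℂ, 3 / 2 < s.re → HasSum (tm (PsiP K ψ * chN K χ : Ideal (𝓞 K) →*₀ ℂ) s) (Λ s)) ∧ Λ 1 ≠ 0 ∧
      ∃ k, k < n ∧ orderOf χ = p ^ (k + 1) ∧ ∃ z : ℂ, IsPrimitiveRoot z (p ^ (k + 1)) ∧
        ∀ V : ValuationSubring ℂ, V.valuation (p : ℂ) < 1 →
        V.valuation (Λ 1 / Om ^ Module.finrank F K) ^ 2 * V.valuation (p : ℂ) ^ (Module.finrank F K * (k + 2)) =
          V.valuation (z - 1) ^ (2 * Module.finrank F K * H35K.J p (k + 1)) := by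
    intro χ
    by_cases hχ : χ ∈ (XS p n n).erase 1
    · obtain ⟨k, v, hk, ho, ⟨Λ, ha, hs, hv⟩, hv1, z, hz, hV⟩ := hlev χ hχ
      exact ⟨Λ, fun _ => ⟨ha, hs, by rw [hv]; exact hv1, k, hk, ho, z, hz, by rw [hv]; exact hV⟩⟩
    · exact ⟨fun _ => 0, fun h => absurd h hχ⟩
  choose Λ hΛ using hall
  have hb : ∀ χ : DirichletCharacter ℂ (p ^ (n + 1)), ∀ a : Ideal (𝓞 K),
      ‖(PsiP K ψ * chN K χ : Ideal (𝓞 K) →*₀ ℂ) a‖ ^ 2 ≤ Ideal.absNorm a := by
    intro χ a
    refine le_trans ?_ (PsiP_norm_le hψ a)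
    have h4 : (PsiP K ψ * chN K χ : Ideal (𝓞 K) →*₀ ℂ) a = PsiP K ψ a * chN K χ a := rfl
    rw [h4, norm_mul, mul_pow]
    exact mul_le_of_le_one_right (by positivity) (pow_le_one₀ (norm_nonneg _) (chN_norm K χ a))
  refine ⟨Λ₀ 1 * ∏ χ ∈ (XS p n n).erase 1, Λ χ 1,
    ⟨fun s => Λ₀ s * ∏ χ ∈ (XS p n n).erase 1, Λ χ s, fun s hs => (ha0 s hs).mul ?_, fun s hs => ?_, rfl⟩, ?_,
    fun V hV => ?_⟩
  · exact Finset.analyticAt_fun_prod _ fun χ hχ => (hΛ χ hχ).1 s hs
  · have hsum := tm_summable (PsiP N ψ) (fun a => PsiP_norm_le hψ a) s hs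
    have hL := AI_LSeries (PsiP N ψ) (PsiP N ψ).map_zero s hsum
    have hsum1 := tm_summable (PsiP K ψ) (fun a => PsiP_norm_le hψ a) s hs
    have hL1 := AI_LSeries (PsiP K ψ) (PsiP K ψ).map_zero s hsum1
    have hL2 := fun χ => AI_LSeries (PsiP K ψ * chN K χ : Ideal (𝓞 K) →*₀ ℂ)
      (PsiP K ψ * chN K χ : Ideal (𝓞 K) →*₀ ℂ).map_zero s
      (tm_summable (PsiP K ψ * chN K χ : Ideal (𝓞 K) →*₀ ℂ) (hb χ) s hs)
    have hL3 := q6_prod ((XS p n n).erase 1) (fun χ => AI (PsiP K ψ * chN K χ : Ideal (𝓞 K) →*₀ ℂ))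
      (fun χ => Λ χ s) (fun χ hχ => by
        have h3 := hL2 χ
        rw [((hΛ χ hχ).2.1 s hs).tsum_eq] at h3
        exact h3)
    have hL4 := ArithmeticFunction.LSeriesHasSum_mul hL1 hL3
    rw [← q5_AI K N ψ h2 hU h] at hL4
    have h5 : ∑' a, tm (PsiP N ψ) s a = Λ₀ s * ∏ χ ∈ (XS p n n).erase 1, Λ χ s := by
      rw [hL.unique hL4, (hs0 s hs).tsum_eq]
    show HasSum (tm (PsiP N ψ) s) (Λ₀ s * ∏ χ ∈ (XS p n n).erase 1, Λ χ s)
    rw [← h5]
    exact hsum.of_norm.hasSum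
  · refine mul_ne_zero (by rw [hv0]; exact h0') ?_
    exact Finset.prod_ne_zero_iff.2 fun χ hχ => (hΛ χ hχ).2.2.1
  · have hp0 : V.valuation (p : ℂ) ≠ 0 :=
      (Valuation.ne_zero_iff _).2 (Nat.cast_ne_zero.2 hp.out.ne_zero)
    have hcard1 : ((XS p n n).erase 1).card + 1 = p ^ n := by
      rw [Finset.card_erase_of_mem hmem1, hcard, Nat.sub_add_cancel (Nat.one_le_pow _ _ hp.out.pos)]
    have h5 : Om ^ Module.finrank F N = Om ^ Module.finrank F K *
        ∏ χ ∈ (XS p n n).erase 1, Om ^ Module.finrank F K := by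
      rw [← Module.finrank_mul_finrank F K N, hn, pow_mul, Finset.prod_const, ← pow_succ', hcard1]
    have hval : V.valuation (Λ₀ 1 * (∏ χ ∈ (XS p n n).erase 1, Λ χ 1) / Om ^ Module.finrank F N) ^ 2 =
        ∏ χ ∈ (XS p n n).erase 1, V.valuation (Λ χ 1 / Om ^ Module.finrank F K) ^ 2 := by
      rw [h5, mul_div_mul_comm, ← Finset.prod_div_distrib, map_mul, hv0, h1 V hV, one_mul, map_prod, Finset.prod_pow]
    obtain ⟨y, hy⟩ : ∃ y : ℕ → V.ValueGroup, ∀ k, y k * V.valuation (p : ℂ) ^ (Module.finrank F K * (k + 2)) =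
        V.valuation (Complex.exp (2 * Real.pi * Complex.I / ((p ^ (k + 1) : ℕ) : ℂ)) - 1) ^
          (2 * Module.finrank F K * H35K.J p (k + 1)) :=
      ⟨fun k => V.valuation (Complex.exp (2 * Real.pi * Complex.I / ((p ^ (k + 1) : ℕ) : ℂ)) - 1) ^
          (2 * Module.finrank F K * H35K.J p (k + 1)) / V.valuation (p : ℂ) ^ (Module.finrank F K * (k + 2)),
        fun k => div_mul_cancel₀ _ (pow_ne_zero _ hp0)⟩
    have hzz : ∀ k, ∀ z : ℂ, IsPrimitiveRoot z (p ^ (k + 1)) → V.valuation (z - 1) =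
        V.valuation (Complex.exp (2 * Real.pi * Complex.I / ((p ^ (k + 1) : ℕ) : ℂ)) - 1) := by
      intro k z hz
      have hpos : 0 < p ^ (k + 1) := pow_pos hp.out.pos _
      have h6 := q6_root V hz
      have h7 := q6_root V (Complex.isPrimitiveRoot_exp (p ^ (k + 1)) hpos.ne')
      have hne : p ^ (k + 1) - p ^ k ≠ 0 := by
        have : p ^ k < p ^ (k + 1) := Nat.pow_lt_pow_right hp.out.one_lt (Nat.lt_succ_self k)
        omega
      exact (pow_left_inj₀ zero_le zero_le hne).1 (h6.trans h7.symm)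
    have hprod := q4_ord h2 n (fun χ : DirichletCharacter ℂ (p ^ (n + 1)) =>
      if χ ∈ (XS p n n).erase 1 then V.valuation (Λ χ 1 / Om ^ Module.finrank F K) ^ 2 else y (Nat.log p (orderOf χ) - 1)) y ?_
    · rw [Finset.prod_congr rfl (fun χ hχ => if_pos hχ)] at hprod
      rw [hval, hprod]
      have h8 : ∀ m, (∏ k ∈ Finset.range m, y k ^ (p ^ (k + 1) - p ^ k)) * V.valuation (p : ℂ) ^ (Module.finrank F K * En p m) =
          V.valuation (p : ℂ) ^ (2 * Module.finrank F K * ∑ k ∈ Finset.range m, H35K.J p (k + 1)) := by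
        intro m
        induction m with
        | zero => simp [En]
        | succ m ih =>
          have h9 : En p (m + 1) = En p m + (m + 2) * (p ^ (m + 1) - p ^ m) := by
            unfold En
            rw [Finset.sum_range_succ]
          have hpos : 0 < p ^ (m + 1) := pow_pos hp.out.pos _
          have h7 := q6_root V (Complex.isPrimitiveRoot_exp (p ^ (m + 1)) hpos.ne')
          have h10 : y m ^ (p ^ (m + 1) - p ^ m) *
              V.valuation (p : ℂ) ^ (Module.finrank F K * (m + 2) * (p ^ (m + 1) - p ^ m)) =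
              V.valuation (p : ℂ) ^ (2 * Module.finrank F K * H35K.J p (m + 1)) := by
            rw [pow_mul _ (Module.finrank F K * (m + 2)), ← mul_pow, hy m, ← pow_mul, mul_comm _ (p ^ (m + 1) - p ^ m),
              pow_mul, h7]
          obtain ⟨e, he⟩ : ∃ e, e = p ^ (m + 1) - p ^ m := ⟨_, rfl⟩
          rw [← he] at h9 h10
          rw [Finset.prod_range_succ, Finset.sum_range_succ, h9, ← he, mul_add (Module.finrank F K),
            pow_add (V.valuation (p : ℂ)) (Module.finrank F K * En p m), mul_add (2 * Module.finrank F K),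
            pow_add (V.valuation (p : ℂ)) (2 * Module.finrank F K * _), ← ih, ← h10,
            ← mul_assoc (Module.finrank F K) (m + 2)]
          exact mul_mul_mul_comm _ _ _ _
      exact h8 n
    · intro k hk χ hχ
      by_cases hm : χ ∈ (XS p n n).erase 1
      · show (if χ ∈ (XS p n n).erase 1 then _ else _) = _
        rw [if_pos hm]
        obtain ⟨-, -, -, k', hk', ho, z, hz, hVz⟩ := hΛ χ hm
        have hkk : k' = k := by
          have h11 := Nat.pow_right_injective hp.out.two_le (ho.symm.trans hχ)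
          omega
        subst hkk
        have h12 := hVz V hV
        rw [hzz k' z hz, ← hy k'] at h12
        exact mul_right_cancel₀ (pow_ne_zero _ hp0) h12
      · exfalso
        apply hm
        rw [Finset.mem_erase, q4_mem, hχ]
        refine ⟨?_, pow_dvd_pow p (by omega)⟩
        rintro rfl
        rw [orderOf_one] at hχ
        exact absurd hχ (Nat.one_lt_pow k.succ_ne_zero hp.out.one_lt).ne
end

end H55Z
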