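import Mathlib
import Pool.Agent.Lib.H55Z.Q2

/-! # H55Z, part Q: the layers as subfields of the fields of roots of unity; existence of the layers -/

open NumberField IsDedekindDomain

namespace H55Z

variable {p : ℕ} [hp : Fact p.Prime] {n : ℕ}

theorem q7_cop (p n : ℕ) [hp : Fact p.Prime] : Nat.Coprime (p ^ n) (p - 1) := by
  apply Nat.Coprime.pow_left
  have h8 := (Nat.coprime_self_add_left (m := p - 1) (n := 1)).2 (Nat.coprime_one_left _)
  rwa [Nat.sub_add_cancel hp.out.one_le] at h8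

/-- The n-th layer over the rationals. -/
theorem q7_QC (h2 : p ≠ 2) (n : ℕ) : ∃ Q : IntermediateField ℚ (CyclotomicField (p ^ (n + 1)) ℚ), Module.finrank ℚ Q = p ^ n := by
  have := p3_ne (p := p) n
  have := p3_cyc (p := p) n
  have hG : IsGalois ℚ (CyclotomicField (p ^ (n + 1)) ℚ) := IsCyclotomicExtension.isGalois {p ^ (n + 1)} ℚ _
  let e := IsCyclotomicExtension.autEquivPow (CyclotomicField (p ^ (n + 1)) ℚ)
    (Polynomial.cyclotomic.irreducible_rat (n := p ^ (n + 1)) (NeZero.pos _))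
  have hcyc := ZMod.isCyclic_units_of_prime_pow p hp.out h2 (n + 1)
  have hcard : Nat.card (ZMod (p ^ (n + 1)))ˣ = p ^ n * (p - 1) := by
    rw [Nat.card_eq_fintype_card, ZMod.card_units_eq_totient, Nat.totient_prime_pow hp.out n.succ_pos]
    rfl
  have h1 := IsCyclic.card_powMonoidHom_ker (G := (ZMod (p ^ (n + 1)))ˣ) (p - 1)
  rw [hcard, Nat.gcd_eq_right (Dvd.intro_left _ rfl)] at h1
  let H : Subgroup (Gal(CyclotomicField (p ^ (n + 1)) ℚ/ℚ)) :=
    (powMonoidHom (p - 1) : (ZMod (p ^ (n + 1)))ˣ →* (ZMod (p ^ (n + 1)))ˣ).ker.map (e.symm : _ →* _)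
  have h3 : Nat.card H = p - 1 := by
    rw [← h1]
    exact (Nat.card_congr (Subgroup.equivMapOfInjective _ _ e.symm.injective).toEquiv).symm
  refine ⟨IntermediateField.fixedField H, ?_⟩
  have h4 := IntermediateField.finrank_fixedField_eq_card H
  rw [h3] at h4
  have h5 := Module.finrank_mul_finrank ℚ (IntermediateField.fixedField H) (CyclotomicField (p ^ (n + 1)) ℚ)
  have h6 : Module.finrank ℚ (CyclotomicField (p ^ (n + 1)) ℚ) = p ^ n * (p - 1) := by
    rw [IsCyclotomicExtension.finrank (n := p ^ (n + 1)) (CyclotomicField (p ^ (n + 1)) ℚ)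
      (Polynomial.cyclotomic.irreducible_rat (NeZero.pos _)), Nat.totient_prime_pow hp.out n.succ_pos]
    rfl
  rw [h4, h6] at h5
  have hp1 : 0 < p - 1 := by
    have := hp.out.two_le
    omega
  exact Nat.eq_of_mul_eq_mul_right hp1 h5

variable {M K : Type} [Field M] [NumberField M] [Field K] [NumberField K] [Algebra M K]

/-- In a cyclotomic extension L of M there is a field of degree p^n over the rationals. -/
theorem q7_QL (h2 : p ≠ 2) (n : ℕ) {L : Type} [Field L] [NumberField L] {ζ : L} (hζ : IsPrimitiveRoot ζ (p ^ (n + 1))) :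
    ∃ Q : IntermediateField ℚ L, Module.finrank ℚ Q = p ^ n ∧ Nonempty (Q →ₐ[ℚ] CyclotomicField (p ^ (n + 1)) ℚ) := by
  have := p3_ne (p := p) n
  have := p3_cyc (p := p) n
  obtain ⟨Q, hQ⟩ := q7_QC (p := p) h2 n
  have hζC : IsPrimitiveRoot (IsCyclotomicExtension.zeta (p ^ (n + 1)) ℚ (CyclotomicField (p ^ (n + 1)) ℚ)) (p ^ (n + 1)) :=
    IsCyclotomicExtension.zeta_spec _ _ _
  have hroot : Polynomial.aeval ζ (minpoly ℚ (IsCyclotomicExtension.zeta (p ^ (n + 1)) ℚ (CyclotomicField (p ^ (n + 1)) ℚ))) = 0 := by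
    rw [← Polynomial.cyclotomic_eq_minpoly_rat hζC (NeZero.pos _)]
    rw [Polynomial.aeval_def, ← Polynomial.eval_map, Polynomial.map_cyclotomic]
    exact hζ.isRoot_cyclotomic (NeZero.pos _)
  let g : CyclotomicField (p ^ (n + 1)) ℚ →ₐ[ℚ] L := (hζC.powerBasis ℚ).lift ζ hroot
  let e : Q ≃ₐ[ℚ] Q.map g := Q.equivMap g
  refine ⟨Q.map g, ?_, ⟨Q.val.comp (e.symm : Q.map g →ₐ[ℚ] Q)⟩⟩
  rw [← hQ]
  exact e.toLinearEquiv.finrank_eq.symm

/-- The field generated over M by the field of degree p^n. -/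
theorem q7_adj {L : Type} [Field L] [NumberField L] [Algebra M L] (Q : IntermediateField ℚ L) (hQ : Module.finrank ℚ Q = p ^ n)
    (f : Q →ₐ[ℚ] CyclotomicField (p ^ (n + 1)) ℚ) : Layer p n M (IntermediateField.adjoin M (Q : Set L)) := by
  have hle : ∀ x : Q, (x : L) ∈ IntermediateField.adjoin M (Q : Set L) := fun x => IntermediateField.subset_adjoin M _ x.2
  let j : Q →ₐ[ℚ] IntermediateField.adjoin M (Q : Set L) :=
    RingHom.toRatAlgHom
      { toFun := fun x => ⟨(x : L), hle x⟩
        map_one' := rfl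
        map_mul' := fun _ _ => rfl
        map_zero' := rfl
        map_add' := fun _ _ => rfl }
  let e : Q ≃ₐ[ℚ] j.fieldRange := AlgEquiv.ofInjectiveField j
  refine ⟨j.fieldRange, ?_, ⟨f.comp (e.symm : j.fieldRange →ₐ[ℚ] Q)⟩, ?_⟩
  · rw [← hQ]
    exact e.toLinearEquiv.finrank_eq.symm
  · rw [eq_top_iff]
    rintro ⟨x, hx⟩ -
    have h1 : (IntermediateField.adjoin M (Q : Set L)).toSubalgebra = Algebra.adjoin M (Q : Set L) :=
      IntermediateField.adjoin_toSubalgebra_of_isAlgebraic fun y _ => Algebra.IsAlgebraic.isAlgebraic y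
    have hx' : x ∈ Algebra.adjoin M (Q : Set L) := by
      rw [← h1]
      exact hx
    refine Algebra.adjoin_induction (p := fun x _ => ∀ hx : x ∈ IntermediateField.adjoin M (Q : Set L),
      (⟨x, hx⟩ : IntermediateField.adjoin M (Q : Set L)) ∈ Algebra.adjoin M (j.fieldRange : Set (IntermediateField.adjoin M (Q : Set L))))
      ?_ ?_ ?_ ?_ hx' hx
    · intro y hy hy'
      exact Algebra.subset_adjoin ⟨⟨y, hy⟩, rfl⟩
    · intro r hr
      exact Subalgebra.algebraMap_mem _ r
    · intro a b ha hb iha ihb hab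
      have ha' : a ∈ IntermediateField.adjoin M (Q : Set L) := by
        have h3 : a ∈ (IntermediateField.adjoin M (Q : Set L)).toSubalgebra := h1 ▸ ha
        exact h3
      have hb' : b ∈ IntermediateField.adjoin M (Q : Set L) := by
        have h3 : b ∈ (IntermediateField.adjoin M (Q : Set L)).toSubalgebra := h1 ▸ hb
        exact h3
      exact add_mem (iha ha') (ihb hb')
    · intro a b ha hb iha ihb hab
      have ha' : a ∈ IntermediateField.adjoin M (Q : Set L) := by
        have h3 : a ∈ (IntermediateField.adjoin M (Q : Set L)).toSubalgebra := h1 ▸ ha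
        exact h3
      have hb' : b ∈ IntermediateField.adjoin M (Q : Set L) := by
        have h3 : b ∈ (IntermediateField.adjoin M (Q : Set L)).toSubalgebra := h1 ▸ hb
        exact h3
      exact mul_mem (iha ha') (ihb hb')

/-- Existence of the layers. -/
theorem q7_ex (h2 : p ≠ 2) (n : ℕ) (M : Type) [Field M] [NumberField M] :
    ∃ K : IntermediateField M (CyclotomicField (p ^ (n + 1)) M), Layer p n M K := by
  have := p3_ne (p := p) n
  have hζ := IsCyclotomicExtension.zeta_spec (p ^ (n + 1)) M (CyclotomicField (p ^ (n + 1)) M)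
  obtain ⟨Q, hQ, ⟨f⟩⟩ := q7_QL h2 n hζ
  exact ⟨_, q7_adj Q hQ f⟩

/-- A subfield of degree p^n of the field of the p^(n+1)-th roots of unity over M is the n-th layer. -/
theorem q7_conv (h2 : p ≠ 2) (hU : ¬ (p : ℤ) ∣ NumberField.discr M) (hK : Module.finrank M K = p ^ n)
    (φ : K →ₐ[M] CyclotomicField (p ^ (n + 1)) M) : Layer p n M K := by
  have := p3_ne (p := p) n
  obtain ⟨L, i1, i2, i3, i5, hcK, ⟨φ⟩⟩ : ∃ (L : Type) (_ : Field L) (_ : NumberField L) (_ : Algebra M L)
      (_ : IsCyclotomicExtension {p ^ (n + 1)} M L), True ∧ Nonempty (K →ₐ[M] L) :=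
    ⟨CyclotomicField (p ^ (n + 1)) M, inferInstance, inferInstance, inferInstance, inferInstance, trivial, ⟨φ⟩⟩
  have hζ := IsCyclotomicExtension.zeta_spec (p ^ (n + 1)) M L
  obtain ⟨Q, hQ, ⟨f⟩⟩ := q7_QL h2 n hζ
  have habQ := p3_gal f
  have hGQ : IsGalois ℚ Q := habQ.toIsGalois
  let _ : Algebra K L := φ.toRingHom.toAlgebra
  have ht : IsScalarTower M K L := IsScalarTower.of_algebraMap_eq fun x => (φ.commutes x).symm
  have hGL : IsGalois M L := IsCyclotomicExtension.isGalois {p ^ (n + 1)} M L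
  have hGKL : IsGalois K L := IsGalois.tower_top_of_isGalois M K L
  have hdeg := q2_deg (K := M) (N := K) (L := L) hK
  -- Q is contained in K
  have hmem : ∀ x : Q, ∃ y : K, algebraMap K L y = (x : L) := by
    intro x
    have h3 : ∀ σ : Gal(L/K), σ (x : L) = x := by
      intro σ
      let τ : Gal(L/ℚ) := AlgEquiv.restrictScalarsHom ℚ σ
      have hτ : ∀ y : L, τ y = σ y := fun y => rfl
      have h4 : σ ^ (p - 1) = 1 := by
        obtain ⟨d, hd⟩ := hdeg
        rw [hd, pow_mul, pow_card_eq_one', one_pow]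
      have h5 : (AlgEquiv.restrictNormalHom Q τ) ^ (p - 1) = 1 := by
        rw [← map_pow, ← map_pow, h4, map_one, map_one]
      have h6 : (AlgEquiv.restrictNormalHom Q τ) ^ p ^ n = 1 := by
        have h7 : Nat.card (Gal(Q/ℚ)) = p ^ n := by
          rw [IsGalois.card_aut_eq_finrank, hQ]
        rw [← h7]
        exact pow_card_eq_one'
      have h8 := Nat.dvd_gcd (orderOf_dvd_of_pow_eq_one h6) (orderOf_dvd_of_pow_eq_one h5)
      rw [Nat.Coprime.gcd_eq_one (q7_cop p n)] at h8
      have h9 := orderOf_eq_one_iff.1 (Nat.dvd_one.1 h8)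
      have h10 := AlgEquiv.restrictNormal_commutes τ Q x
      have h11 : τ.restrictNormal Q = 1 := h9
      rw [h11] at h10
      rw [← hτ]
      exact h10.symm
    have h4 := (IsGalois.mem_bot_iff_fixed (F := K) (x : L)).2 h3
    rw [IntermediateField.mem_bot] at h4
    exact h4
  let R : IntermediateField ℚ L := (φ.toRingHom.toRatAlgHom).fieldRange
  let e : K ≃ₐ[ℚ] R := AlgEquiv.ofInjectiveField φ.toRingHom.toRatAlgHom
  have hQR : Q ≤ R := fun x hx => hmem ⟨x, hx⟩
  let j : Q →ₐ[ℚ] K := (e.symm : R →ₐ[ℚ] K).comp (IntermediateField.inclusion hQR)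
  have hj : ∀ x : Q, φ (j x) = (x : L) := by
    intro x
    have h3 : e (j x) = IntermediateField.inclusion hQR x := e.apply_symm_apply _
    exact congrArg Subtype.val h3
  let e' : Q ≃ₐ[ℚ] j.fieldRange := AlgEquiv.ofInjectiveField j
  refine ⟨j.fieldRange, ?_, ⟨f.comp (e'.symm : j.fieldRange →ₐ[ℚ] Q)⟩, ?_⟩
  · rw [← hQ]
    exact e'.toLinearEquiv.finrank_eq.symm
  · have hN := layer_disc h2 hU (q7_adj (M := M) Q hQ f)
    have hle : IntermediateField.adjoin M (Q : Set L) ≤ φ.fieldRange := by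
      rw [IntermediateField.adjoin_le_iff]
      intro x hx
      exact hmem ⟨x, hx⟩
    have hK' : Module.finrank M φ.fieldRange = p ^ n := by
      rw [← hK]
      exact (AlgEquiv.ofInjectiveField φ).toLinearEquiv.finrank_eq.symm
    have heq := IntermediateField.eq_of_le_of_finrank_eq hle (hN.1.trans hK'.symm)
    have h1 : (IntermediateField.adjoin M (Q : Set L)).toSubalgebra = Algebra.adjoin M (Q : Set L) :=
      IntermediateField.adjoin_toSubalgebra_of_isAlgebraic fun y _ => Algebra.IsAlgebraic.isAlgebraic y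
    have himg : φ '' (j.fieldRange : Set K) = (Q : Set L) := by
      ext x
      constructor
      · rintro ⟨_, ⟨y, rfl⟩, rfl⟩
        show φ (j y) ∈ Q
        rw [hj]
        exact y.2
      · intro hx
        exact ⟨j ⟨x, hx⟩, ⟨⟨x, hx⟩, rfl⟩, hj ⟨x, hx⟩⟩
    rw [eq_top_iff]
    intro x _
    have h3 : φ x ∈ Algebra.adjoin M (Q : Set L) := by
      rw [← h1, heq]
      exact ⟨x, rfl⟩
    rw [← himg, ← AlgHom.map_adjoin] at h3
    obtain ⟨y, hy, hxy⟩ := h3
    rw [← φ.injective hxy]
    exact hy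

end H55Z
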