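import Mathlib
import Pool.Agent.Lib.H13R.Main
import Pool.Agent.Lib.H55Z.Q7

/-! # H55Z, part Q: the layer over KG -/

open NumberField IsDedekindDomain

namespace H55Z

open H55P (IQ)
open H55K.TQ

variable {p : ℕ} [hp : Fact p.Prime] {n : ℕ} {F : Type} [Field F] [NumberField F] [IQ F] {M K : Type} [Field M] [NumberField M]
  [Field K] [NumberField K] [Algebra M K]

theorem q8_le (ιM : M →ₐ[ℚ] AlgebraicClosure F) (ιK : K →ₐ[ℚ] AlgebraicClosure F) (hι : ∀ x : M, ιK (algebraMap M K x) = ιM x) :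
    KG F M ιM ≤ KG F K ιK := by
  unfold KG
  rw [IntermediateField.adjoin_le_iff]
  rintro _ ⟨x, rfl⟩
  exact IntermediateField.subset_adjoin F _ ⟨algebraMap M K x, hι x⟩

/-- An embedding of K which extends a given embedding of M. -/
theorem q8_ext (ιM : M →ₐ[ℚ] AlgebraicClosure F) : ∃ ιK : K →ₐ[ℚ] AlgebraicClosure F, ∀ x : M, ιK (algebraMap M K x) = ιM x := by
  let _ : Algebra M (AlgebraicClosure F) := ιM.toRingHom.toAlgebra
  have h1 : Algebra.IsAlgebraic M K := inferInstance
  let g : K →ₐ[M] AlgebraicClosure F := IsAlgClosed.lift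
  exact ⟨g.toRingHom.toRatAlgHom, fun x => g.commutes x⟩

theorem q8_layer (h : Layer p n M K) (ιM : M →ₐ[ℚ] AlgebraicClosure F) (ιK : K →ₐ[ℚ] AlgebraicClosure F)
    (hι : ∀ x : M, ιK (algebraMap M K x) = ιM x) (hle : KG F M ιM ≤ KG F K ιK) :
    letI : Algebra (KG F M ιM) (KG F K ιK) := (IntermediateField.inclusion hle).toRingHom.toAlgebra
    Layer p n (KG F M ιM) (KG F K ιK) := by
  letI i : Algebra (KG F M ιM) (KG F K ιK) := (IntermediateField.inclusion hle).toRingHom.toAlgebra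
  obtain ⟨Q, hQ, ⟨f⟩, htop⟩ := h
  let κ : K →ₐ[ℚ] KG F K ιK := (KGmap F K ιK).toRatAlgHom
  let e : Q ≃ₐ[ℚ] Q.map κ := Q.equivMap κ
  refine ⟨Q.map κ, ?_, ⟨f.comp (e.symm : Q.map κ →ₐ[ℚ] Q)⟩, ?_⟩
  · rw [← hQ]
    exact e.toLinearEquiv.finrank_eq.symm
  · have hK : ∀ x : K, κ x ∈ Algebra.adjoin (KG F M ιM) ((Q.map κ : IntermediateField ℚ (KG F K ιK)) : Set (KG F K ιK)) := by
      intro x
      have h4 : x ∈ Algebra.adjoin M (Q : Set K) := htop ▸ Algebra.mem_top
      refine Algebra.adjoin_induction (p := fun x _ => κ x ∈ Algebra.adjoin (KG F M ιM)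
        ((Q.map κ : IntermediateField ℚ (KG F K ιK)) : Set (KG F K ιK))) ?_ ?_ ?_ ?_ h4
      · intro y hy
        exact Algebra.subset_adjoin ⟨y, hy, rfl⟩
      · intro r
        have h5 : κ (algebraMap M K r) = algebraMap (KG F M ιM) (KG F K ιK) (KGmap F M ιM r) := by
          apply Subtype.ext
          exact hι r
        rw [h5]
        exact Subalgebra.algebraMap_mem _ _
      · intro a b _ _ ha hb
        rw [map_add]
        exact add_mem ha hb
      · intro a b _ _ ha hb
        rw [map_mul]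
        exact mul_mem ha hb
    rw [eq_top_iff]
    rintro ⟨z, hz⟩ -
    have h1 : (KG F K ιK).toSubalgebra = Algebra.adjoin F (Set.range ιK) :=
      IntermediateField.adjoin_toSubalgebra_of_isAlgebraic fun y _ => Algebra.IsAlgebraic.isAlgebraic y
    have hz' : z ∈ Algebra.adjoin F (Set.range ιK) := by
      rw [← h1]
      exact hz
    have hmem : ∀ a, a ∈ Algebra.adjoin F (Set.range ιK) → a ∈ KG F K ιK := by
      intro a ha
      have h3 : a ∈ (KG F K ιK).toSubalgebra := h1 ▸ ha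
      exact h3
    refine Algebra.adjoin_induction (p := fun z _ => ∀ hz : z ∈ KG F K ιK,
      (⟨z, hz⟩ : KG F K ιK) ∈ Algebra.adjoin (KG F M ιM) ((Q.map κ : IntermediateField ℚ (KG F K ιK)) : Set (KG F K ιK)))
      ?_ ?_ ?_ ?_ hz' hz
    · rintro _ ⟨x, rfl⟩ hx
      exact hK x
    · intro r hr
      have h5 : (⟨algebraMap F (AlgebraicClosure F) r, hr⟩ : KG F K ιK) =
          algebraMap (KG F M ιM) (KG F K ιK) (algebraMap F (KG F M ιM) r) := by
        apply Subtype.ext
        rfl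
      rw [h5]
      exact Subalgebra.algebraMap_mem _ _
    · intro a b ha hb iha ihb hab
      exact add_mem (iha (hmem a ha)) (ihb (hmem b hb))
    · intro a b ha hb iha ihb hab
      exact mul_mem (iha (hmem a ha)) (ihb (hmem b hb))

end H55Z
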