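import Mathlib
import Pool.Agent.Lib.H55Z.Q6
import Pool.Agent.Lib.H55Z.Q8

/-! # H55Z, part Q: the analytic part over the layers -/

open NumberField IsDedekindDomain WeierstrassCurve

namespace H55Z

open H55P (IQ UnitP UnrP PExt)
open H55K H55K.TQ

variable {p : ℕ} [hpf : Fact p.Prime] {n : ℕ} {F : Type} [Field F] [NumberField F] [IQ F]

/-- The layer over KG is a Galois p-extension. -/
theorem q9_pext {M' K' : IntermediateField F (AlgebraicClosure F)} [NumberField M'] [NumberField K'] (hle : M' ≤ K')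
    (hn : letI : Algebra M' K' := (IntermediateField.inclusion hle).toRingHom.toAlgebra; Module.finrank M' K' = p ^ n)
    (h : letI : Algebra M' K' := (IntermediateField.inclusion hle).toRingHom.toAlgebra; Layer p n M' K') : PExt p M' K' := by
  letI i : Algebra M' K' := (IntermediateField.inclusion hle).toRingHom.toAlgebra
  have hab := q2_ab h
  have hG : IsGalois M' K' := hab.toIsGalois
  have hst : IsScalarTower F M' K' := IsScalarTower.of_algebraMap_eq fun x => rfl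
  have hst2 : IsScalarTower M' K' (AlgebraicClosure F) := IsScalarTower.of_algebraMap_eq fun x => rfl
  have hfd : FiniteDimensional F K' := Module.Finite.of_restrictScalars_finite ℚ F K'
  refine ⟨hfd, hle, fun s hs x hx => ?_, n, ?_⟩
  · let s' : AlgebraicClosure F ≃ₐ[M'] AlgebraicClosure F := IntermediateField.fixingSubgroupEquiv M' ⟨s, hs⟩
    have h1 := AlgHom.restrictNormal_commutes (s' : AlgebraicClosure F →ₐ[M'] AlgebraicClosure F) K' ⟨x, hx⟩
    have h2 : s x = ((s' : AlgebraicClosure F →ₐ[M'] AlgebraicClosure F).restrictNormal K' ⟨x, hx⟩ : K') := h1.symm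
    rw [h2]
    exact SetLike.coe_mem _
  · rw [← hn]
    exact (Module.finrank_mul_finrank F M' K').symm

theorem q9_conj {x : ℂ} {a b : ℕ} (hx0 : x ≠ 0)
    (h : ∀ V : ValuationSubring ℂ, V.valuation (p : ℂ) < 1 → V.valuation x ^ 2 * V.valuation (p : ℂ) ^ a = V.valuation (p : ℂ) ^ b)
    (V : ValuationSubring ℂ) (hV : V.valuation (p : ℂ) < 1) :
    V.valuation ((starRingEnd ℂ) x) ^ 2 * V.valuation (p : ℂ) ^ a = V.valuation (p : ℂ) ^ b := by
  have hp0 : (p : ℂ) ≠ 0 := Nat.cast_ne_zero.2 hpf.out.ne_zero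
  have h1 : UnitP p (x ^ 2 * (p : ℂ) ^ a / (p : ℂ) ^ b) := by
    intro A hA
    have hA0 : A.valuation (p : ℂ) ≠ 0 := (Valuation.ne_zero_iff _).2 hp0
    rw [map_div₀, map_mul, map_pow, map_pow, map_pow, h A hA]
    exact div_self (pow_ne_zero _ hA0)
  have h2 := H55P.pz6_conj hpf.out (div_ne_zero (mul_ne_zero (pow_ne_zero 2 hx0) (pow_ne_zero a hp0)) (pow_ne_zero b hp0)) h1 V hV
  rw [map_div₀, map_mul, map_pow, map_pow, map_pow, map_natCast, map_div₀, map_mul, map_pow, map_pow, map_pow] at h2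
  have hV0 : V.valuation (p : ℂ) ≠ 0 := (Valuation.ne_zero_iff _).2 hp0
  exact (div_eq_one_iff_eq (pow_ne_zero _ hV0)).1 h2

theorem q9_val {Γ : Type} [LinearOrderedCommGroupWithZero Γ] {x y P D r : Γ} {a b : ℕ} (hP : P ≠ 0) (hx : x ^ 2 * P ^ a = P ^ b)
    (hy : y ^ 2 * P ^ a = P ^ b) (hD : D ^ 2 = P ^ (a + a)) (hr : r = x * y * D) : r = P ^ b := by
  have h1 : r ^ 2 = (P ^ b) ^ 2 := by
    calc r ^ 2 = (x ^ 2 * P ^ a) * (y ^ 2 * P ^ a) := by
          rw [hr, mul_pow, mul_pow, hD, pow_add]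
          exact mul_mul_mul_comm _ _ _ _
      _ = (P ^ b) ^ 2 := by rw [hx, hy, sq]
  exact (pow_left_inj₀ zero_le zero_le two_ne_zero).1 h1

theorem q9_val2 {Γ : Type} [LinearOrderedCommGroupWithZero Γ] {x P D r : Γ} {a b : ℕ} (hx : x ^ 2 * P ^ a = P ^ (2 * b))
    (hD : D ^ 2 = P ^ a) (hr : r = x * D) : r = P ^ b := by
  have h1 : r ^ 2 = (P ^ b) ^ 2 := by
    rw [hr, mul_pow, hD, hx, ← pow_mul, mul_comm]
  exact (pow_left_inj₀ zero_le zero_le two_ne_zero).1 h1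

variable {W : WeierstrassCurve ℤ} {Om : ℂ} {m : Ideal (𝓞 F)} {ψ : Ideal (𝓞 F) →*₀ 𝓞 F} {M K : Type} [Field M] [NumberField M]
  [Field K] [NumberField K] [Algebra M K]

/-- The analytic part over the n-th layer K of M. -/
theorem q9_main (hH : BaseH F (W⁄(𝓞 F)) Om m ψ) (hp : PrimeH F (W⁄(𝓞 F)) p) (ιM : M →ₐ[ℚ] AlgebraicClosure F)
    (hUM : UnrP p M) (hUG : UnrP p (KG F M ιM)) (hB : H13R.BadM (W⁄(𝓞 F)) (KG F M ιM)) (hL : H13R.LUnitG p W M) (h : Layer p n M K)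
    (hE : ∀ k, 1 ≤ k → k ≤ n → ∀ χ : DirichletCharacter ℂ (p ^ (k + 1)), orderOf χ = p ^ k → ValK F (KG F M ιM) p Om ψ k χ) :
    ∃ Λ : ℂ → ℂ, AnalyticOnNhd ℂ Λ {s | 1 / 2 < s.re} ∧
      (∀ s : ℂ, 3 / 2 < s.re → LSeriesSummable (fun n => (((W⁄K).LFunction n : ℤ) : ℂ)) s ∧ Λ s = (W⁄K).LSeries s) ∧
      Λ 1 ≠ 0 ∧
      ∀ L : PeriodPair, PerZ W L → ∀ V : ValuationSubring ℂ, V.valuation (p : ℂ) < 1 →
        V.valuation (lG K W L (Λ 1)) =
          V.valuation (p : ℂ) ^ (Module.finrank ℚ M * ∑ k ∈ Finset.range n, H35K.J p (k + 1)) := by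
  classical
  have h5 := hp.five
  have h2 : p ≠ 2 := by omega
  have hpp : p.Prime := hp.prime
  obtain ⟨ιK, hι⟩ := q8_ext (K := K) ιM
  have hle := q8_le ιM ιK hι
  letI i : Algebra (KG F M ιM) (KG F K ιK) := (IntermediateField.inclusion hle).toRingHom.toAlgebra
  have hlay : Layer p n (KG F M ιM) (KG F K ιK) := q8_layer h ιM ιK hι hle
  have hst : IsScalarTower F (KG F M ιM) (KG F K ιK) := IsScalarTower.of_algebraMap_eq fun x => rfl
  have hfd : FiniteDimensional F (KG F M ιM) := H13R.kg_fin F M ιM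
  have hI := H13R.gen_intR hH hp hUG (H13R.pext_self p (KG F M ιM)) le_rfl le_rfl hUG
  obtain ⟨Φ₀, hΦ₀a, hΦ₀s, hΦ₀1, hΦ₀u⟩ := (H13R.lunit_iff hH hp M (KG F M ιM) (H13R.lrelM hH M ιM hB) hUM hI).1 hL
  have hdG := H55P.pl1_discr p hpp hUG
  have hdM := H55P.pl1_discr p hpp hUM
  have hnG := (layer_disc h2 hdG hlay).1
  have hnM := (layer_disc h2 hdM h).1
  obtain ⟨v, ⟨Φ, hΦa, hΦs, hΦ1⟩, hv0, hval⟩ := q6_val (KG F M ιM) (KG F K ιK) hH.data.hecke h2 hdG hlay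
    (Om := Om) ⟨Φ₀, hΦ₀a, hΦ₀s, rfl⟩ hΦ₀1 hΦ₀u hE
  have hpx : PExt p (KG F M ιM) (KG F K ιK) := q9_pext hle hnG hlay
  have hR : LRel W ψ K (KG F K ιK) := H13R.lrelR hH K ιK fun w hw => H13R.bad_KR hH hp hpx hle le_rfl hB w hw
  obtain ⟨Λ, hΛa, hΛs, hΛ1, hΛv⟩ := lG_relD hH hp K (KG F K ιK) hR hΦa hΦs
  have hOm : Om ≠ 0 := hH.data.per.ne
  refine ⟨Λ, hΛa, hΛs, hΛ1 (by rw [hΦ1]; exact hv0), fun L hL V hV => ?_⟩
  have hp0 : V.valuation (p : ℂ) ≠ 0 := (Valuation.ne_zero_iff _).2 (Nat.cast_ne_zero.2 hpp.ne_zero)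
  have hsD := layer_sD h2 hdM h V hV
  have hx := hval V hV
  have hx0 : v / Om ^ Module.finrank F (KG F K ιK) ≠ 0 := div_ne_zero hv0 (pow_ne_zero _ hOm)
  have hxc := q9_conj hx0 hval V hV
  have e1 : Module.finrank ℚ K = Module.finrank ℚ M * p ^ n := by
    rw [← hnM]
    exact (Module.finrank_mul_finrank ℚ M K).symm
  have e2 : Module.finrank F (KG F K ιK) = Module.finrank F (KG F M ιM) * p ^ n := by
    rw [← hnG]
    exact (Module.finrank_mul_finrank F (KG F M ιM) (KG F K ιK)).symm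
  have hpos : 0 < p ^ n := pow_pos hpp.pos n
  rcases hΛv V hV L hL with ⟨hd, hl⟩ | ⟨hd, hl⟩
  · have e3 : Module.finrank ℚ M = 2 * Module.finrank F (KG F M ιM) := by
      rw [e1, e2, ← mul_assoc] at hd
      exact Nat.eq_of_mul_eq_mul_right hpos hd
    rw [hΦ1] at hl
    rw [e3]
    refine q9_val hp0 hx hxc ?_ hl
    rw [hsD, e3]
    congr 1
    ring
  · have e3 : Module.finrank ℚ M = Module.finrank F (KG F M ιM) := by
      rw [e1, e2] at hd
      exact Nat.eq_of_mul_eq_mul_right hpos hd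
    rw [hΦ1] at hl
    rw [e3]
    refine q9_val2 (a := Module.finrank F (KG F M ιM) * En p n) ?_ ?_ hl
    · rw [hx]
      congr 1
      ring
    · rw [hsD, e3, mul_comm]

end H55Z
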