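import Mathlib
import Pool.Agent.Lib.H28R.W12
import Pool.Agent.Lib.H55R.BF1
import Pool.Agent.Lib.H55R.BF2

/-! # H55Z: decomposition groups above p in the wreath step

If N/C is generated by p-th roots of elements congruent to 1 modulo p^2 (ζ in C) then the decomposition groups of the primes above p are
trivial. -/

open NumberField IsDedekindDomain

namespace H55Z

open H28R H55P H55R

theorem s1_val {C N : Type} [Field C] [NumberField C] [Field N] [NumberField N] [Algebra C N]
    (σ : Gal(N/C)) (W : Pl N) (h : smulP σ W = W) (y : N) : W.valuation N (σ y) = W.valuation N y := by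
  by_cases hy : y = 0
  · rw [hy, map_zero]
  · have h1 := ord_smul σ W (Units.mk0 y hy)
    rw [h] at h1
    have h2 := BF1_val W (Units.mk0 y hy)
    have h3 := BF1_val W (Units.map ((σ : N ≃ₐ[C] N) : N →* N) (Units.mk0 y hy))
    rw [h1] at h3
    exact h3.trans h2.symm

/-- 1 - z^j and 1 - z have the same valuation. -/
theorem s1_ge {N : Type} [Field N] [NumberField N] (W : Pl N) {z μ : N} {p : ℕ} (hp : p.Prime)
    (hz : IsPrimitiveRoot z p) (hμ : μ ^ p = 1) (hne : μ ≠ 1) :
    W.valuation N (1 - z) ≤ W.valuation N (1 - μ) := by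
  have hμp : IsPrimitiveRoot μ p := by
    have h2 := orderOf_eq_prime (p := p) (hp := ⟨hp⟩) hμ hne
    rw [← h2]
    exact IsPrimitiveRoot.orderOf μ
  have := NeZero.mk hp.ne_zero
  obtain ⟨j, -, hj⟩ := hμp.eq_pow_of_pow_eq_one hz.pow_eq_one
  have hv : W.valuation N μ = 1 := by
    refine W12_root W hp.ne_zero ?_
    rw [← map_pow, hμ, map_one]
  rw [← hj]
  exact W12_pow W hv j

theorem dec_one {p : ℕ} (hp : p.Prime) (h3 : 3 ≤ p) {C N : Type} [Field C] [NumberField C] [Field N]
    [NumberField N] [Algebra C N] {ζ : C} (hζ : IsPrimitiveRoot ζ p) (R : Set N)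
    (hgen : Algebra.adjoin C R = ⊤) (W : Pl N) (hpW : (p : 𝓞 N) ∈ W.asIdeal)
    (hR : ∀ x ∈ R, ∃ c : Cˣ, x ^ p = algebraMap C N c ∧ ∃ a : 𝓞 C, (a : C) = c ∧ (p : 𝓞 C) ^ 2 ∣ a - 1)
    (σ : Gal(N/C)) (hσ : smulP σ W = W) : σ = 1 := by
  classical
  have hζN : IsPrimitiveRoot (algebraMap C N ζ) p := hζ.map_of_injective (algebraMap C N).injective
  have hne0 : NeZero p := ⟨hp.ne_zero⟩
  set z : N := algebraMap C N ζ with hzdef
  have hz1 : z ≠ 1 := hζN.ne_one hp.one_lt
  have hvz : W.valuation N z = 1 := by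
    refine W12_root W hp.ne_zero ?_
    rw [← map_pow, hζN.pow_eq_one, map_one]
  have hσfix : ∀ μ : N, μ ^ p = 1 → σ μ = μ := by
    intro μ hμ
    obtain ⟨i, -, hi⟩ := hζN.eq_pow_of_pow_eq_one hμ
    rw [← hi, hzdef, ← map_pow]
    exact σ.commutes _
  have hplt : W.valuation N (p : N) < 1 := by
    have h1 : W.valuation N (algebraMap (𝓞 N) N (p : 𝓞 N)) < 1 := (W.valuation_lt_one_iff_mem (K := N) (p : 𝓞 N)).2 hpW
    rwa [map_natCast] at h1
  have hzne : (1 - z) ≠ 0 := sub_ne_zero.2 hz1.symm
  have hz0 : W.valuation N (1 - z) ≠ 0 := (Valuation.ne_zero_iff _).2 hzne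
  -- 1 - z is not a unit
  have hzlt : W.valuation N (1 - z) < 1 := by
    have hle : W.valuation N (1 - z) ≤ 1 := by
      refine (Valuation.map_sub_le (v := W.valuation N) (g := 1) ?_ ?_)
      · rw [map_one]
      · exact hvz.le
    refine lt_of_le_of_ne hle fun h1 => ?_
    -- the product of the 1 - μ is p
    have e1 : (p : N) = ∏ μ ∈ primitiveRoots p N, (1 - μ) := by
      have := Fact.mk hp
      rw [← Polynomial.eval_one_cyclotomic_prime (R := N) (p := p),
        Polynomial.cyclotomic_eq_prod_X_sub_primitiveRoots hζN, Polynomial.eval_prod]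
      refine Finset.prod_congr rfl fun μ _ => ?_
      rw [Polynomial.eval_sub, Polynomial.eval_X, Polynomial.eval_C]
    have e2 : 1 ≤ W.valuation N (p : N) := by
      rw [e1]
      refine Finset.prod_induction _ (fun a => 1 ≤ W.valuation N a) ?_ ?_ ?_
      · intro a b ha hb
        rw [map_mul]
        exact one_le_mul ha hb
      · exact (map_one _).ge
      · intro μ hμ
        rw [mem_primitiveRoots hp.pos] at hμ
        rw [← h1]
        exact s1_ge W hp hζN hμ.pow_eq_one (hμ.ne_one hp.one_lt)
    exact absurd (e2.trans_lt hplt) (lt_irrefl _)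
  have hint : ∀ t : 𝓞 C, W.valuation N (algebraMap C N (t : C)) ≤ 1 := by
    intro t
    have e : algebraMap C N (t : C) = ((algebraMap (𝓞 C) (𝓞 N) t : 𝓞 N) : N) := rfl
    rw [e]
    exact W.valuation_le_one _
  have hfix : ∀ x ∈ R, σ x = x := by
    intro x hx
    obtain ⟨c, hc, a, ha, b, hb⟩ := hR x hx
    have hcN : algebraMap C N c ≠ 0 := by
      intro h2
      exact c.ne_zero ((map_eq_zero _).1 h2)
    have hx0 : x ≠ 0 := by
      rintro rfl
      rw [zero_pow hp.ne_zero] at hc
      exact hcN hc.symm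
    have hσx : σ x ^ p = algebraMap C N c := by
      rw [← map_pow, hc]
      exact σ.commutes _
    obtain ⟨w, hw⟩ : ∃ w, w = σ x / x := ⟨_, rfl⟩
    have hwp : w ^ p = 1 := by
      rw [hw, div_pow, hσx, hc, div_self hcN]
    have hσw : σ x = w * x := by
      rw [hw, div_mul_cancel₀ _ hx0]
    have hcb : algebraMap C N c = 1 + (p : N) ^ 2 * algebraMap C N (b : C) := by
      rw [← ha]
      have e1 : a = 1 + (p : 𝓞 C) ^ 2 * b := by
        rw [← hb]
        ring
      have e2 : (a : C) = 1 + (p : C) ^ 2 * (b : C) := by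
        rw [e1]
        show algebraMap (𝓞 C) C _ = _
        rw [map_add, map_mul, map_pow, map_one, map_natCast]
      rw [e2, map_add, map_mul, map_pow, map_one, map_natCast]
    -- some root of unity is very close to x
    obtain ⟨μ, hμ, hμ2⟩ : ∃ μ ∈ Polynomial.nthRootsFinset p (1 : N),
        W.valuation N ((x - μ) / (1 - z)) < 1 := by
      by_contra hcon
      push Not at hcon
      have e1 : x ^ p - 1 = ∏ μ ∈ Polynomial.nthRootsFinset p (1 : N), (x - μ) := by
        have h5 := congrArg (Polynomial.eval x) (Polynomial.X_pow_sub_one_eq_prod hp.pos hζN)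
        rw [Polynomial.eval_prod, Polynomial.eval_sub, Polynomial.eval_pow, Polynomial.eval_X,
          Polynomial.eval_one] at h5
        rw [h5]
        refine Finset.prod_congr rfl fun μ _ => ?_
        rw [Polynomial.eval_sub, Polynomial.eval_X, Polynomial.eval_C]
      have e2 : (x ^ p - 1) / (1 - z) ^ p =
          ∏ μ ∈ Polynomial.nthRootsFinset p (1 : N), ((x - μ) / (1 - z)) := by
        rw [Finset.prod_div_distrib, ← e1, Finset.prod_const, hζN.card_nthRootsFinset]
      have e3 : (x ^ p - 1) / (1 - z) ^ p =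
          algebraMap C N (b : C) * ((p : N) / (1 - z) ^ (p - 1)) ^ 2 * (1 - z) ^ (p - 2) := by
        rw [hc, hcb]
        have e4 : (1 - z) ^ (p - 1) * (1 - z) ^ (p - 1) = (1 - z) ^ p * (1 - z) ^ (p - 2) := by
          rw [← pow_add, ← pow_add]
          congr 1
          omega
        rw [div_pow, ← pow_mul, show (p - 1) * 2 = (p - 1) + (p - 1) by ring, pow_add, e4,
          add_sub_cancel_left]
        have e5 : (1 - z) ^ p ≠ 0 := pow_ne_zero _ hzne
        have e6 : (1 - z) ^ (p - 2) ≠ 0 := pow_ne_zero _ hzne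
        field_simp
      have h6 : W.valuation N ((x ^ p - 1) / (1 - z) ^ p) < 1 := by
        rw [e3, map_mul, map_mul, map_pow, map_pow]
        refine mul_lt_one_of_nonneg_of_lt_one_right ?_ zero_le ?_
        · exact mul_le_one' (hint b) (pow_le_one₀ zero_le (W12_p2 W hp hvz hζN))
        · exact pow_lt_one₀ zero_le hzlt (by omega)
      have h7 : 1 ≤ W.valuation N ((x ^ p - 1) / (1 - z) ^ p) := by
        rw [e2]
        refine Finset.prod_induction _ (fun a => 1 ≤ W.valuation N a) ?_ ?_ ?_
        · intro a b ha hb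
          rw [map_mul]
          exact one_le_mul ha hb
        · exact (map_one _).ge
        · exact hcon
      exact absurd (h7.trans_lt h6) (lt_irrefl _)
    rw [Polynomial.mem_nthRootsFinset hp.pos] at hμ
    have hμ0 : μ ≠ 0 := by
      rintro rfl
      rw [zero_pow hp.ne_zero] at hμ
      exact zero_ne_one hμ
    have hσ1 : W.valuation N ((w * x - μ) / (1 - z)) < 1 := by
      have h8 := s1_val σ W hσ ((x - μ) / (1 - z))
      rw [map_div₀, map_sub, map_sub, map_one, hσfix z hζN.pow_eq_one, hσfix μ hμ, hσw] at h8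
      rw [h8]
      exact hμ2
    have hvw : W.valuation N w = 1 := by
      refine W12_root W hp.ne_zero ?_
      rw [← map_pow, hwp, map_one]
    have hvμ : W.valuation N μ = 1 := by
      refine W12_root W hp.ne_zero ?_
      rw [← map_pow, hμ, map_one]
    -- w μ - μ is divisible by (1 - z) times a non-unit
    have h9 : W.valuation N ((1 - w) / (1 - z)) < 1 := by
      have h10 : W.valuation N ((1 - w) / (1 - z) * μ) < 1 := by
        have e3 : (1 - w) / (1 - z) * μ = w * ((x - μ) / (1 - z)) - (w * x - μ) / (1 - z) := by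
          rw [mul_div_assoc', ← sub_div, div_mul_eq_mul_div]
          congr 1
          ring
        rw [e3]
        refine (Valuation.map_sub _ _ _).trans_lt (max_lt ?_ hσ1)
        rw [map_mul, hvw, one_mul]
        exact hμ2
      rwa [map_mul, hvμ, mul_one] at h10
    by_contra hne
    have hw1 : w ≠ 1 := by
      rintro rfl
      rw [one_mul] at hσw
      exact hne hσw
    have h11 := s1_ge W hp hζN hwp hw1
    rw [map_div₀, div_lt_one₀ (zero_lt_iff.2 hz0)] at h9
    exact absurd (h11.trans_lt h9) (lt_irrefl _)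
  have h9 : (σ : N →ₐ[C] N) = AlgHom.id C N := by
    apply AlgHom.ext_of_adjoin_eq_top hgen
    intro x hx
    exact hfix x hx
  apply AlgEquiv.ext
  intro x
  exact DFunLike.congr_fun h9 x

end H55Z
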