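import Mathlib
import Pool.Agent.Lib.H28T.W16
import Pool.Agent.Lib.H55Z.S1

/-! # H55Z: the prime p splits completely in the fields of the wreath step -/

open NumberField IsDedekindDomain

namespace H55Z

open H28R H55P H55R H28T

/-- The prime number p is unramified, of relative residue degree one, in K/F. -/
def Spl (F : Type) [Field F] [NumberField F] (p : ℕ) (K : Type) [Field K] [NumberField K] [Algebra F K] : Prop :=
  ∀ w : HeightOneSpectrum (𝓞 K), (p : 𝓞 K) ∈ w.asIdeal →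
    w.asIdeal.ramificationIdx (𝓞 F) = 1 ∧ w.asIdeal.inertiaDeg (𝓞 F) = 1

/-- Inertia degrees in towers. -/
theorem s2_tower {F₀ K L : Type} [Field F₀] [NumberField F₀] [Field K] [NumberField K] [Field L]
    [NumberField L] [Algebra F₀ K] [Algebra K L] [Algebra F₀ L] [IsScalarTower F₀ K L] (W : Pl L)
    (w : Pl K) (h : W.under (𝓞 K) = w) :
    W.asIdeal.inertiaDeg (𝓞 F₀) = w.asIdeal.inertiaDeg (𝓞 F₀) * W.asIdeal.inertiaDeg (𝓞 K) := by
  have hl : W.asIdeal.LiesOver w.asIdeal := ⟨by rw [← h]; rfl⟩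
  exact Ideal.inertiaDeg_tower w.asIdeal W.asIdeal

theorem s2_dvd {K L : Type} [Field K] [NumberField K] [Field L] [NumberField L] [Algebra K L]
    [IsGalois K L] (W : Pl L) : W.asIdeal.inertiaDeg (𝓞 K) ∣ Module.finrank K L := by
  have h1 := (HC6_dvd (L := L) (W.under (𝓞 K))).2
  have hp := (W.under (𝓞 K)).isPrime
  have hW := W.isPrime
  have hl : W.asIdeal.LiesOver (W.under (𝓞 K)).asIdeal := ⟨rfl⟩
  have h2 := Ideal.inertiaDegIn_eq_inertiaDeg (W.under (𝓞 K)).asIdeal W.asIdeal Gal(L/K)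
  rw [← h2]
  exact h1

/-- A prime with trivial stabiliser. -/
theorem s2_stab {C N : Type} [Field C] [NumberField C] [Field N] [NumberField N] [Algebra C N] [IsGalois C N]
    (W : Pl N) (h : ∀ σ : Gal(N/C), smulP σ W = W → σ = 1) :
    W.asIdeal.ramificationIdx (𝓞 C) = 1 ∧ W.asIdeal.inertiaDeg (𝓞 C) = 1 := by
  have h1 := card_stab W (W.under (𝓞 C)) rfl
  have h2 : Nat.card {σ : Gal(N/C) // smulP σ W = W} = 1 := by
    rw [Nat.card_eq_one_iff_unique]
    exact ⟨⟨fun a b => Subtype.ext ((h a.1 a.2).trans (h b.1 b.2).symm)⟩, ⟨⟨1, smulP_one W⟩⟩⟩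
  rw [h2] at h1
  have h3 := Nat.eq_one_of_mul_eq_one_right h1.symm
  have h4 := Nat.eq_one_of_mul_eq_one_left h1.symm
  have hp := (W.under (𝓞 C)).isPrime
  have hW := W.isPrime
  have hl : W.asIdeal.LiesOver (W.under (𝓞 C)).asIdeal := ⟨rfl⟩
  have h5 := Ideal.inertiaDegIn_eq_inertiaDeg (W.under (𝓞 C)).asIdeal W.asIdeal Gal(N/C)
  have h6 := Ideal.ramificationIdxIn_eq_ramificationIdx (W.under (𝓞 C)).asIdeal W.asIdeal Gal(N/C)
  exact ⟨h6.symm.trans h3, h5.symm.trans h4⟩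

theorem s2_one {m a n p : ℕ} (hm : m.Coprime p) (h1 : a ∣ m) (h2 : a ∣ p ^ n) : a = 1 :=
  Nat.eq_one_of_dvd_coprimes (Nat.Coprime.pow_right n hm) h1 h2

variable {F : Type} [Field F] [NumberField F] {G : HeightOneSpectrum (𝓞 F) → Prop}

theorem spl_K' {p : ℕ} (hp : p.Prime) (h5 : 5 ≤ p) {K C N K' : Type} [Field K] [NumberField K]
    [Field C] [NumberField C] [Field N] [NumberField N] [Field K'] [NumberField K'] [Algebra F K]
    [Algebra F C] [Algebra F N] [Algebra F K'] [Algebra K C] [Algebra K N] [Algebra K K']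
    [Algebra C N] [Algebra K' N] [IsScalarTower F K C] [IsScalarTower F C N] [IsScalarTower K C N]
    [IsScalarTower F K N] [IsScalarTower F K K'] [IsScalarTower F K' N] [IsScalarTower K K' N]
    {ζ : C} (hC : Cyc F p K C ζ) {B : ℕ} (hS : Spl F p K) {γ : Cˣ} {w w' : Pl C}
    (hγ : Gam G p K C ζ B γ w w') {r : FixZ F ζ → N} (hr : WrP p F C N ζ γ r) (hG : IsGalois F K')
    (hk : ∃ n : ℕ, Module.finrank F K' = p ^ n) : Spl F p K' := by
  have hGN := hr.gal
  have hGC := hC.gal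
  have hGCN : IsGalois C N := IsGalois.tower_top_of_isGalois F C N
  have hGKC : IsGalois K C := IsGalois.tower_top_of_isGalois F K C
  intro W' hW'
  obtain ⟨W, hW⟩ := under_exists (L := N) W'
  have hWm : W'.asIdeal = W.asIdeal.comap (algebraMap (𝓞 K') (𝓞 N)) := by
    rw [← hW]
    rfl
  have hpW : (p : 𝓞 N) ∈ W.asIdeal := by
    have h1 : (p : 𝓞 K') ∈ W.asIdeal.comap (algebraMap (𝓞 K') (𝓞 N)) := hWm ▸ hW'
    rw [Ideal.mem_comap, map_natCast] at h1
    exact h1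
  have hdec : ∀ σ : Gal(N/C), smulP σ W = W → σ = 1 := by
    refine fun σ hσ => dec_one hp (by omega) hC.prim (Set.range r) hr.gen W hpW ?_ σ hσ
    rintro _ ⟨g, rfl⟩
    refine ⟨Units.map (((g : C ≃ₐ[F] C) : C ≃ₐ[F] C) : C →* C) γ, hr.pow g, ?_⟩
    obtain ⟨a, ha, hd⟩ := hγ.pp
    refine ⟨(g : C ≃ₐ[F] C) • a, ?_, ?_⟩
    · show (g : C ≃ₐ[F] C) (a : C) = (g : C ≃ₐ[F] C) (γ : C)
      rw [ha]
    · obtain ⟨b, hb⟩ := hd
      refine ⟨(g : C ≃ₐ[F] C) • b, ?_⟩
      have h3 : (g : C ≃ₐ[F] C) • (a - 1) = (g : C ≃ₐ[F] C) • ((p : 𝓞 C) ^ 2 * b) := by rw [hb]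
      rw [smul_sub, smul_one, smul_mul', smul_pow'] at h3
      rw [h3]
      congr 2
      apply RingOfIntegers.ext
      have h4 : (((p : 𝓞 C)) : C) = (p : C) := map_natCast (algebraMap (𝓞 C) C) p
      show (g : C ≃ₐ[F] C) ((p : 𝓞 C) : C) = ((p : 𝓞 C) : C)
      rw [h4, map_natCast]
  obtain ⟨e1, f1⟩ := s2_stab W hdec
  have hQ : (W.under (𝓞 C)).under (𝓞 K) = W'.under (𝓞 K) := by
    apply HeightOneSpectrum.ext
    show (W.asIdeal.under (𝓞 C)).under (𝓞 K) = W'.asIdeal.under (𝓞 K)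
    rw [Ideal.under_under, ← hW]
    exact (Ideal.under_under W.asIdeal).symm
  have hpQ : (p : 𝓞 K) ∈ (W'.under (𝓞 K)).asIdeal := by
    show algebraMap (𝓞 K) (𝓞 K') (p : 𝓞 K) ∈ W'.asIdeal
    rw [map_natCast]
    exact hW'
  obtain ⟨e3, f3⟩ := hS (W'.under (𝓞 K)) hpQ
  have hcop : (p - 1).Coprime p := by
    have := (Nat.coprime_self_add_right (m := p - 1) (n := 1)).2 (Nat.coprime_one_right _)
    rwa [Nat.sub_add_cancel hp.one_le] at this
  obtain ⟨n, hn⟩ := hk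
  constructor
  · refine ram_one (F₀ := F) hp ⟨n, hn⟩ hcop W' W hW ?_
    rw [W13_tower (F₀ := F) W (W.under (𝓞 C)) rfl, e1, mul_one,
      W13_tower (F₀ := F) (W.under (𝓞 C)) (W'.under (𝓞 K)) hQ, e3, one_mul]
    exact (W13_dvd (K := K) (W.under (𝓞 C))).trans hC.deg
  · refine s2_one hcop (n := n) ?_ (hn ▸ s2_dvd (K := F) W')
    have h1 : W'.asIdeal.inertiaDeg (𝓞 F) ∣ W.asIdeal.inertiaDeg (𝓞 F) :=
      Dvd.intro _ (s2_tower (F₀ := F) W W' hW).symm
    refine h1.trans ?_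
    rw [s2_tower (F₀ := F) W (W.under (𝓞 C)) rfl, f1, mul_one,
      s2_tower (F₀ := F) (W.under (𝓞 C)) (W'.under (𝓞 K)) hQ, f3, one_mul]
    exact (s2_dvd (K := K) (W.under (𝓞 C))).trans hC.deg

/-- K' contains K, is of the same kind, and its group is the regular wreath product of the cyclic group of order p with the group of
K/F. -/
def WrOverS (G : HeightOneSpectrum (𝓞 F) → Prop) (p : ℕ) (K : Type) [Field K] [NumberField K] [Algebra F K] (B : ℕ) : Prop :=
  ∃ (K' : Type) (_ : Field K') (_ : NumberField K') (_ : Algebra F K') (_ : Algebra K K')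
    (_ : IsScalarTower F K K'), PB G p K' B ∧ Spl F p K' ∧ Nonempty ((K' ≃ₐ[F] K') ≃* CP p ≀ᵣ (K ≃ₐ[F] K))

theorem exists_wreathS {p : ℕ} (hp : p.Prime) (h5 : 5 ≤ p) (hGp : ∀ v : HeightOneSpectrum (𝓞 F), G v → (p : 𝓞 F) ∉ v.asIdeal)
    (hN : NiceH G p) (K : Type) [Field K] [NumberField K]
    [Algebra F K] (B : ℕ) (h : PB G p K B) (hS : Spl F p K) : WrOverS G p K B := by
  classical
  obtain ⟨C, _, _, _, _, _, ζ, hC⟩ := exists_cyc (F := F) p hp h5 K h.1.1 h.1.2.1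
  obtain ⟨α, w, w', hα⟩ := exists_alp hp C B hGp (fun S hS => hN K C ζ h.1 hC B S hS)
  obtain ⟨γ, hγ⟩ := exists_gam hp hC hα
  obtain ⟨N, _, _, _, _, _, _, _, _, r, hr, hcen⟩ := exists_N hp hC γ hγ.eig
  have : Finite (FixZ F ζ) := inferInstance
  let _ : Fintype (FixZ F ζ) := Fintype.ofFinite _
  have hGN : IsGalois F N := hr.gal
  obtain ⟨D, hD, hDK, ⟨e⟩⟩ := group_D hp h5 hC γ.ne_zero hr (fun a ha => not_pow hp hC hγ a ha) hcen
  obtain ⟨K', _, _, _, _, _, _, _, _, hG', ⟨e'⟩⟩ := exists_fix F K N D hD hDK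
  have hcard : ∃ n : ℕ, Module.finrank F K' = p ^ n := by
    obtain ⟨k, hk⟩ := h.1.2.1
    have := h.1.1
    rw [← IsGalois.card_aut_eq_finrank, Nat.card_congr (e'.trans e).toEquiv,
      RegularWreathProduct.card, IsGalois.card_aut_eq_finrank, hk]
    refine ⟨p ^ k + k, ?_⟩
    have h1 : Nat.card (CP p) = p := by
      rw [Nat.card_eq_of_bijective Multiplicative.toAdd Multiplicative.toAdd.bijective, Nat.card_zmod]
    rw [h1, pow_add]
  exact ⟨K', inferInstance, inferInstance, inferInstance, inferInstance, inferInstance,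
    ram_PB hp h5 hC h hγ hr hG' hcard, spl_K' hp h5 hC hS hγ hr hG' hcard, ⟨e'.trans e⟩⟩

/-- H embeds in the group of an extension of the class in which p splits completely, ramified only at primes of norm greater than B. -/
def EmbS (G : HeightOneSpectrum (𝓞 F) → Prop) (p : ℕ) (H : Type) [Group H] (B : ℕ) : Prop :=
  ∃ (K : Type) (_ : Field K) (_ : NumberField K) (_ : Algebra F K), PB G p K B ∧ Spl F p K ∧
    ∃ φ : H →* (K ≃ₐ[F] K), Function.Injective φ

theorem spl_base (p : ℕ) : Spl F p F := by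
  intro w _
  have hp := w.isPrime
  refine ⟨ge_unr_base w, ?_⟩
  exact s2_one (m := 1) (p := 1) (n := 1) (Nat.coprime_one_right 1) (by
    have h1 := s2_dvd (K := F) w
    rwa [Module.finrank_self] at h1) (by
    have h1 := s2_dvd (K := F) w
    rwa [Module.finrank_self] at h1)

theorem exists_embedS {p : ℕ} (hp : p.Prime) (h5 : 5 ≤ p) (hGp : ∀ v : HeightOneSpectrum (𝓞 F), G v → (p : 𝓞 F) ∉ v.asIdeal)
    (hN : NiceH G p) (k : ℕ) :
    ∀ (H : Type) [Group H] [Finite H], Nat.card H = p ^ k → ∀ B : ℕ, EmbS G p H B := by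
  induction k with
  | zero =>
    intro H _ _ hH B
    rw [pow_zero] at hH
    have : Subsingleton H := (Nat.card_eq_one_iff_unique.1 hH).1
    exact ⟨F, inferInstance, inferInstance, Algebra.id F, pb_base G p B, spl_base p,
      ⟨1, Function.injective_of_subsingleton _⟩⟩
  | succ k ih =>
    intro H _ _ hH B
    obtain ⟨Z, hZ, hZ2, hQ⟩ := centreP hp H k hH
    obtain ⟨K, _, _, _, hK, hS, ⟨φ, hφ⟩⟩ := ih (H ⧸ Z) hQ B
    obtain ⟨K', _, _, _, _, _, hK', hS', ⟨e⟩⟩ := exists_wreathS hp h5 hGp hN K B hK hS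
    have : Finite (K ≃ₐ[F] K) := inferInstance
    have hker : (φ.comp (QuotientGroup.mk' Z)).ker = Z := by
      ext x
      rw [MonoidHom.mem_ker, MonoidHom.comp_apply, ← map_one φ, hφ.eq_iff]
      exact QuotientGroup.eq_one_iff x
    obtain ⟨ψ, hψ⟩ := kkP hp H (K ≃ₐ[F] K) (φ.comp (QuotientGroup.mk' Z)) (by rw [hker]; exact hZ2)
    exact ⟨K', inferInstance, inferInstance, inferInstance, hK', hS',
      ⟨e.symm.toMonoidHom.comp ψ, e.symm.injective.comp hψ⟩⟩

end H55Z
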