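import Mathlib
import Pool.Agent.Lib.H55R.X7
import Pool.Agent.Lib.H55R.HC6
import Pool.Agent.Lib.H55K.RF
import Pool.Agent.Lib.H55K.RP3
import Pool.Agent.Lib.H55K.FC2
import Pool.Agent.Lib.H13R.K1
import Pool.Agent.Lib.H55Z.S2

/-! # H55Z, part Q: the prime p, inert in F, in the field generated by F and M -/

open NumberField IsDedekindDomain
open scoped Pointwise

namespace H55Z

open H55R
open H55P (IQ UnrP)
open H55K H55K.TQ

section gen

variable {p : ℕ} {F M K : Type} [Field F] [NumberField F] [IQ F] [Field M] [NumberField M] [Field K] [NumberField K] [Algebra F K] [Algebra M K]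

theorem q10_mem (hp : p.Prime) (hI : (Ideal.span {(p : 𝓞 F)}).IsPrime) (W : Pl K) (hW : (p : 𝓞 K) ∈ W.asIdeal) :
    W.asIdeal.under (𝓞 F) = Ideal.span {(p : 𝓞 F)} := by
  have hWp := W.isPrime
  have h0 : Ideal.span {(p : 𝓞 F)} ≠ ⊥ := by
    rw [Ne, Ideal.span_singleton_eq_bot]
    exact Nat.cast_ne_zero.2 hp.ne_zero
  have hm : (Ideal.span {(p : 𝓞 F)}).IsMaximal := hI.isMaximal h0
  refine (hm.eq_of_le (Ideal.IsPrime.ne_top inferInstance) ?_).symm
  rw [Ideal.span_singleton_le_iff_mem, Ideal.under, Ideal.mem_comap, map_natCast]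
  exact hW

theorem q10_card (hp : p.Prime) (hI : (Ideal.span {(p : 𝓞 F)}).IsPrime) (x : 𝓞 F) : x ^ p ^ 2 - x ∈ Ideal.span {(p : 𝓞 F)} := by
  have h0 : Ideal.span {(p : 𝓞 F)} ≠ ⊥ := by
    rw [Ne, Ideal.span_singleton_eq_bot]
    exact Nat.cast_ne_zero.2 hp.ne_zero
  have hm : (Ideal.span {(p : 𝓞 F)}).IsMaximal := hI.isMaximal h0
  let _ : Field (𝓞 F ⧸ Ideal.span {(p : 𝓞 F)}) := Ideal.Quotient.field _
  have hfin : Finite (𝓞 F ⧸ Ideal.span {(p : 𝓞 F)}) := Ideal.finiteQuotientOfFreeOfNeBot _ h0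
  let _ := Fintype.ofFinite (𝓞 F ⧸ Ideal.span {(p : 𝓞 F)})
  have hc : Fintype.card (𝓞 F ⧸ Ideal.span {(p : 𝓞 F)}) = p ^ 2 := by
    rw [← Nat.card_eq_fintype_card, ← Submodule.cardQuot_apply, ← Ideal.absNorm_apply, Ideal.absNorm_span_natCast,
      RingOfIntegers.rank F, IQ.deg]
  rw [← Ideal.Quotient.eq, map_pow, ← hc]
  exact FiniteField.pow_card _

/-- The primes above p in K. -/
theorem q10_gen [IsGalois M K] (hp : p.Prime) (h2 : p ≠ 2) (hI : (Ideal.span {(p : 𝓞 F)}).IsPrime)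
    (hσ : ∀ σ : Gal(K/M), σ ≠ 1 → ∀ x : 𝓞 F, σ (algebraMap F K (x : F)) = algebraMap F K ((cj x : 𝓞 F) : F))
    (hS : ∀ w : Pl M, (p : 𝓞 M) ∈ w.asIdeal → w.asIdeal.ramificationIdx ℤ = 1 ∧ Ideal.absNorm w.asIdeal ∣ p ^ 2)
    (W : Pl K) (hW : (p : 𝓞 K) ∈ W.asIdeal) : W.asIdeal.ramificationIdx ℤ = 1 ∧ Ideal.absNorm W.asIdeal ∣ p ^ 2 := by
  obtain ⟨w, hw⟩ : ∃ w : Pl M, W.under (𝓞 M) = w := ⟨_, rfl⟩
  have hpw : (p : 𝓞 M) ∈ w.asIdeal := by
    rw [← hw]
    show algebraMap (𝓞 M) (𝓞 K) (p : 𝓞 M) ∈ W.asIdeal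
    rw [map_natCast]
    exact hW
  obtain ⟨he, hf⟩ := hS w hpw
  have hcom := BF1_comm (K := M) (L := K)
  have hl : W.asIdeal.LiesOver w.asIdeal := (BF2_mem w W hw).2
  have hwp := w.isPrime
  have hWp := W.isPrime
  have hWm := W.isMaximal
  have hwm := w.isMaximal
  have hfin : Finite (𝓞 K ⧸ W.asIdeal) := Ideal.finiteQuotientOfFreeOfNeBot _ W.ne_bot
  have hdown : ∀ x : 𝓞 F, algebraMap (𝓞 F) (𝓞 K) x ∈ W.asIdeal → (p : 𝓞 F) ∣ x := by
    intro x hx
    rw [← Ideal.mem_span_singleton, ← q10_mem hp hI W hW]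
    exact hx
  have hact : ∀ σ : Gal(K/M), σ ≠ 1 → ∀ x : 𝓞 F, σ • (algebraMap (𝓞 F) (𝓞 K) x) = algebraMap (𝓞 F) (𝓞 K) (cj x) := by
    intro σ hs x
    apply RingOfIntegers.ext
    exact hσ σ hs x
  -- no unramified automorphism
  have hno : ∀ σ : Gal(K/M), σ ≠ 1 → ¬ ∀ x : 𝓞 F, σ • (algebraMap (𝓞 F) (𝓞 K) x) - algebraMap (𝓞 F) (𝓞 K) x ∈ W.asIdeal := by
    intro σ hs h
    refine rf_card (F := F) hp h2 fun a => ?_
    have h3 := h a
    rw [hact σ hs, ← map_sub] at h3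
    have h4 := hdown _ h3
    rw [← neg_sub]
    exact (dvd_neg).2 h4
  have hes : es M K w = 1 := by
    have h3 : Nat.card (W.asIdeal.inertia Gal(K/M)) = es M K w :=
      Ideal.card_inertia_eq_ramificationIdxIn (G := Gal(K/M)) w.asIdeal W.asIdeal
    rw [← h3, Subgroup.card_eq_one, eq_bot_iff]
    intro σ hσ'
    rw [Subgroup.mem_bot]
    by_contra hs
    exact hno σ hs fun x => hσ' _
  have e3 : es M K w = W.asIdeal.ramificationIdx (𝓞 M) :=
    Ideal.ramificationIdxIn_eq_ramificationIdx w.asIdeal W.asIdeal Gal(K/M)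
  have e4 : fs M K w = W.asIdeal.inertiaDeg (𝓞 M) :=
    Ideal.inertiaDegIn_eq_inertiaDeg w.asIdeal W.asIdeal Gal(K/M)
  refine ⟨?_, ?_⟩
  · have e1 : W.asIdeal.ramificationIdx ℤ = w.asIdeal.ramificationIdx ℤ * W.asIdeal.ramificationIdx (𝓞 M) :=
      Ideal.ramificationIdx_tower w.asIdeal W.asIdeal
    rw [e1, he, ← e3, hes]
  · have hnorm : Ideal.absNorm W.asIdeal = Ideal.absNorm w.asIdeal ^ fs M K w := by
      rw [← map_pow, ← CH2_norm w W (congrArg HeightOneSpectrum.asIdeal hw), Ideal.absNorm_relNorm]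
    obtain ⟨g, hg⟩ := IsArithFrobAt.exists_of_isInvariant (𝓞 M) Gal(K/M) W.asIdeal
    have h1 := card_stab W w hw
    rw [hes, one_mul] at h1
    by_cases hg1 : g = 1
    · have hf1 : fs M K w = 1 := by
        rw [← h1, Nat.card_eq_one_iff_unique]
        refine ⟨⟨fun a b => Subtype.ext ?_⟩, ⟨⟨1, smulP_one W⟩⟩⟩
        obtain ⟨i, hi⟩ := X7_pow w hes W g hg a.1 (congrArg HeightOneSpectrum.asIdeal a.2)
        obtain ⟨j, hj⟩ := X7_pow w hes W g hg b.1 (congrArg HeightOneSpectrum.asIdeal b.2)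
        rw [hi, hj, hg1, one_pow, one_pow]
      rw [hnorm, hf1, pow_one]
      exact hf
    · obtain ⟨k, hk2, hk⟩ := (Nat.dvd_prime_pow hp).1 hf
      have hk0 : k ≠ 0 := by
        rintro rfl
        rw [pow_zero, Ideal.absNorm_eq_one_iff] at hk
        exact hwp.ne_top hk
      have hk1 : k ≠ 2 := by
        rintro rfl
        refine hno g hg1 fun x => ?_
        have h3 := hg (algebraMap (𝓞 F) (𝓞 K) x)
        have h4 : Nat.card (𝓞 M ⧸ W.asIdeal.under (𝓞 M)) = p ^ 2 := by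
          rw [← hk, Ideal.absNorm_apply, Submodule.cardQuot_apply, hl.over]
        rw [h4] at h3
        have h5 : algebraMap (𝓞 F) (𝓞 K) (x ^ p ^ 2 - x) ∈ W.asIdeal := by
          have h6 := q10_card hp hI x
          rw [← q10_mem hp hI W hW] at h6
          exact h6
        rw [map_sub, map_pow] at h5
        have h7 := add_mem h3 h5
        have h8 : (MulSemiringAction.toAlgHom (𝓞 M) (𝓞 K) g) (algebraMap (𝓞 F) (𝓞 K) x) -
            algebraMap (𝓞 F) (𝓞 K) x ^ p ^ 2 + (algebraMap (𝓞 F) (𝓞 K) x ^ p ^ 2 - algebraMap (𝓞 F) (𝓞 K) x) =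
            g • (algebraMap (𝓞 F) (𝓞 K) x) - algebraMap (𝓞 F) (𝓞 K) x := by
          show g • (algebraMap (𝓞 F) (𝓞 K) x) - _ + _ = _
          ring
        rw [h8] at h7
        exact h7
      have hk' : k = 1 := by omega
      rw [hk', pow_one] at hk
      have hg2 : g ^ 2 = 1 := by
        by_contra hs
        refine rf_card (F := F) hp h2 fun a => ?_
        have h3 := hact (g ^ 2) hs a
        have h4 : g ^ 2 • (algebraMap (𝓞 F) (𝓞 K) a) = algebraMap (𝓞 F) (𝓞 K) a := by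
          rw [sq, mul_smul, hact g hg1, hact g hg1, cj_cj]
        rw [h4] at h3
        have h5 : a = cj a := FaithfulSMul.algebraMap_injective (𝓞 F) (𝓞 K) h3
        rw [← h5, sub_self]
        exact dvd_zero _
      have hfs : fs M K w ∣ 2 := by
        have h3 : orderOf g = fs M K w := by
          rw [← h1, ← Nat.card_zpowers]
          apply Nat.card_congr
          refine Equiv.subtypeEquivRight fun σ => ⟨?_, ?_⟩
          · rintro ⟨i, rfl⟩
            have h3 : g ∈ MulAction.stabilizer Gal(K/M) W.asIdeal := hg.mem_stabilizer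
            have h4 := Subgroup.zpow_mem _ h3 i
            apply HeightOneSpectrum.ext
            exact h4
          · intro hσ'
            obtain ⟨i, hi⟩ := X7_pow w hes W g hg σ (congrArg HeightOneSpectrum.asIdeal hσ')
            rw [hi]
            exact Subgroup.npow_mem_zpowers g i
        rw [← h3]
        exact orderOf_dvd_of_pow_eq_one hg2
      rw [hnorm, hk]
      exact pow_dvd_pow p (Nat.le_of_dvd two_pos hfs)

/-- From the integers to F. -/
theorem q10_spl (hp : p.Prime) (hI : (Ideal.span {(p : 𝓞 F)}).IsPrime)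
    (h : ∀ W : Pl K, (p : 𝓞 K) ∈ W.asIdeal → W.asIdeal.ramificationIdx ℤ = 1 ∧ Ideal.absNorm W.asIdeal ∣ p ^ 2) :
    Spl F p K := by
  intro W hW
  obtain ⟨he, hf⟩ := h W hW
  have hWp := W.isPrime
  have hWm := W.isMaximal
  have hu := q10_mem hp hI W hW
  have h0 : Ideal.span {(p : 𝓞 F)} ≠ ⊥ := by
    rw [Ne, Ideal.span_singleton_eq_bot]
    exact Nat.cast_ne_zero.2 hp.ne_zero
  have hm : (Ideal.span {(p : 𝓞 F)}).IsMaximal := hI.isMaximal h0
  have hl : W.asIdeal.LiesOver (Ideal.span {(p : 𝓞 F)}) := ⟨hu.symm⟩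
  have e1 : W.asIdeal.ramificationIdx ℤ = (Ideal.span {(p : 𝓞 F)}).ramificationIdx ℤ * W.asIdeal.ramificationIdx (𝓞 F) :=
    Ideal.ramificationIdx_tower (Ideal.span {(p : 𝓞 F)}) W.asIdeal
  rw [he] at e1
  have e2 := Ideal.relNorm_eq_pow_of_isMaximal W.asIdeal (Ideal.span {(p : 𝓞 F)})
  have e3 : Ideal.absNorm W.asIdeal = (p ^ 2) ^ W.asIdeal.inertiaDeg (𝓞 F) := by
    rw [← Ideal.absNorm_relNorm (𝓞 F), e2, map_pow, Ideal.absNorm_span_natCast, RingOfIntegers.rank F, IQ.deg]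
  refine ⟨Nat.eq_one_of_mul_eq_one_left e1.symm, ?_⟩
  rw [e3, ← pow_mul] at hf
  have h3 := (Nat.pow_dvd_pow_iff_le_right hp.one_lt).1 hf
  have h4 : W.asIdeal.inertiaDeg (𝓞 F) ≠ 0 := by
    intro h5
    rw [h5, pow_zero, Ideal.absNorm_eq_one_iff] at e3
    exact hWp.ne_top e3
  omega

end gen

section KG

variable {p : ℕ} {F M : Type} [Field F] [NumberField F] [IQ F] [Field M] [NumberField M]

theorem q10_unr (hp : p.Prime) {K : Type} [Field K] [NumberField K]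
    (h : ∀ W : Pl K, (p : 𝓞 K) ∈ W.asIdeal → W.asIdeal.ramificationIdx ℤ = 1) : ¬ (p : ℤ) ∣ NumberField.discr K := by
  have hpp : Prime (p : ℤ) := Nat.prime_iff_prime_int.1 hp
  rw [NumberField.not_dvd_discr_iff_forall_mem K (𝓞 K) hpp]
  intro P hP h2
  have h2' : (p : 𝓞 K) ∈ P := by exact_mod_cast h2
  have hp0 : (p : 𝓞 K) ≠ 0 := Nat.cast_ne_zero.2 hp.ne_zero
  have hPne : P ≠ ⊥ := by
    rintro rfl
    rw [Ideal.mem_bot] at h2'
    exact hp0 h2'
  have h3 := h ⟨P, hP, hPne⟩ h2'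
  exact Ideal.ramificationIdx_eq_one_iff.1 h3

theorem q10_KG (hp : p.Prime) (h2 : p ≠ 2) (hI : (Ideal.span {(p : 𝓞 F)}).IsPrime)
    (hS : ∀ w : Pl M, (p : 𝓞 M) ∈ w.asIdeal → w.asIdeal.ramificationIdx ℤ = 1 ∧ Ideal.absNorm w.asIdeal ∣ p ^ 2)
    (ι : M →ₐ[ℚ] AlgebraicClosure F) (W : Pl (KG F M ι)) (hW : (p : 𝓞 (KG F M ι)) ∈ W.asIdeal) :
    W.asIdeal.ramificationIdx ℤ = 1 ∧ Ideal.absNorm W.asIdeal ∣ p ^ 2 := by
  letI i : Algebra M (KG F M ι) := (KGmap F M ι).toAlgebra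
  rcases kg_dich F M ι with ⟨f, hf⟩ | hQ
  · letI : Algebra F M := f.toAlgebra
    obtain ⟨θ⟩ := kg_iso F M ι f hf
    let g : M →ₐ[F] KG F M ι :=
      { KGmap F M ι with
        commutes' := fun y => Subtype.ext (hf y) }
    have hsur : Function.Surjective (KGmap F M ι) := by
      have h3 : Function.Injective g.toLinearMap := (KGmap F M ι).injective
      have h4 := (LinearMap.injective_iff_surjective_of_finrank_eq_finrank θ.toLinearEquiv.finrank_eq).1 h3
      exact h4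
    have hG : IsGalois M (KG F M ι) := IsGalois.of_algEquiv
      (AlgEquiv.ofBijective (Algebra.ofId M (KG F M ι)) ⟨(KGmap F M ι).injective, hsur⟩)
    refine q10_gen (F := F) (M := M) hp h2 hI (fun σ hs => ?_) hS W hW
    exfalso
    apply hs
    apply AlgEquiv.ext
    intro x
    obtain ⟨y, rfl⟩ := hsur x
    exact σ.commutes y
  · have hq : Algebra.IsQuadraticExtension M (KG F M ι) := ⟨hQ.rank⟩
    have hn : Normal M (KG F M ι) := Algebra.IsQuadraticExtension.normal M (KG F M ι)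
    have hG : IsGalois M (KG F M ι) := ⟨⟩
    obtain ⟨τ, hτ⟩ := hQ.tau
    have hcard : Nat.card (Gal((KG F M ι)/M)) = 2 := by
      rw [IsGalois.card_aut_eq_finrank, hQ.rank]
    have hτ1 : τ ≠ 1 := by
      intro h
      refine rf_card (F := F) hp h2 fun a => ?_
      have h3 := hτ a
      rw [h] at h3
      have h4 : algebraMap F (KG F M ι) (a : F) = algebraMap F (KG F M ι) ((cj a : 𝓞 F) : F) := h3
      have h5 : (a : F) = ((cj a : 𝓞 F) : F) := (algebraMap F (KG F M ι)).injective h4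
      have h6 : a = cj a := RingOfIntegers.ext h5
      rw [← h6, sub_self]
      exact dvd_zero _
    refine q10_gen (F := F) (M := M) hp h2 hI (fun σ hs x => ?_) hS W hW
    have h3 : σ = τ := by
      obtain ⟨a, b, hab, h4⟩ := Nat.card_eq_two_iff.1 hcard
      have h5 : ∀ c : Gal((KG F M ι)/M), c = a ∨ c = b := by
        intro c
        have h6 : c ∈ ({a, b} : Set (Gal((KG F M ι)/M))) := h4 ▸ Set.mem_univ c
        simpa using h6
      rcases h5 1 with h1 | h1 <;> rcases h5 σ with h7 | h7 <;> rcases h5 τ with h8 | h8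
      · exact absurd (h7.trans h1.symm) hs
      · exact absurd (h7.trans h1.symm) hs
      · exact absurd (h8.trans h1.symm) hτ1
      · exact h7.trans h8.symm
      · exact h7.trans h8.symm
      · exact absurd (h8.trans h1.symm) hτ1
      · exact absurd (h7.trans h1.symm) hs
      · exact absurd (h7.trans h1.symm) hs
    rw [h3]
    exact hτ x

/-- The prime p, inert in F, splits completely in KG over F. -/
theorem q10_main (hp : p.Prime) (h2 : p ≠ 2) (hI : (Ideal.span {(p : 𝓞 F)}).IsPrime)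
    (hS : ∀ w : Pl M, (p : 𝓞 M) ∈ w.asIdeal → w.asIdeal.ramificationIdx ℤ = 1 ∧ Ideal.absNorm w.asIdeal ∣ p ^ 2)
    (ι : M →ₐ[ℚ] AlgebraicClosure F) :
    Spl F p (KG F M ι) ∧ UnrP p (KG F M ι) ∧ UnrP p M :=
  ⟨q10_spl hp hI (q10_KG hp h2 hI hS ι), H55K.TQ.FC2_unr hp (q10_unr hp fun W hW => (q10_KG hp h2 hI hS ι W hW).1),
    H55K.TQ.FC2_unr hp (q10_unr hp fun w hw => (hS w hw).1)⟩

end KG

end H55Z
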