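import Mathlib
import Pool.Agent.Lib.H28T.XMain
import Pool.Agent.Lib.H55Z.S2

/-! # H55Z: the Galois closure over the rationals; real fields -/

open NumberField IsDedekindDomain WeierstrassCurve
open scoped Pointwise

namespace H55Z

open H28T
open H55P H55R
open H55K H55K.TQ

/-- The converse of s2_stab. -/
theorem s3_stab {C N : Type} [Field C] [NumberField C] [Field N] [NumberField N] [Algebra C N] [IsGalois C N]
    (W : Pl N) (h : W.asIdeal.ramificationIdx (𝓞 C) = 1 ∧ W.asIdeal.inertiaDeg (𝓞 C) = 1)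
    (σ : Gal(N/C)) (hσ : smulP σ W = W) : σ = 1 := by
  have h1 := card_stab W (W.under (𝓞 C)) rfl
  have hp := (W.under (𝓞 C)).isPrime
  have hW := W.isPrime
  have hl : W.asIdeal.LiesOver (W.under (𝓞 C)).asIdeal := ⟨rfl⟩
  have h5 : fs C N (W.under (𝓞 C)) = 1 :=
    (Ideal.inertiaDegIn_eq_inertiaDeg (W.under (𝓞 C)).asIdeal W.asIdeal Gal(N/C)).trans h.2
  have h6 : es C N (W.under (𝓞 C)) = 1 :=
    (Ideal.ramificationIdxIn_eq_ramificationIdx (W.under (𝓞 C)).asIdeal W.asIdeal Gal(N/C)).trans h.1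
  rw [h5, h6, mul_one] at h1
  have h2 := (Nat.card_eq_one_iff_unique.1 h1).1
  have h3 := h2.elim (⟨σ, hσ⟩ : {σ : Gal(N/C) // smulP σ W = W}) ⟨1, smulP_one W⟩
  exact congrArg Subtype.val h3

section

variable {F : Type} [Field F] [NumberField F] [IQ F] {G : HeightOneSpectrum (𝓞 F) → Prop}

/-- The prime p splits completely in the Galois closure. -/
theorem spl_closure {p : ℕ} (L N : Type) [Field L] [NumberField L] [Algebra F L] [Field N] [NumberField N]
    [Algebra F N] (hG : IsGalois F L) (hS : Spl F p L) (hN : IsGalois ℚ N)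
    (hgen : ∀ g : N ≃ₐ[F] N, (∀ (τ : L →+* N) (x : L), g (τ x) = τ x) → g = 1) : Spl F p N := by
  have hNF : IsGalois F N := IsGalois.tower_top_of_isGalois ℚ F N
  intro P hpP
  apply s2_stab
  intro g hg
  apply hgen
  intro τ x
  obtain ⟨α, hα⟩ := ar1_restrict L N hG g τ
  suffices h1 : α = 1 by
    rw [hα, h1]
    rfl
  let t : 𝓞 L →+* 𝓞 N := RingOfIntegers.mapRingHom τ
  have hPp := P.isPrime
  have hne : P.asIdeal.comap t ≠ ⊥ := by
    intro h
    have hn : (Ideal.absNorm P.asIdeal : 𝓞 L) ∈ P.asIdeal.comap t := by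
      rw [Ideal.mem_comap, map_natCast]
      exact Ideal.absNorm_mem _
    rw [h, Ideal.mem_bot, Nat.cast_eq_zero, Ideal.absNorm_eq_zero_iff] at hn
    exact P.ne_bot hn
  let P' : HeightOneSpectrum (𝓞 L) := ⟨P.asIdeal.comap t, inferInstance, hne⟩
  have hP' : ∀ y, y ∈ P'.asIdeal ↔ t y ∈ P.asIdeal := fun y => Iff.rfl
  have hpP' : (p : 𝓞 L) ∈ P'.asIdeal := by
    rw [hP', map_natCast]
    exact hpP
  apply s3_stab (C := F) P' (hS P' hpP')
  apply HeightOneSpectrum.ext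
  show α • P'.asIdeal = P'.asIdeal
  have hgP : g • P.asIdeal = P.asIdeal := congrArg HeightOneSpectrum.asIdeal hg
  have ht : ∀ y : 𝓞 L, t (α • y) = g • t y := by
    intro y
    apply RingOfIntegers.ext
    exact (hα (y : L)).symm
  have key : ∀ y : 𝓞 L, α • y ∈ P'.asIdeal ↔ y ∈ P'.asIdeal := by
    intro y
    rw [hP', hP', ht]
    nth_rewrite 1 [← hgP]
    exact Ideal.smul_mem_pointwise_smul_iff
  ext y
  obtain ⟨z, rfl⟩ : ∃ z, α • z = y := ⟨α⁻¹ • y, smul_inv_smul _ _⟩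
  rw [Ideal.smul_mem_pointwise_smul_iff, key]

theorem s3_gal {p : ℕ} (hp : p.Prime)
    (hcj : ∀ v v' : HeightOneSpectrum (𝓞 F), (∀ x : 𝓞 F, cj x ∈ v'.asIdeal ↔ x ∈ v.asIdeal) → G v → G v')
    (L : Type) [Field L] [NumberField L] [Algebra F L] (h : ExtG G p L) (hS : Spl F p L) :
    ∃ (N : Type) (_ : Field N) (_ : NumberField N) (_ : Algebra F N) (_ : Algebra L N)
      (_ : IsScalarTower F L N), IsGalois ℚ N ∧ ExtG G p N ∧ Spl F p N := by
  obtain ⟨hG, ⟨k, hk⟩, hU⟩ := h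
  obtain ⟨N, i1, i2, i3, hN, hg⟩ := H13N.g3_closure L
  let i4 : Algebra F N := ((algebraMap L N).comp (algebraMap F L)).toAlgebra
  have i5 : IsScalarTower F L N := IsScalarTower.of_algebraMap_eq fun x => rfl
  have hgen : ∀ g : N ≃ₐ[F] N, (∀ (τ : L →+* N) (x : L), g (τ x) = τ x) → g = 1 := by
    intro g h
    have h1 := hg (g.restrictScalars ℚ) h
    ext x
    exact congrArg (fun σ : N ≃ₐ[ℚ] N => σ x) h1
  obtain ⟨m, hm⟩ := ar3_pow hp L N hG k hk hN hgen
  exact ⟨N, i1, i2, i4, i3, i5, hN, ⟨IsGalois.tower_top_of_isGalois ℚ F N, ⟨m, hm⟩,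
    ar3_unr hcj L N hG hU hN hgen⟩, spl_closure L N hG hS hN hgen⟩

/-- A real field K₀ whose compositum N with F is Galois over the rationals, a Galois extension of F of the class in which p splits
completely, with H as a subquotient of the Galois group of N/F. -/
def RealS (G : HeightOneSpectrum (𝓞 F) → Prop) (p : ℕ) (H : Type) [Group H] : Prop :=
  ∃ (K₀ : Type) (_ : Field K₀) (_ : NumberField K₀), 0 < InfinitePlace.nrRealPlaces K₀ ∧
    ∃ (N : Type) (_ : Field N) (_ : NumberField N) (_ : Algebra F N) (_ : Algebra K₀ N),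
      Module.finrank K₀ N = 2 ∧ IsGalois ℚ N ∧ ExtG G p N ∧ Spl F p N ∧ H28R.SubQ (N ≃ₐ[F] N) H

theorem s3_real {p : ℕ} (hp : p.Prime) (h5 : 5 ≤ p)
    (hcj : ∀ v v' : HeightOneSpectrum (𝓞 F), (∀ x : 𝓞 F, cj x ∈ v'.asIdeal ↔ x ∈ v.asIdeal) → G v → G v')
    (hGp : ∀ v : HeightOneSpectrum (𝓞 F), G v → (p : 𝓞 F) ∉ v.asIdeal)
    (hN : NiceH G p) (H : Type) [Group H] [Finite H] (k : ℕ)
    (hH : Nat.card H = p ^ k) : RealS G p H := by
  obtain ⟨L, i1, i2, i3, hL, hS, ⟨ψ, hψ⟩⟩ := exists_embedS hp h5 hGp hN k H hH 0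
  obtain ⟨N, j1, j2, j3, j4, j5, hGQ, hN', hSN⟩ := s3_gal hp hcj L hL.1 hS
  obtain ⟨K₀, k1, k2, k3, hr, hQ⟩ := ar4_real (F := F) N hGQ
  have hGL := hL.1.1
  have hGF := hN'.1
  refine ⟨K₀, k1, k2, hr, N, j1, j2, j3, k3, hQ, hGQ, hN', hSN, ?_⟩
  let res : (N ≃ₐ[F] N) →* (L ≃ₐ[F] L) := AlgEquiv.restrictNormalHom L
  have hres : Function.Surjective res := AlgEquiv.restrictNormalHom_surjective N
  let e : H ≃* ψ.range := MonoidHom.ofInjective hψ
  refine ⟨ψ.range.comap res, (e.symm : ψ.range →* H).comp (res.subgroupComap ψ.range), ?_⟩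
  intro h
  obtain ⟨g, hg⟩ := hres (e h)
  refine ⟨⟨g, ?_⟩, ?_⟩
  · rw [Subgroup.mem_comap, hg]
    exact (e h).2
  · have h1 : res.subgroupComap ψ.range ⟨g, by rw [Subgroup.mem_comap, hg]; exact (e h).2⟩ = e h :=
      Subtype.ext hg
    show e.symm _ = h
    rw [h1]
    exact e.symm_apply_apply h

end

variable {F : Type} [Field F] [NumberField F] [IQ F] {W₀ : WeierstrassCurve (𝓞 F)} {Om : ℂ}
    {m : Ideal (𝓞 F)} {ψ : Ideal (𝓞 F) →*₀ 𝓞 F} {p : ℕ}

/-- Every finite p-group embeds in the Galois group of an extension of F of the class in which p splits completely. -/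
theorem emb_split (hH : BaseH F W₀ Om m ψ) (hp : PrimeH F W₀ p) (H : Type) [Group H] [Finite H] (k : ℕ)
    (hk : Nat.card H = p ^ k) (B : ℕ) : EmbS (Gx W₀ p) p H B :=
  exists_embedS hp.prime hp.five (fun _ h => h.1) (xm_nice hH hp) k H hk B

/-- Wreath products with p split. -/
theorem wr_split (hH : BaseH F W₀ Om m ψ) (hp : PrimeH F W₀ p) (K : Type) [Field K] [NumberField K] [Algebra F K] (B : ℕ)
    (h : PB (Gx W₀ p) p K B) (hS : Spl F p K) : WrOverS (Gx W₀ p) p K B :=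
  exists_wreathS hp.prime hp.five (fun _ h => h.1) (xm_nice hH hp) K B h hS

/-- Real fields. -/
theorem real_split {W : WeierstrassCurve ℤ} (hH : BaseH F (W⁄(𝓞 F)) Om m ψ) (hp : PrimeH F (W⁄(𝓞 F)) p)
    (H : Type) [Group H] [Finite H] (k : ℕ) (hk : Nat.card H = p ^ k) : RealS (Gx (W⁄(𝓞 F)) p) p H :=
  s3_real hp.prime hp.five (fun v v' h hg => gx_conj v v' h hg) (fun _ h => h.1) (xm_nice hH hp) H k hk

end H55Z
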