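import Mathlib
import Pool.Agent.Lib.H13R.C3
import Pool.Agent.Lib.H13R.C4
import Pool.Agent.Lib.H13R.I1
import Pool.Agent.Lib.H13R.K0
import Pool.Agent.Lib.H28I.A1
import Pool.Agent.Lib.H55K.F2
import Pool.Agent.Lib.H55Z.Q7
import Pool.Agent.Lib.H55Z.Q10
import Pool.Agent.Lib.H55Z.S3
import Pool.Agent.Lib.H19A.Stm

/-! # H55Z, part X: existence of the base fields and of the layers -/

open NumberField IsDedekindDomain WeierstrassCurve

namespace H55Z

open H28T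
open H55P H55R
open H55K H55K.TQ

section pext

variable {F : Type} [Field F] [NumberField F] [IQ F]

/-- An embedding of a field which contains F, restricted to F. -/
theorem x1_conj {N : Type} [Field N] [NumberField N] [Algebra F N] (ι : N →ₐ[ℚ] AlgebraicClosure F) :
    ∃ c : F ≃+* F, ∀ y, algebraMap F (AlgebraicClosure F) (c y) = ι (algebraMap F N y) := by
  have hq : Algebra.IsQuadraticExtension ℚ F := ⟨IQ.deg⟩
  have hn : Normal ℚ F := Algebra.IsQuadraticExtension.normal ℚ F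
  let g : F →ₐ[ℚ] AlgebraicClosure F := (ι.toRingHom.comp (algebraMap F N)).toRatAlgHom
  let h : F →ₐ[ℚ] AlgebraicClosure F := (algebraMap F (AlgebraicClosure F)).toRatAlgHom
  let eh : F ≃ₐ[ℚ] h.fieldRange := AlgEquiv.ofInjectiveField h
  let eg : F ≃ₐ[ℚ] g.fieldRange := AlgEquiv.ofInjectiveField g
  have hn' : Normal ℚ h.fieldRange := Normal.of_algEquiv eh
  have h1 : g.fieldRange = h.fieldRange := by
    have h2 := @AlgHom.fieldRange_of_normal ℚ (AlgebraicClosure F) _ _ _ h.fieldRange hn' (g.comp (eh.symm : h.fieldRange →ₐ[ℚ] F))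
    rw [← h2]
    apply le_antisymm
    · rintro _ ⟨x, rfl⟩
      exact ⟨eh x, congrArg g (eh.symm_apply_apply x)⟩
    · rintro _ ⟨x, rfl⟩
      exact ⟨eh.symm x, rfl⟩
  let c : F ≃ₐ[ℚ] F := (eg.trans (IntermediateField.equivOfEq h1)).trans eh.symm
  refine ⟨c.toRingEquiv, fun y => ?_⟩
  have h3 : eh (c y) = IntermediateField.equivOfEq h1 (eg y) := eh.apply_symm_apply _
  exact congrArg Subtype.val h3

theorem x1_gal2 {N : Type} [Field N] (i1 i2 : Algebra F N) (c : F ≃+* F)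
    (h : ∀ y, @algebraMap F N _ _ i2 (c y) = @algebraMap F N _ _ i1 y) (hG : @IsGalois F _ N _ i1) :
    @IsGalois F _ N _ i2 ∧ @Module.finrank F N _ _ i2.toModule = @Module.finrank F N _ _ i1.toModule := by
  constructor
  · exact @IsGalois.of_equiv_equiv F N _ _ i1 F N _ _ i2 hG c (RingEquiv.refl N) (RingHom.ext h)
  · exact (@Algebra.finrank_eq_of_equiv_equiv F N _ _ i1 F N _ _ i2 c (RingEquiv.refl N) (RingHom.ext h)).symm

/-- The field generated by F and an arbitrary conjugate of N. -/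
theorem x1_pext {p : ℕ} (hp : p.Prime) (N : Type) [Field N] [NumberField N] [Algebra F N] (hG : IsGalois F N) {k : ℕ}
    (hk : Module.finrank F N = p ^ k) (ι : N →ₐ[ℚ] AlgebraicClosure F) : PExt p ⊥ (KG F N ι) := by
  obtain ⟨c, hc⟩ := x1_conj (F := F) ι
  obtain ⟨h1, h2⟩ := x1_gal2 (F := F) (N := N) inferInstance ((algebraMap F N).comp c.symm.toRingHom).toAlgebra c (fun y => by
    show algebraMap F N (c.symm (c y)) = _
    rw [c.symm_apply_apply]) hG
  letI i2 : Algebra F N := ((algebraMap F N).comp c.symm.toRingHom).toAlgebra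
  let j : N →ₐ[F] AlgebraicClosure F :=
    { ι.toRingHom with
      commutes' := fun y => by
        show ι _ = _
        have h3 := hc (c.symm y)
        rw [c.apply_symm_apply] at h3
        exact h3.symm }
  have h3 := pextF_range p hp N h1 k (h2.trans hk) j
  have h4 : KG F N ι = j.fieldRange := by
    apply le_antisymm
    · unfold KG
      rw [IntermediateField.adjoin_le_iff]
      rintro _ ⟨x, rfl⟩
      exact ⟨x, rfl⟩
    · rintro _ ⟨x, rfl⟩
      exact IntermediateField.subset_adjoin F _ ⟨x, rfl⟩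
  rw [h4]
  exact h3

end pext

section split

variable {F : Type} [Field F] [NumberField F] [IQ F] {p : ℕ}

theorem x1_pr (hp : p.Prime) (hI : H19A.InertQ F p) (hU : UnrP p F) :
    ∃ P : Pl F, P.asIdeal = Ideal.span {(p : 𝓞 F)} ∧ P.asIdeal.ramificationIdx ℤ = 1 := by
  have h0 : Ideal.span {(p : 𝓞 F)} ≠ ⊥ := by
    rw [Ne, Ideal.span_singleton_eq_bot]
    exact Nat.cast_ne_zero.2 hp.ne_zero
  have hpr : (Ideal.span {(p : 𝓞 F)}).IsPrime := hI
  refine ⟨⟨Ideal.span {(p : 𝓞 F)}, hpr, h0⟩, rfl, ?_⟩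
  have hl : (Ideal.span {(p : 𝓞 F)}).LiesOver (Ideal.span {(p : ℤ)}) := by
    refine ⟨?_⟩
    have hpp : Prime (p : ℤ) := Nat.prime_iff_prime_int.1 hp
    have hm : (Ideal.span {(p : ℤ)}).IsMaximal := PrincipalIdealRing.isMaximal_of_irreducible hpp.irreducible
    refine hm.eq_of_le (Ideal.IsPrime.ne_top inferInstance) ?_
    rw [Ideal.span_singleton_le_iff_mem, Ideal.under, Ideal.mem_comap, map_natCast]
    exact Ideal.mem_span_singleton_self _
  have hne : Ideal.span {(p : ℤ)} ≠ ⊥ := by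
    rw [Ne, Ideal.span_singleton_eq_bot]
    exact_mod_cast hp.ne_zero
  by_contra h
  have h1 : 0 < (Ideal.span {(p : 𝓞 F)}).ramificationIdx ℤ := Ideal.ramificationIdx_pos _ ℤ
  have h2 : 2 ≤ (Ideal.span {(p : ℤ)}).ramificationIdx' (Ideal.span {(p : 𝓞 F)}) := by
    rw [Ideal.ramificationIdx'_eq_ramificationIdx (Ideal.span {(p : ℤ)}) (Ideal.span {(p : 𝓞 F)}) hne]
    have h3 : (Ideal.span {(p : 𝓞 F)}).ramificationIdx ℤ ≠ 1 := h
    omega
  have h3 := (Ideal.le_pow_of_le_ramificationIdx' h2) (Ideal.mem_map_of_mem _ (Ideal.mem_span_singleton_self (p : ℤ)))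
  rw [map_natCast] at h3
  exact (unr_iff hp).1 hU ⟨Ideal.span {(p : 𝓞 F)}, hpr, h0⟩ h3

/-- The completions above p of the subfields of N. -/
theorem x1_split (hp : p.Prime) (hI : H19A.InertQ F p) (hU : UnrP p F) {K N : Type} [Field K] [NumberField K] [Field N] [NumberField N]
    [Algebra F N] [Algebra K N] (hS : Spl F p N) : H19A.SplitM p K := by
  intro w hw
  obtain ⟨W, hW⟩ := under_exists (L := N) w
  have hwW : w.asIdeal = W.asIdeal.comap (algebraMap (𝓞 K) (𝓞 N)) := by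
    rw [← hW]
    rfl
  have hpW : (p : 𝓞 N) ∈ W.asIdeal := by
    have h1 : (p : 𝓞 K) ∈ W.asIdeal.comap (algebraMap (𝓞 K) (𝓞 N)) := hwW ▸ hw
    rw [Ideal.mem_comap, map_natCast] at h1
    exact h1
  obtain ⟨e1, f1⟩ := hS W hpW
  obtain ⟨P, hP, hPe⟩ := x1_pr (F := F) hp hI hU
  have hWp := W.isPrime
  have hWm := W.isMaximal
  have hwp := w.isPrime
  have hwm := w.isMaximal
  have hPp := P.isPrime
  have hPm := P.isMaximal
  have hu : W.asIdeal.under (𝓞 F) = P.asIdeal := by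
    rw [hP]
    exact q10_mem hp hI W hpW
  have hl : W.asIdeal.LiesOver P.asIdeal := ⟨hu.symm⟩
  have hl' : W.asIdeal.LiesOver w.asIdeal := ⟨hwW⟩
  have e2 : W.asIdeal.ramificationIdx ℤ = P.asIdeal.ramificationIdx ℤ * W.asIdeal.ramificationIdx (𝓞 F) :=
    Ideal.ramificationIdx_tower P.asIdeal W.asIdeal
  have e3 : W.asIdeal.ramificationIdx ℤ = w.asIdeal.ramificationIdx ℤ * W.asIdeal.ramificationIdx (𝓞 K) :=
    Ideal.ramificationIdx_tower w.asIdeal W.asIdeal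
  rw [hPe, e1, e3, mul_one] at e2
  refine ⟨Nat.eq_one_of_mul_eq_one_right e2, ?_⟩
  have n1 := Ideal.relNorm_eq_pow_of_isMaximal W.asIdeal P.asIdeal
  have n2 : Ideal.absNorm W.asIdeal = p ^ 2 := by
    rw [← Ideal.absNorm_relNorm (𝓞 F), n1, f1, pow_one, hP, Ideal.absNorm_span_natCast, RingOfIntegers.rank F, IQ.deg]
  have n3 := Ideal.relNorm_eq_pow_of_isMaximal W.asIdeal w.asIdeal
  have n4 : Ideal.absNorm W.asIdeal = Ideal.absNorm w.asIdeal ^ W.asIdeal.inertiaDeg (𝓞 K) := by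
    rw [← Ideal.absNorm_relNorm (𝓞 K), n3, map_pow]
  have h4 : W.asIdeal.inertiaDeg (𝓞 K) ≠ 0 := by
    intro h5
    rw [n4, h5, pow_zero] at n2
    have := Nat.one_lt_pow two_ne_zero hp.one_lt
    omega
  rw [← n2, n4]
  exact dvd_pow_self _ h4

end split

section ex

variable {F : Type} [Field F] [NumberField F] [IQ F] {W : WeierstrassCurve ℤ} {Om : ℂ}
    {m : Ideal (𝓞 F)} {ψ : Ideal (𝓞 F) →*₀ 𝓞 F} {p : ℕ}

/-- Bad reduction at the primes dividing the discriminant. -/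
theorem x1_bad (hH : BaseH F (W⁄(𝓞 F)) Om m ψ) (hp : PrimeH F (W⁄(𝓞 F)) p)
    {K N : Type} [Field K] [NumberField K] [Field N] [NumberField N] [Algebra F N] [Algebra K N]
    (hG : IsGalois F N) {k : ℕ} (hk : Module.finrank F N = p ^ k) (ιM : K →ₐ[ℚ] AlgebraicClosure F) :
    H13R.BadM (W⁄(𝓞 F)) (KG F K ιM) := by
  have hQK : Algebra.IsAlgebraic K N := by
    have := Algebra.IsAlgebraic.of_finite ℚ N
    exact Algebra.IsAlgebraic.tower_top (K := ℚ) K
  let _ : Algebra K (AlgebraicClosure F) := ιM.toRingHom.toAlgebra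
  let j : N →ₐ[K] AlgebraicClosure F := IsAlgClosed.lift
  let ι : N →ₐ[ℚ] AlgebraicClosure F := j.toRingHom.toRatAlgHom
  have hj : ∀ x : K, ι (algebraMap K N x) = ιM x := fun x => j.commutes x
  have hL := x1_pext hp.prime N hG hk ι
  have hbn : NumberField (⊥ : IntermediateField F (AlgebraicClosure F)) := H16C.FR_numberField _
  have hle : KG F K ιM ≤ KG F N ι := by
    unfold KG
    rw [IntermediateField.adjoin_le_iff]
    rintro _ ⟨x, rfl⟩
    rw [← hj]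
    exact IntermediateField.subset_adjoin F _ ⟨_, rfl⟩
  intro w hw
  exact H13R.bad_KR hH hp hL bot_le hle (H13R.bad_bot hH) w ((H13R.h1_pos hH w).1 hw)

theorem x1_sub {W₀ : WeierstrassCurve (𝓞 F)} {K : Type} [Field K] [NumberField K] (h : InPF W₀ p K) : SubUF F p K := by
  obtain ⟨L, i1, i2, i3, i4, h1, h2, h3, -⟩ := h
  exact ⟨L, i1, i2, i3, i4, h1, h2, h3⟩

/-- The base conditions for the subfields of a field of the class in which p splits. -/
theorem x1_base (hH : BaseH F (W⁄(𝓞 F)) Om m ψ) (hp : PrimeH F (W⁄(𝓞 F)) p) (hI : H19A.InertQ F p) (hA : AnUnitG p W ℚ)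
    {K N : Type} [Field K] [NumberField K] [Field N] [NumberField N] [Algebra F N] [Algebra K N]
    (hE : ExtG (Gx (W⁄(𝓞 F)) p) p N) (hS : Spl F p N) (ιM : K →ₐ[ℚ] AlgebraicClosure F) : H19A.Base F p W K ιM := by
  have hInP : InPF (W⁄(𝓞 F)) p K := (inPF_iff hp.prime hp.unr K).2 ⟨N, inferInstance, inferInstance, inferInstance, inferInstance, hE⟩
  obtain ⟨hcrit, hbsd, -⟩ := main_Q hH hp K (x1_sub hInP)
  obtain ⟨hG, ⟨k, hk⟩, -⟩ := hE
  exact ⟨x1_split hp.prime hI hp.unr hS, x1_bad hH hp hG hk ιM, hbsd (hcrit.2 ⟨hA, hInP⟩)⟩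

theorem x1_exist (hH : BaseH F (W⁄(𝓞 F)) Om m ψ) (hp : PrimeH F (W⁄(𝓞 F)) p) (hI : H19A.InertQ F p) (hA : AnUnitG p W ℚ) :
    H19A.Exist F p W := by
  intro H _ _ k hk
  obtain ⟨M, i1, i2, i3, hB, hS, φ, hφ⟩ := emb_split hH hp H k hk 0
  exact ⟨M, i1, i2, i3, hB.1.1, hB.1.2.1, ⟨φ, hφ⟩, fun ιM => x1_base hH hp hI hA (K := M) (N := M) hB.1 hS ιM⟩

theorem x1_real (hH : BaseH F (W⁄(𝓞 F)) Om m ψ) (hp : PrimeH F (W⁄(𝓞 F)) p) (hI : H19A.InertQ F p) (hA : AnUnitG p W ℚ) :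
    H19A.ExistReal F p W := by
  intro H _ _ k hk
  obtain ⟨M, i1, i2, hr, N, j1, j2, j3, j4, hd, hG, hE, hS, hQ⟩ := real_split hH hp H k hk
  exact ⟨M, i1, i2, hr, fun ιM => x1_base hH hp hI hA (K := M) (N := N) hE hS ιM, N, j1, j2, j3, j4, hd, hG, hE.2.1, hQ⟩

end ex

section iso

open H28I

variable {F : Type} [Field F] [NumberField F] [IQ F] {W W' : WeierstrassCurve ℤ} {Om : ℂ} {m : Ideal (𝓞 F)}
    {ψ : Ideal (𝓞 F) →*₀ 𝓞 F} {kap : ℤ} {e t u lam : ℚ} {p : ℕ}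

/-- The same for the isogenous curve. -/
theorem x1_base_iso (h : TW F W W' Om m ψ kap e t u lam) (hp' : PrimeH F (W'⁄(𝓞 F)) p) (hI : H19A.InertQ F p) (hA : AnUnitG p W' ℚ)
    {K N : Type} [Field K] [NumberField K] [Field N] [NumberField N] [Algebra F N] [Algebra K N]
    (hE : ExtG (Gx (W⁄(𝓞 F)) p) p N) (hS : Spl F p N) (ιM : K →ₐ[ℚ] AlgebraicClosure F) : H19A.Base F p W' K ιM := by
  have hp := (tw_prime h).1 hp'
  have hInP : InPF (W⁄(𝓞 F)) p K := (inPF_iff hp.prime hp.unr K).2 ⟨N, inferInstance, inferInstance, inferInstance, inferInstance, hE⟩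
  obtain ⟨-, hcrit, hbsd, -⟩ := main_iso h hp' K (x1_sub hInP)
  obtain ⟨hG, ⟨k, hk⟩, -⟩ := hE
  exact ⟨x1_split hp.prime hI hp.unr hS, (H13R.i1_bad h _).2 (x1_bad h.base hp hG hk ιM), hbsd (hcrit.2 ⟨hA, (tw_inPF h K).2 hInP⟩)⟩

theorem x1_exist_iso (h : TW F W W' Om m ψ kap e t u lam) (hp' : PrimeH F (W'⁄(𝓞 F)) p) (hI : H19A.InertQ F p)
    (hA : AnUnitG p W' ℚ) : H19A.Exist F p W' := by
  intro H _ _ k hk
  obtain ⟨M, i1, i2, i3, hB, hS, φ, hφ⟩ := emb_split h.base ((tw_prime h).1 hp') H k hk 0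
  exact ⟨M, i1, i2, i3, hB.1.1, hB.1.2.1, ⟨φ, hφ⟩, fun ιM => x1_base_iso h hp' hI hA (K := M) (N := M) hB.1 hS ιM⟩

theorem x1_real_iso (h : TW F W W' Om m ψ kap e t u lam) (hp' : PrimeH F (W'⁄(𝓞 F)) p) (hI : H19A.InertQ F p)
    (hA : AnUnitG p W' ℚ) : H19A.ExistReal F p W' := by
  intro H _ _ k hk
  obtain ⟨M, i1, i2, hr, N, j1, j2, j3, j4, hd, hG, hE, hS, hQ⟩ := real_split h.base ((tw_prime h).1 hp') H k hk
  exact ⟨M, i1, i2, hr, fun ιM => x1_base_iso h hp' hI hA (K := M) (N := N) hE hS ιM, N, j1, j2, j3, j4, hd, hG, hE.2.1, hQ⟩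

end iso

/-- Existence of the layers. -/
theorem x1_layer {p : ℕ} (hp : p.Prime) (h2 : p ≠ 2) : H19A.LayerEx p := by
  intro M _ _ hS n
  have : Fact p.Prime := ⟨hp⟩
  have hU := q10_unr hp fun w hw => (hS w hw).1
  obtain ⟨K, hK⟩ := q7_ex (p := p) h2 n M
  exact ⟨K, inferInstance, inferInstance, inferInstance, (layer_disc h2 hU hK).1, ⟨K.val⟩⟩

end H55Z
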